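import Pool.Agent.MP_d99b12_co.H57.Basic

/-! # The three inductions (MP_d99b12_co) -/

namespace Pool.Agent.MP_d99b12_co.H57

open Matrix Module

variable {p : ℕ} [Fact p.Prime] {F : Type} [Field F] [Fintype F] [Algebra (ZMod p) F]

namespace ATL

variable {ι E : Type} [Fintype ι] [DecidableEq ι] [DecidableEq E] {O O' An : Finset ι}
  {S S' : Finset E} {a : E → ι → F} {z : E → F} {X : E → Submodule (ZMod p) F}
  {Y Y' : Submodule (ZMod p) F} {r : ℕ}

omit [Fintype F] [Fintype ι] [DecidableEq ι] [DecidableEq E] in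
lemma items_drop (h : Items O S a z X r Y) (hO : O' ⊆ O) (hS : S' ⊆ S)
    (h' : ∀ e ∈ S', NC O' (a e) ∧ Yh O (a e) (z e) (X e) ≤ Y') : Items O' S' a z X r Y' :=
  fun e he => ⟨(h' e he).1, (h e (hS he)).2.1, (Yh_mono hO _).trans (h' e he).2⟩

omit [Fintype F] [DecidableEq E] in
lemma anc_drop (h : Anc O An S a) (hne : O.Nonempty) (hO : O' ⊆ O) (hS : S' ⊆ S)
    (hc : ∀ e ∈ S', ∀ i ∈ O, Cls O i (a e) → i ∈ O') :
    ∃ An', Anc O' An' S' a ∧ (Good O' An' S' a z X → Good O An S a z X) := by
  have hA := h.al hne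
  rcases h with rfl | ⟨i0, hi0, rfl, o, ho, hcl⟩
  · exact ⟨O', Or.inl rfl, fun k => k.ext hA hS hO hO (Or.inl fun i hi _ => hi)⟩
  · by_cases k : o ∈ S'
    · have h0 := hc o k i0 hi0 hcl
      refine ⟨O'.erase i0, Or.inr ⟨i0, h0, rfl, o, k, hcl.imp fun _ e => e.mono hO⟩, fun k' =>
        k'.ext hA hS hO ((Finset.erase_subset _ _).trans hO) (Or.inl fun i hi e => ?_)⟩
      refine Finset.mem_erase.2 ⟨?_, hi⟩
      rcases e with e | e
      · exact (Finset.mem_erase.1 e).1
      · exact fun e' => e (e' ▸ h0)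
    · exact ⟨O', Or.inl rfl, fun k' => k'.ext hA hS hO hO (Or.inr ⟨i0, hi0, o, ho, k, hcl,
        fun l hl e => Finset.mem_erase.2 ⟨e, hl⟩⟩)⟩

lemma split {r x y : ℕ} (h : r ≤ x) (h' : x ≤ y) (q : ℕ) :
    (y - r) * q = q * (y - x) + (x - r) * q := by
  rw [mul_comm q, ← add_mul]
  congr 1
  omega

omit [Fintype F] in
/-- Merging dropped items into the free item. -/
lemma merge {i0 : ι} {o : E} {D : Finset E} {c : E → ι} (hi0 : i0 ∈ O) (ho : o ∈ S)
    (hj : Jump O i0 (a o) 1) (hD : D ⊆ S.erase o) (hc : ∀ e, c e ∈ O)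
    (h : Good O (O.erase i0) (S \ D) a
      (Function.update z o (z o + ∑ e ∈ D, (a e i0 - a e (c e)) * z e))
      (Function.update X o (X o ⊓ Y'))) : Good O (O.erase i0) S a z X := by
  obtain ⟨v, ⟨e0, he0, hv0⟩, hP, ξ, hξ, hs⟩ := h
  have hoD : o ∉ D := fun k => (Finset.mem_erase.1 (hD k)).1 rfl
  have hoS : o ∈ S \ D := Finset.mem_sdiff.2 ⟨ho, hoD⟩
  have hDS : D ⊆ S := hD.trans (Finset.erase_subset _ _)
  set w : E → F := fun e => if e ∈ D then v o * (a e i0 - a e (c e)) else v e with hw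
  have w0 : ∀ e ∈ S \ D, w e = v e := fun e he => if_neg (Finset.mem_sdiff.1 he).2
  have w1 : ∀ e ∈ D, w e = v o * (a e i0 - a e (c e)) := fun e he => if_pos he
  refine ⟨w, ⟨e0, Finset.sdiff_subset he0, by rwa [w0 e0 he0]⟩, fun u hu => ?_,
    fun e => if e ∈ D then 0 else ξ e, fun e he => ?_, ?_⟩
  · obtain ⟨σ, hσ⟩ := hP.congr w0 u (hu.mono subset_rfl Finset.sdiff_subset)
    refine ⟨σ, fun e he => ?_⟩
    by_cases k : e ∈ D
    · by_cases k' : c e = i0
      · have : w e = 0 := by rw [w1 e k, k', sub_self, mul_zero]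
        rw [hu.zero (al_erase O i0) he this, this, mul_zero]
      · obtain ⟨α, hα⟩ := hu.edge hi0 (hc e) (Ne.symm k')
          (fun l hl e _ => Finset.mem_erase.2 ⟨e, hl⟩) (v o)
        have h1 := hα o ho (by rw [hj.2 _ (hc e) k', mul_one, w0 o hoS])
        rw [hj.2 _ (hc e) k', mul_one, hσ o hoS, w0 o hoS] at h1
        rw [hα e he (w1 e k), w1 e k, ← h1, mul_assoc]
    · exact hσ e (Finset.mem_sdiff.2 ⟨he, k⟩)
  · by_cases k : e ∈ D
    · simp [k]
    · have h1 := hξ e (Finset.mem_sdiff.2 ⟨he, k⟩)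
      simp only [if_neg k]
      by_cases k' : e = o
      · subst k'
        rw [Function.update_self] at h1
        exact h1.1
      · rwa [Function.update_of_ne k'] at h1
  · have h1 : ∑ e ∈ D, w e * (z e + if e ∈ D then 0 else ξ e) =
        v o * ∑ e ∈ D, (a e i0 - a e (c e)) * z e := by
      rw [Finset.mul_sum]
      exact Finset.sum_congr rfl fun e he => by rw [w1 e he, if_pos he, add_zero, mul_assoc]
    have h2 : ∑ e ∈ (S \ D).erase o, w e * (z e + if e ∈ D then 0 else ξ e) =
        ∑ e ∈ (S \ D).erase o, v e * (Function.update z o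
          (z o + ∑ e ∈ D, (a e i0 - a e (c e)) * z e) e + ξ e) :=
      Finset.sum_congr rfl fun e he => by
        obtain ⟨k1, k2⟩ := Finset.mem_erase.1 he
        rw [w0 e k2, if_neg (Finset.mem_sdiff.1 k2).2, Function.update_of_ne k1]
    rw [← Finset.add_sum_erase _ _ hoS, Function.update_self] at hs
    rw [← Finset.sum_sdiff hDS, ← Finset.add_sum_erase _ _ hoS, h1, h2, w0 o hoS]
    simp only [if_neg hoD]
    linear_combination hs

omit [Fintype F] in
/-- Moving the free item to another index. -/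
lemma reanchor {i0 i1 : ι} {o : E} (hF : Free O i0 S o a X) (hi1 : i1 ∈ O) (hne : i1 ≠ i0)
    (h : Good (O.erase i0) ((O.erase i0).erase i1) S (Function.update a o (Pi.single i1 1))
      (Function.update z o (z o + ∑ e ∈ S.erase o, (a e i0 - a e i1) * z e)) X) :
    Good O (O.erase i0) S a z X := by
  obtain ⟨hi0, ho, hj, hX⟩ := hF
  obtain ⟨v, ⟨e0, he0, hv0⟩, hP, ξ, hξ, hs⟩ := h
  set w : E → F := fun e => if e = o then v o else v e + v o * (a e i0 - a e i1) with hw
  have w0 : w o = v o := if_pos rfl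
  have w1 : ∀ e, e ≠ o → w e = v e + v o * (a e i0 - a e i1) := fun e he => if_neg he
  refine ⟨w, ?_, fun u hu => ?_, Function.update ξ o
    (ξ o - ∑ e ∈ S.erase o, (a e i0 - a e i1) * ξ e), fun e he => ?_, ?_⟩
  · by_cases k : v o = 0
    · have : e0 ≠ o := fun e => hv0 (e ▸ k)
      exact ⟨e0, he0, by rwa [w1 e0 this, k, zero_mul, add_zero]⟩
    · exact ⟨o, ho, by rwa [w0]⟩
  · have hE := isN_edge (F := F) hi0 hi1
    have hL : Loc (O.erase i0) ((O.erase i0).erase i1) S (Function.update a o (Pi.single i1 1)) v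
        fun e => if e = o then u o else u e - u o * (a e i0 - a e i1) := by
      intro φ hφ
      have hφ' := (hφ.mono (Finset.erase_subset _ _)).add (hE.smul (v o))
      have p0 : φ i0 = 0 := hφ.1 i0 (Finset.notMem_erase _ _)
      obtain ⟨ψ, h1, h2, h3⟩ := hu _ hφ'
      have h4 := h3 o ho (by rw [hφ'.dot_jump hi0 hj, w0]; simp [p0, hne.symm])
      rw [h1.dot_jump hi0 hj, mul_one] at h4
      have h5 := h1.sub (hE.smul (u o))
      refine ⟨ψ - u o • (Pi.single i0 1 - Pi.single i1 1), ⟨fun i hi => ?_, h5.2⟩,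
        fun i hi k => ?_, fun e he k => ?_⟩
      · by_cases k : i = i0
        · subst k
          simp [h4, hne.symm]
        · exact h5.1 i fun k' => hi (Finset.mem_erase.2 ⟨k, k'⟩)
      · obtain ⟨k1, k2⟩ := Finset.mem_erase.1 hi
        have k0 := (Finset.mem_erase.1 k2).1
        have := h2 i k2 (by simp [k, k0, k1])
        simp [this, k0, k1]
      · by_cases k' : e = o
        · subst k'
          rw [Function.update_self, dotProduct_single, mul_one] at k ⊢
          have := h2 i1 (Finset.mem_erase.2 ⟨hne, hi1⟩) (by simp [k, hne])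
          simp [this, hne]
        · rw [Function.update_of_ne k'] at k ⊢
          have := h3 e he (by
            rw [add_dotProduct, smul_dotProduct, edge_dot, k, w1 e k', smul_eq_mul])
          rw [sub_dotProduct, smul_dotProduct, edge_dot, this, smul_eq_mul]
          exact (if_neg k').symm
    obtain ⟨σ, hσ⟩ := hP _ hL
    have h0 : u o = σ * v o := by simpa using hσ o ho
    refine ⟨σ, fun e he => ?_⟩
    by_cases k : e = o
    · rw [k, w0, h0]
    · have h1 : u e - u o * (a e i0 - a e i1) = σ * v e := by simpa [k] using hσ e he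
      rw [w1 e k]
      linear_combination h1 + (a e i0 - a e i1) * h0
  · by_cases k : e = o
    · subst k
      rw [Function.update_self]
      refine Submodule.sub_mem _ (hξ e he) (Submodule.sum_mem _ fun f hf => ?_)
      have hf' := Finset.mem_of_mem_erase hf
      exact Fp.mul_mem (Fp.sub ((hX f hf').2 _) ((hX f hf').2 _)) ((hX f hf').1 (hξ f hf'))
    · rw [Function.update_of_ne k]
      exact hξ e he
  · have h1 : ∑ e ∈ S.erase o, w e * (z e + Function.update ξ o
          (ξ o - ∑ e ∈ S.erase o, (a e i0 - a e i1) * ξ e) e) =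
        ∑ e ∈ S.erase o, v e * (Function.update z o
          (z o + ∑ e ∈ S.erase o, (a e i0 - a e i1) * z e) e + ξ e) +
          v o * ∑ e ∈ S.erase o, (a e i0 - a e i1) * z e +
          v o * ∑ e ∈ S.erase o, (a e i0 - a e i1) * ξ e := by
      rw [Finset.mul_sum, Finset.mul_sum, ← Finset.sum_add_distrib, ← Finset.sum_add_distrib]
      refine Finset.sum_congr rfl fun e he => ?_
      have k := (Finset.mem_erase.1 he).1
      rw [w1 e k, Function.update_of_ne k, Function.update_of_ne k]
      ring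
    rw [← Finset.add_sum_erase _ _ ho, Function.update_self] at hs
    rw [← Finset.add_sum_erase _ _ ho, Function.update_self, h1, w0]
    linear_combination hs

omit [Fintype F] [Fintype ι] [DecidableEq ι] in
lemma nc_of_jump {i : ι} {b : ι → F} {s : F} (h : Jump O i b s) (hi : i ∈ O) (h2 : 2 ≤ O.card) :
    NC O b := by
  obtain ⟨l, hl, hne⟩ := Finset.exists_mem_ne h2 i
  exact ⟨i, hi, l, hl, fun e => h.1 (by rw [← h.2 l hl hne, e, sub_self])⟩

end ATL

open ATL

theorem atl (hB : BASE p F) (hF : FL p F) (hH : HEAVY p F) : ATL p F := by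
  intro ι E _ _ _ O An S a z X r j0 Y
  induction n : O.card + finrank (ZMod p) Y using Nat.strong_induction_on
    generalizing O An S Y with
  | _ n ih =>
  intro hA hI hj hO hp hc
  have hO2 : 2 ≤ O.card := by omega
  have hne : O.Nonempty := Finset.card_pos.1 (by omega)
  by_cases h0 : O.card = j0 + 1
  · have hc' : (finrank (ZMod p) Y - r) * (p - 1) < S.card := by omega
    rcases hj with rfl | ⟨rfl, h1, h2⟩
    · exact hB ι E O An S a z X r Y h0 (hA.al hne) hI hc'
    · exact hF ι E O An S a z X r Y h0 hA hI h1 h2 hc'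
  have hp5 : 5 ≤ p := hp.resolve_right h0
  have hj' : ∀ S' ⊆ S, j0 = 1 ∨ (j0 = 2 ∧ (∀ e ∈ S', ∀ i, a e i ∈ Fp p) ∧
      ∀ e ∈ S', ∀ e' ∈ S', X e = X e') := fun S' hS => hj.imp id fun k =>
    ⟨k.1, fun e he => k.2.1 e (hS he), fun e he e' he' => k.2.2 e (hS he) e' (hS he')⟩
  obtain ⟨e0, he0⟩ : S.Nonempty := Finset.card_pos.1 (by omega)
  by_cases h1 : NoA O S a z X r Y; swap
  · simp only [NoA, not_forall, not_lt] at h1
    obtain ⟨Y', hY, hr, hD⟩ := h1
    set D := DD S (fun e => Yh O (a e) (z e) (X e)) Y' with hDd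
    have hlt := Submodule.finrank_lt_finrank_of_lt hY
    obtain ⟨An', k1, k2⟩ := anc_drop (z := z) (X := X) hA hne subset_rfl
      (Finset.sdiff_subset (t := D)) fun _ _ i hi _ => hi
    refine k2 (ih _ (by omega) O An' (S \ D) Y' rfl k1 (items_drop hI subset_rfl
      Finset.sdiff_subset fun e he => ?_) (hj' _ Finset.sdiff_subset) hO hp ?_)
    · obtain ⟨k3, k4⟩ := Finset.mem_sdiff.1 he
      exact ⟨(hI e k3).1, by_contra fun k => k4 (mem_DD.2 ⟨k3, k⟩)⟩
    · have := Finset.le_card_sdiff D S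
      rw [split hr hlt.le] at hc
      omega
  by_cases h2 : NoB O S a z X r Y; swap
  · simp only [NoB, not_forall, not_lt] at h2
    obtain ⟨i, hi, Y', hY, hr, D, hD, hD'⟩ := h2
    have hle := Submodule.finrank_mono hY
    have hcard := Finset.card_erase_of_mem hi
    have k0 : ∀ e ∈ S \ D, ¬Cls O i (a e) ∧ Yh O (a e) (z e) (X e) ≤ Y' := fun e he => by
      obtain ⟨k3, k4⟩ := Finset.mem_sdiff.1 he
      exact ⟨fun k => k4 (hD e k3 (Or.inr k)), by_contra fun k => k4 (hD e k3 (Or.inl k))⟩
    obtain ⟨An', k1, k2⟩ := anc_drop (z := z) (X := X) hA hne (Finset.erase_subset i O)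
      (Finset.sdiff_subset (t := D)) fun e he l hl k =>
        Finset.mem_erase.2 ⟨fun e' => (k0 e he).1 (e' ▸ k), hl⟩
    refine k2 (ih _ (by omega) (O.erase i) An' (S \ D) Y' rfl k1 (items_drop hI
      (Finset.erase_subset i O) Finset.sdiff_subset fun e he =>
        ⟨(hI e (Finset.sdiff_subset he)).1.erase (k0 e he).1, (k0 e he).2⟩)
      (hj' _ Finset.sdiff_subset) (by omega) (Or.inl hp5) ?_)
    have := Finset.le_card_sdiff D S
    rw [split hr hle, show O.card - 1 - j0 = (O.erase i).card - 1 - j0 + 1 by omega, add_mul,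
      one_mul] at hc
    omega
  exact hH hp5 ι E O An S a z X r Y (by omega) (hA.al hne) hI
    (hI.rank_le he0 (hI e0 he0).2.2) h1 h2

theorem atl3 (hB : BASE p F) (hH : HEAVY3 p F) : ATL3 p F := by
  intro hp ι E _ _ _ O S a z X r Y
  induction n : O.card + finrank (ZMod p) Y using Nat.strong_induction_on
    generalizing O S Y with
  | _ n ih =>
  intro hO hI hc
  have hne : O.Nonempty := Finset.card_pos.1 (by omega)
  have hp2 : p - 1 = 2 := by omega
  by_cases h0 : O.card = 2
  · exact hB ι E O O S a z X r Y h0 (al_self hne) hI (by rw [hp2]; omega)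
  by_cases h1 : NoA O S a z X r Y; swap
  · simp only [NoA, not_forall, not_lt] at h1
    obtain ⟨Y', hY, hr, hD⟩ := h1
    set D := DD S (fun e => Yh O (a e) (z e) (X e)) Y' with hDd
    have hlt := Submodule.finrank_lt_finrank_of_lt hY
    refine Good.ext (al_self hne) (ih _ (by omega) O (S \ D) Y' rfl hO (items_drop hI subset_rfl
      Finset.sdiff_subset fun e he => ?_) ?_) Finset.sdiff_subset subset_rfl subset_rfl
      (Or.inl fun i hi _ => hi)
    · obtain ⟨k3, k4⟩ := Finset.mem_sdiff.1 he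
      exact ⟨(hI e k3).1, by_contra fun k => k4 (mem_DD.2 ⟨k3, k⟩)⟩
    · have := Finset.le_card_sdiff D S
      rw [hp2] at hD
      omega
  by_cases h2 : ∀ i ∈ O, ∃ f ∈ S, Cls O i (a f); swap
  · simp only [not_forall, not_exists, not_and] at h2
    obtain ⟨i, hi, h2⟩ := h2
    have hcard := Finset.card_erase_of_mem hi
    exact Good.ext (al_self hne) (ih _ (by omega) (O.erase i) S Y rfl (by omega)
      (items_drop hI (Finset.erase_subset i O) subset_rfl fun e he =>
        ⟨(hI e he).1.erase (h2 e he), (hI e he).2.2⟩) hc) subset_rfl (Finset.erase_subset i O)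
      (Finset.erase_subset i O) (Or.inl fun i hi _ => hi)
  exact hH hp ι E O S a z X r Y (by omega) hI h1 h2 hc

theorem utr3 (hB : BASE p F) (hA : ATL3 p F) (h3 : UH3 p F) (h4 : UH4 p F) : UTR3 p F := by
  intro hp ι E _ _ _ O i0 S o a z X r Y
  induction n : O.card + finrank (ZMod p) Y using Nat.strong_induction_on
    generalizing O i0 S a z X Y with
  | _ n ih =>
  intro hO hF hI hc
  have hp2 : p - 1 = 2 := by omega
  by_cases h0 : O.card = 2
  · exact hB ι E O _ S a z X r Y h0 (al_erase O i0) hI (by rw [hp2]; omega)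
  obtain ⟨hi0, ho, hj, hX⟩ := id hF
  have rat : ∀ e ∈ S, ∀ {w : F} {W Y' : Submodule (ZMod p) F},
      Yh O (a e) w W ≤ Y' ↔ w ∈ Y' ∧ W ≤ Y' := fun e he => Yh_le_rat (hI e he).1 (hX e he).2
  by_cases h1 : NoM O i0 S o a z X r Y; swap
  · simp only [NoM, not_forall] at h1
    obtain ⟨Y', hY, hr, D, hD, hD', h1⟩ := h1
    have hlt := Submodule.finrank_lt_finrank_of_lt hY
    have hr' : r ≤ finrank (ZMod p) Y' := hr.trans (Submodule.finrank_mono inf_le_right)
    have k0 : ∀ e ∈ S, e ≠ o → e ∉ D → Yh O (a e) (z e) (X e) ≤ Y' := fun e he k k' =>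
      by_contra fun k'' => k' (hD' e (Finset.mem_erase.2 ⟨k, he⟩) k'')
    by_cases h2 : 2 * (finrank (ZMod p) Y - finrank (ZMod p) Y') ≤ D.card
    · simp only [h2, true_and, not_forall, not_not] at h1
      obtain ⟨h5, c, hcO, hζ⟩ := h1
      have hoD : o ∉ D := fun k => (Finset.mem_erase.1 (hD k)).1 rfl
      refine merge (Y' := Y') hi0 ho hj hD hcO (ih _ (by omega) O i0 (S \ D) a _ _ Y' rfl hO
        ⟨hi0, Finset.mem_sdiff.2 ⟨ho, hoD⟩, hj, fun e he => ?_⟩ (fun e he => ?_) ?_)
      · obtain ⟨k3, k4⟩ := Finset.mem_sdiff.1 he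
        refine ⟨?_, (hX e k3).2⟩
        by_cases k : e = o
        · rw [k]
        · rw [Function.update_of_ne k, Function.update_self]
          exact le_inf (hX e k3).1 ((rat e k3).1 (k0 e k3 k k4)).2
      · obtain ⟨k3, k4⟩ := Finset.mem_sdiff.1 he
        refine ⟨(hI e k3).1, ?_⟩
        by_cases k : e = o
        · subst k
          rw [Function.update_self, Function.update_self]
          exact ⟨hr, (rat e k3).2 ⟨hζ, inf_le_right⟩⟩
        · rw [Function.update_of_ne k, Function.update_of_ne k]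
          exact ⟨(hI e k3).2.1, k0 e k3 k k4⟩
      · have := Finset.le_card_sdiff D S
        omega
    · have hsub : S.erase o \ D ⊆ S := Finset.sdiff_subset.trans (Finset.erase_subset _ _)
      refine Good.ext (al_erase O i0) (hA hp ι E O (S.erase o \ D) a z X r Y' hO
        (items_drop hI subset_rfl hsub fun e he => ?_) ?_) hsub subset_rfl subset_rfl
        (Or.inr ⟨i0, hi0, o, ho, fun k => (Finset.mem_erase.1 (Finset.sdiff_subset k)).1 rfl,
          ⟨1, hj⟩, fun l hl e => Finset.mem_erase.2 ⟨e, hl⟩⟩)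
      · obtain ⟨k3, k4⟩ := Finset.mem_sdiff.1 he
        obtain ⟨k5, k6⟩ := Finset.mem_erase.1 k3
        exact ⟨(hI e k6).1, k0 e k6 k5 k4⟩
      · have := Finset.le_card_sdiff D (S.erase o)
        have := Finset.card_erase_of_mem ho
        omega
  by_cases h2 : ∀ i ∈ O, ∃ f ∈ S.erase o, Cls O i (a f); swap
  · simp only [not_forall, not_exists, not_and] at h2
    obtain ⟨i, hi, h2⟩ := h2
    have hcard := Finset.card_erase_of_mem hi
    have hsub := Finset.erase_subset i O
    have k0 : ∀ e ∈ S, e ≠ o → NC (O.erase i) (a e) := fun e he k =>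
      (hI e he).1.erase (h2 e (Finset.mem_erase.2 ⟨k, he⟩))
    by_cases k : i = i0
    · subst k
      obtain ⟨i1, hi1⟩ : (O.erase i).Nonempty := Finset.card_pos.1 (by omega)
      obtain ⟨hne, hi1'⟩ := Finset.mem_erase.1 hi1
      have hj' : Jump (O.erase i) i1 (Pi.single i1 1 : ι → F) 1 :=
        ⟨one_ne_zero, fun l _ e => by simp [e]⟩
      have hfp : ∀ l, (Pi.single i1 1 : ι → F) l ∈ Fp (F := F) p := fun l => by
        by_cases e : l = i1
        · rw [e, Pi.single_eq_same]
          exact Fp.one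
        · rw [Pi.single_eq_of_ne e]
          exact Fp.zero
      refine reanchor hF hi1' hne (ih _ (by omega) (O.erase i) i1 S _ _ X Y rfl (by omega)
        ⟨hi1, ho, by rwa [Function.update_self], fun e he => ⟨(hX e he).1, ?_⟩⟩
        (fun e he => ?_) hc)
      · by_cases k : e = o
        · rw [k, Function.update_self]
          exact hfp
        · rw [Function.update_of_ne k]
          exact (hX e he).2
      · by_cases k : e = o
        · subst k
          rw [Function.update_self, Function.update_self]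
          have hn := nc_of_jump hj' hi1 (by omega)
          obtain ⟨k1, k2⟩ := (rat e he).1 (hI e he).2.2
          refine ⟨hn, (hI e he).2.1, (Yh_le_rat hn hfp).2 ⟨Y.add_mem k1
            (Y.sum_mem fun f hf => ?_), k2⟩⟩
          exact (hI f (Finset.mem_of_mem_erase hf)).2.2 (z_mem_Yh hi hi1' _)
        · rw [Function.update_of_ne k, Function.update_of_ne k]
          exact ⟨k0 e he k, (hI e he).2.1, (Yh_mono hsub _).trans (hI e he).2.2⟩
    · have hi0' : i0 ∈ O.erase i := Finset.mem_erase.2 ⟨Ne.symm k, hi0⟩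
      refine Good.ext (al_erase O i0) (ih _ (by omega) (O.erase i) i0 S a z X Y rfl (by omega)
        ⟨hi0', ho, hj.mono hsub, hX⟩ (items_drop hI hsub subset_rfl fun e he =>
          ⟨?_, (hI e he).2.2⟩) hc) subset_rfl hsub ((Finset.erase_subset _ _).trans hsub)
        (Or.inl fun l hl e => Finset.mem_erase.2 ⟨?_, hl⟩)
      · by_cases k' : e = o
        · rw [k']
          exact nc_of_jump (hj.mono hsub) hi0' (by omega)
        · exact k0 e he k'
      · rcases e with e | e
        · exact (Finset.mem_erase.1 e).1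
        · exact fun e' => e (e' ▸ hi0')
  by_cases h5 : O.card = 3
  · exact h3 hp ι E O i0 S o a z X r Y h5 hF hI h1 h2 hc
  · exact h4 hp ι E O i0 S o a z X r Y (by omega) hF hI h1 h2

end Pool.Agent.MP_d99b12_co.H57
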