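import Pool.Agent.MP_d99b12_co.H57.Basic

/-! # A pattern that is not rational makes the lattices big (MP_d99b12_co). -/

namespace Pool.Agent.MP_d99b12_co.H57

open Matrix Module

variable {p : ℕ} [Fact p.Prime] {F : Type} [Field F] [Algebra (ZMod p) F] {ι J : Type}

namespace Big

/-- In a small lattice that spans, proportional vectors have a rational ratio. -/
lemma small [Fintype J] [Finite F] {Λ : Submodule (ZMod p) (J → F)}
    (h : Submodule.span F (Λ : Set (J → F)) = ⊤) (hs : finrank (ZMod p) Λ ≤ Fintype.card J)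
    {u : J → F} {l : F} (hu : u ∈ Λ) (h0 : u ≠ 0) (hl : l • u ∈ Λ) : l ∈ Fp (F := F) p := by
  let B := Module.finBasis (ZMod p) Λ
  have hr : ∀ x (hx : x ∈ Λ),
      x = ∑ i, algebraMap (ZMod p) F (B.repr ⟨x, hx⟩ i) • (B i : J → F) := fun x hx => by
    have := congrArg Subtype.val (B.sum_repr ⟨x, hx⟩)
    simp only [AddSubmonoidClass.coe_finsetSum, SetLike.val_smul] at this
    simp only [algebraMap_smul]
    exact this.symm
  have h1 : ⊤ ≤ Submodule.span F (Set.range fun i => (B i : J → F)) := by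
    refine h ▸ Submodule.span_le.2 fun x hx => ?_
    rw [hr x hx]
    exact Submodule.sum_mem _ fun i _ => Submodule.smul_mem _ _ (Submodule.subset_span ⟨i, rfl⟩)
  have h2 : LinearIndependent F fun i => (B i : J → F) :=
    linearIndependent_of_top_le_span_of_card_eq_finrank h1 (by
      rw [finrank_fintype_fun_eq_card, Fintype.card_fin]
      exact le_antisymm hs (card_le_of_span h))
  have h3 := Fintype.linearIndependent_iff.1 h2 (fun i =>
    l * algebraMap (ZMod p) F (B.repr ⟨u, hu⟩ i) - algebraMap (ZMod p) F (B.repr ⟨_, hl⟩ i)) (by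
      simp only [sub_smul, mul_smul, Finset.sum_sub_distrib]
      rw [← Finset.smul_sum, ← hr u hu, ← hr _ hl, sub_self])
  obtain ⟨i, hi⟩ : ∃ i, algebraMap (ZMod p) F (B.repr ⟨u, hu⟩ i) ≠ 0 := by
    by_contra k
    push Not at k
    exact h0 ((hr u hu).trans (by simp [k]))
  have h4 : l = algebraMap (ZMod p) F (B.repr ⟨_, hl⟩ i) *
      (algebraMap (ZMod p) F (B.repr ⟨u, hu⟩ i))⁻¹ := by
    rw [← sub_eq_zero.1 (h3 i), mul_inv_cancel_right₀ hi]
  rw [h4]
  exact Fp.mul ⟨_, rfl⟩ (Fp.inv ⟨_, rfl⟩)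

/-- A bad triple. -/
lemma triple [Fintype ι] {b c : ι → F} (hc : NC Finset.univ c) (hb : ¬Rat p b) :
    ∃ x y w, c x ≠ c y ∧ c x ≠ c w ∧ b x ≠ b y ∧
      ∀ t ∈ Fp (F := F) p, b w - b x ≠ t * (b y - b x) := by
  by_contra k
  push Not at k
  refine hb ?_
  have key : ∀ x0 sc, (∀ w, ∃ t ∈ Fp (F := F) p, b w - b x0 = t * sc) → Rat p b :=
    fun x0 sc h => ⟨sc, fun i i' => by
      obtain ⟨t, ht, e⟩ := h i
      obtain ⟨t', ht', e'⟩ := h i'
      exact ⟨t - t', Fp.sub ht ht', by linear_combination e - e'⟩⟩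
  by_cases h : ∃ x y, c x ≠ c y ∧ b x ≠ b y
  · obtain ⟨x, y, h1, h2⟩ := h
    refine key x (b y - b x) fun w => ?_
    by_cases e : c x = c w
    · obtain ⟨t, ht, e'⟩ := k y x w h1.symm (e ▸ h1.symm) h2.symm
      exact ⟨1 - t, Fp.sub Fp.one ht, by linear_combination e'⟩
    · exact k x y w h1 e h2
  · push Not at h
    obtain ⟨x, -, y, -, h1⟩ := hc
    refine key x 0 fun w => ⟨0, Fp.zero, ?_⟩
    by_cases e : c x = c w
    · rw [h x y h1, h y w (e ▸ h1.symm)]
      simp
    · rw [h x w e]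
      simp

end Big

open Big in
theorem big [Fintype F] : BIG p F := by
  intro ι J _ _ _ ξ b c Λ hΛ hc hb h1 h2 h3
  by_contra hs
  have hs' : finrank (ZMod p) Λ ≤ Fintype.card J := by omega
  have main : ∀ x y w (l : F), c x ≠ c y → c x ≠ c w → y ≠ w →
      (1 - l) • (c y - c x)⁻¹ • ξ (Pi.single y 1 - Pi.single x 1) +
        l • (c w - c x)⁻¹ • ξ (Pi.single w 1 - Pi.single x 1) ∈ Λ → l ∈ Fp (F := F) p := by
    intro x y w l hy hw hyw hl
    have g1 := h1 x y hy
    have g2 := h1 x w hw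
    have hyx : y ≠ x := fun e => hy (by rw [e])
    refine small hΛ hs' (Λ.sub_mem g2 g1) (fun e => ?_) (by
      convert Λ.sub_mem hl g1 using 1
      module)
    refine h3 x y w ((c w - c x)⁻¹ • (Pi.single w 1 - Pi.single x 1) -
      (c y - c x)⁻¹ • (Pi.single y 1 - Pi.single x 1))
      (((isN_edge (by simp) (by simp)).smul _).sub ((isN_edge (by simp) (by simp)).smul _))
      (fun e' => ?_) ⟨x, by simp, y, by simp, hy⟩ (by rw [map_sub, map_smul, map_smul, e]) ?_
    · have := congrFun e' y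
      simp [Pi.single_eq_of_ne hyw, Pi.single_eq_of_ne hyx, sub_ne_zero.2 hy.symm] at this
    · rw [sub_dotProduct, smul_dotProduct, smul_dotProduct, edge_dot, edge_dot, smul_eq_mul,
        smul_eq_mul, inv_mul_cancel₀ (sub_ne_zero.2 hw.symm),
        inv_mul_cancel₀ (sub_ne_zero.2 hy.symm), sub_self]
  by_cases hr : Rat p c
  · obtain ⟨x, y, w, hy, hw, hxy, hbad⟩ := triple hc hb
    obtain ⟨sc, hsc⟩ := hr
    obtain ⟨s, hs1, e1⟩ := hsc y x
    obtain ⟨t, ht1, e2⟩ := hsc w x
    have hA : c y - c x ≠ 0 := sub_ne_zero.2 hy.symm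
    have hB : c w - c x ≠ 0 := sub_ne_zero.2 hw.symm
    have hP : b y - b x ≠ 0 := sub_ne_zero.2 hxy.symm
    have hs0 : s ≠ 0 := fun e => hA (by rw [e1, e, zero_mul])
    have ht0 : t ≠ 0 := fun e => hB (by rw [e2, e, zero_mul])
    have hsc0 : sc ≠ 0 := fun e => hA (by rw [e1, e, mul_zero])
    have hyw : y ≠ w := fun e => hbad 1 Fp.one (by rw [e, one_mul])
    have hd : ((b y - b x) • (Pi.single w 1 - Pi.single x 1 : ι → F) -
        (b w - b x) • (Pi.single y 1 - Pi.single x 1 : ι → F)) ⬝ᵥ c =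
        (b y - b x) * (c w - c x) - (b w - b x) * (c y - c x) := by
      rw [sub_dotProduct, smul_dotProduct, smul_dotProduct, edge_dot, edge_dot, smul_eq_mul,
        smul_eq_mul]
    have hD : (b y - b x) * (c w - c x) - (b w - b x) * (c y - c x) ≠ 0 := fun e =>
      hbad (t * s⁻¹) (Fp.mul ht1 (Fp.inv hs1)) (by
        rw [e1, e2] at e
        field_simp
        exact mul_right_cancel₀ hsc0 (by linear_combination -e))
    have h4 := h2 x y w _ hxy
      (((isN_edge (by simp) (by simp)).smul (b y - b x)).sub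
        ((isN_edge (by simp) (by simp)).smul (b w - b x))) (by
        rw [sub_dotProduct, smul_dotProduct, smul_dotProduct, edge_dot, edge_dot, smul_eq_mul,
          smul_eq_mul]
        ring) (hd ▸ hD)
    rw [hd, map_sub, map_smul, map_smul] at h4
    have h5 := main x y w ((b y - b x) * (c w - c x) /
      ((b y - b x) * (c w - c x) - (b w - b x) * (c y - c x))) hy hw hyw (by
        convert h4 using 1
        match_scalars <;> field_simp <;> ring)
    generalize hl : (b y - b x) * (c w - c x) /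
      ((b y - b x) * (c w - c x) - (b w - b x) * (c y - c x)) = l at h5
    rw [div_eq_iff hD] at hl
    have hl0 : l ≠ 0 := fun e => mul_ne_zero hP hB (by rw [hl, e, zero_mul])
    refine hbad ((l - 1) * l⁻¹ * (t * s⁻¹))
      (Fp.mul (Fp.mul (Fp.sub h5 Fp.one) (Fp.inv h5)) (Fp.mul ht1 (Fp.inv hs1))) ?_
    rw [e1, e2] at hl
    field_simp
    exact mul_right_cancel₀ hsc0 (by linear_combination hl)
  · obtain ⟨x, y, w, hy, hw, -, hbad⟩ := triple hc hr
    have hA : c y - c x ≠ 0 := sub_ne_zero.2 hy.symm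
    have hB : c w - c x ≠ 0 := sub_ne_zero.2 hw.symm
    have hyw : c y ≠ c w := fun e => hbad 1 Fp.one (by rw [e, one_mul])
    have hD : c w - c y ≠ 0 := sub_ne_zero.2 hyw.symm
    have h4 := h1 y w hyw
    rw [show (Pi.single w 1 - Pi.single y 1 : ι → F) = (Pi.single w 1 - Pi.single x 1) -
      (Pi.single y 1 - Pi.single x 1) by abel, map_sub] at h4
    have h5 := main x y w ((c w - c x) / (c w - c y)) hy hw (fun e => hyw (by rw [e])) (by
      convert h4 using 1
      match_scalars <;> field_simp <;> ring)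
    generalize hl : (c w - c x) / (c w - c y) = l at h5
    rw [div_eq_iff hD] at hl
    have hl1 : l - 1 ≠ 0 := fun e => hA (by
      rw [sub_eq_zero.1 e] at hl
      linear_combination hl)
    refine hbad (l * (l - 1)⁻¹) (Fp.mul h5 (Fp.inv (Fp.sub h5 Fp.one))) ?_
    field_simp
    linear_combination -hl

end Pool.Agent.MP_d99b12_co.H57
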