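import Pool.Agent.MP_d99b12_co.H57.Basic

/-! # The rigid frame and the closing step (MP_d99b12_co) -/

namespace Pool.Agent.MP_d99b12_co.H57

open Matrix Module

variable {p : ℕ} [Fact p.Prime] {F : Type} [Field F] [Algebra (ZMod p) F]

namespace Close

lemma nat_mem (n : ℕ) : (n : F) ∈ Fp (F := F) p := ⟨n, map_natCast _ _⟩

lemma two_mem : (2 : F) ∈ Fp (F := F) p := by exact_mod_cast nat_mem (p := p) (F := F) 2

lemma nat_ne {n : ℕ} (h0 : 0 < n) (h : n < p) : (n : F) ≠ 0 := by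
  have : CharP F p := charP_of_injective_algebraMap (algebraMap (ZMod p) F).injective p
  exact fun e => (Nat.le_of_dvd h0 ((CharP.cast_eq_zero_iff F p n).1 e)).not_gt h

lemma neg_ne (hp : p ≠ 2) : (-1 : F) ≠ 1 := fun e => two_ne (F := F) hp (by linear_combination -e)

/-- A function that is invariant under the steps of length two is constant off `1`. -/
lemma chain (hp : p ≠ 2) {g : F → F}
    (h : ∀ y ∈ Fp (F := F) p, y ≠ 1 → y ≠ -1 → g (y + 2) = g y) :
    ∀ y ∈ Fp (F := F) p, y ≠ 1 → g y = g 3 := by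
  have h2 := two_ne (F := F) hp
  have key : ∀ n : ℕ, 1 ≤ n → n < p → g (1 + 2 * n) = g 3 := by
    intro n h1
    induction n, h1 using Nat.le_induction with
    | base => intro _; norm_num
    | succ n h1 ih =>
      intro hn
      rw [← ih (by omega), ← h (1 + 2 * n) (Fp.add Fp.one (Fp.mul two_mem (nat_mem n)))]
      · congr 1
        push_cast
        ring
      · exact fun e => mul_ne_zero h2 (nat_ne (p := p) h1 (by omega)) (by linear_combination e)
      · refine fun e => mul_ne_zero h2 (nat_ne (p := p) (Nat.succ_pos n) hn) ?_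
        push_cast
        linear_combination e
  intro y hy h1
  obtain ⟨d, hd⟩ := Fp.mul (Fp.sub hy Fp.one) (Fp.inv two_mem)
  have e : ((d.val : ℕ) : F) = (y - 1) * 2⁻¹ := by
    rw [← hd, ← map_natCast (algebraMap (ZMod p) F), ZMod.natCast_zmod_val]
  have e' : y = 1 + 2 * (d.val : ℕ) := by
    rw [e]
    field_simp
    ring
  rw [e']
  refine key _ (Nat.pos_of_ne_zero fun k => h1 ?_) (ZMod.val_lt d)
  rw [e', k]
  simp

variable {ι : Type} {i1 i2 i3 i : ι} {τ : F}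

lemma v_zero : (0 : F) ∈ V3 p i1 i2 i3 i := Or.inl rfl

lemma v_one (h : τ ∈ Fp (F := F) p) (h' : τ ≠ 1) : τ ∈ V3 p i1 i2 i3 i1 :=
  Or.inr (Or.inl ⟨Or.inl rfl, h, h'⟩)

lemma v_two (h : τ ∈ Fp (F := F) p) (h' : τ ≠ 1) : τ ∈ V3 p i1 i2 i3 i2 :=
  Or.inr (Or.inl ⟨Or.inr rfl, h, h'⟩)

lemma v_three : (-2 : F) ∈ V3 p i1 i2 i3 i3 := Or.inr (Or.inr ⟨rfl, rfl⟩)

variable [Fintype ι] [DecidableEq ι] {O : Finset ι}

/-- A multiple of an edge. -/
lemma cap_edge {V : ι → Set F} (h0 : ∀ l, 0 ∈ V l) {m : ι} (hi : i ∈ O) (hm : m ∈ O)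
    (hτ : τ ∈ V i) : Cap O V (τ • (Pi.single i 1 - Pi.single m 1 : ι → F)) := by
  refine ⟨(isN_edge hi hm).smul τ, m, fun l _ k => ?_⟩
  by_cases e : l = i
  · subst e
    simpa [k] using hτ
  · simpa [k, e] using h0 l

/-- The points of a line. -/
lemma cap_line (hp : p ≠ 2) (h1 : i1 ∈ O) (h2 : i2 ∈ O) (h12 : i1 ≠ i2) (hi : i ∈ O)
    (ht : τ ∈ Fp (F := F) p) : Cap O (V3 p i1 i2 i3) ((Pi.single i 1 - Pi.single i2 1 : ι → F) +
      τ • (Pi.single i1 1 - Pi.single i 1 : ι → F)) := by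
  refine ⟨(isN_edge hi h2).add ((isN_edge h1 hi).smul τ), ?_⟩
  have hm : (-1 : F) ∈ V3 p i1 i2 i3 i2 := v_two (Fp.neg Fp.one) (neg_ne hp)
  by_cases k : τ = 1
  · refine ⟨i1, fun l _ e => ?_⟩
    by_cases e' : l = i2
    · subst e'
      convert hm using 1
      simp [k, e]
      ring
    · simpa [k, e, e'] using v_zero
  · refine ⟨i, fun l _ e => ?_⟩
    by_cases e' : l = i2
    · subst e'
      simpa [e, h12.symm] using hm
    · by_cases e'' : l = i1
      · subst e''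
        simpa [e, e'] using v_one ht k
      · simpa [e, e', e''] using v_zero

end Close

open Close

theorem rig : RIG p F := by
  classical
  intro hp ι _ O i1 i2 i3 h1 h2 h3 h12 h13 h23 α h0 hα
  have tri : ∀ x ∈ V3 (F := F) p i1 i2 i3 i1, ∀ y ∈ V3 (F := F) p i1 i2 i3 i2,
      ∀ w ∈ V3 (F := F) p i1 i2 i3 i3, x + y + w = 0 → α i1 x + α i2 y + α i3 w = 0 := by
    intro x hx y hy w hw e
    have k := hα (Pi.single i1 x + Pi.single i2 y + Pi.single i3 w) ⟨fun l hl => ?_, ?_⟩ ?_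
    · rw [← Finset.sum_subset (s₁ := {i1, i2, i3})] at k
      · simpa [h12, h13, h23, h12.symm, h13.symm, h23.symm, add_assoc] using k
      · simp [Finset.insert_subset_iff, h1, h2, h3]
      · intro l _ hl
        simp only [Finset.mem_insert, Finset.mem_singleton, not_or] at hl
        simp [hl, h0]
    · have a : l ≠ i1 := fun e => hl (e ▸ h1)
      have b : l ≠ i2 := fun e => hl (e ▸ h2)
      have c : l ≠ i3 := fun e => hl (e ▸ h3)
      simp [a, b, c]
    · simpa [Finset.sum_add_distrib] using e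
    · intro l _
      by_cases a : l = i1
      · subst a
        simpa [h12, h13] using hx
      by_cases b : l = i2
      · subst b
        simpa [a, h23] using hy
      by_cases c : l = i3
      · subst c
        simpa [a, b] using hw
      simpa [a, b, c] using v_zero
  have h2' := two_ne (F := F) hp
  obtain ⟨σ, hσ⟩ : ∃ σ, α i3 (-2) = σ * (-2) :=
    ⟨α i3 (-2) / (-2), (div_mul_cancel₀ _ (neg_ne_zero.2 h2')).symm⟩
  have r2 : ∀ x ∈ Fp (F := F) p, x ≠ 1 → α i1 x + α i2 (2 - x) = 2 * σ := fun x hx k => by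
    have := tri x (v_one hx k) (2 - x)
      (v_two (Fp.sub two_mem hx) fun e => k (by linear_combination -e)) _ v_three (by ring)
    linear_combination this - hσ
  have r3 := chain hp (g := fun x => α i1 x - σ * x) fun y hy k k' => by
    have a := tri y (v_one hy k) (-y)
      (v_two (Fp.neg hy) fun e => k' (by linear_combination -e)) _ v_zero (by ring)
    have b := r2 (y + 2) (Fp.add hy two_mem) fun e => k' (by linear_combination e)
    rw [show 2 - (y + 2) = -y by ring] at b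
    linear_combination b - a + h0 i3
  have r4 : ∀ x ∈ Fp (F := F) p, x ≠ 1 → α i1 x = σ * x := fun x hx k => by
    have a := r3 x hx k
    have b := r3 0 Fp.zero zero_ne_one
    linear_combination a - b + h0 i1
  refine ⟨σ, fun i _ τ hτ => ?_⟩
  rcases hτ with rfl | ⟨rfl | rfl, a, b⟩ | ⟨rfl, rfl⟩
  · rw [h0, mul_zero]
  · exact r4 τ a b
  · have k : 2 - τ ≠ 1 := fun e => b (by linear_combination -e)
    have c := r2 _ (Fp.sub two_mem a) k
    have d := r4 _ (Fp.sub two_mem a) k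
    rw [sub_sub_cancel] at c
    linear_combination c - d
  · exact hσ

theorem close [Fintype F] (hC : COV) : CLOSE p F := by
  intro hp ι E _ _ _ O An S A a z X i1 i2 i3 v0 Xs G h1 h2 h3 h12 h13 h23 hAl hAS hw hA hXs hXG
    hY hRC hγ
  let mv : E → Set (F × F) := fun e =>
    {m | ∃ i ∈ O, m = ((a e i - a e i2) * z e, (a e i1 - a e i) * z e) ∨
      ∃ ξ ∈ X e, m = ((a e i - a e i1) * z e, (a e i1 - a e i) * ξ)}
  obtain ⟨w, hw1, hw2⟩ := hC (ZMod p) F E (S \ A) mv (fun e => Yh O (a e) (z e) (X e)) Xs G hXG hY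
    (fun e _ => Yh_le.2 fun i hi i' hi' => ⟨by
      rw [show (a e i - a e i') * z e = (a e i1 - a e i') * z e - (a e i1 - a e i) * z e by ring]
      exact Submodule.sub_mem _ (Submodule.subset_span ⟨_, ⟨i', hi', Or.inl rfl⟩, rfl⟩)
        (Submodule.subset_span ⟨_, ⟨i, hi, Or.inl rfl⟩, rfl⟩), fun x hx => by
      rw [show (a e i - a e i') * x = (a e i1 - a e i') * x - (a e i1 - a e i) * x by ring]
      exact Submodule.sub_mem _ (Submodule.subset_span ⟨_, ⟨i', hi', Or.inr ⟨x, hx, rfl⟩⟩, rfl⟩)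
        (Submodule.subset_span ⟨_, ⟨i, hi, Or.inr ⟨x, hx, rfl⟩⟩, rfl⟩)⟩)
    (by
      rintro e - m ⟨i, hi, rfl | ⟨x, hx, rfl⟩⟩
      exacts [⟨z_mem_Yh hi h2 _, z_mem_Yh h1 hi _⟩, ⟨z_mem_Yh hi h1 _, x_mem_Yh h1 hi _ hx⟩])
    hRC _ (G.neg_mem hγ)
  have key : ∀ e, ∃ v ξ : F, e ∈ S \ A → ξ ∈ X e ∧ v * (z e + ξ) = w e ∧
      (v = 0 ∨ ∃ φ, Cap O (V3 p i1 i2 i3) φ ∧ φ ⬝ᵥ a e = v) := by
    intro e
    by_cases he : e ∈ S \ A
    · rcases hw1 e he with k | ⟨m, ⟨i, hi, rfl | ⟨x, hx, rfl⟩⟩, t, k⟩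
      · exact ⟨0, 0, fun _ => ⟨zero_mem _, by rw [k, zero_mul], Or.inl rfl⟩⟩
      · refine ⟨_, 0, fun _ => ⟨zero_mem _, ?_,
          Or.inr ⟨_, cap_line hp h1 h2 h12 hi ⟨t, rfl⟩, rfl⟩⟩⟩
        rw [k, add_dotProduct, smul_dotProduct, edge_dot, edge_dot, Algebra.smul_def t,
          smul_eq_mul]
        ring
      · refine ⟨_, -(t • x), fun _ => ⟨neg_mem ((X e).smul_mem t hx), ?_, Or.inr ⟨_,
          cap_edge (fun _ => v_zero) h1 hi (v_one (Fp.neg Fp.one) (neg_ne hp)), rfl⟩⟩⟩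
        rw [k, smul_dotProduct, edge_dot, Algebra.smul_def t, Algebra.smul_def t, smul_eq_mul]
        ring
    · exact ⟨0, 0, fun k => absurd k he⟩
  choose v ξ hv using key
  obtain ⟨ξ0, hξ0, e0⟩ := hXs _ hw2
  refine ⟨fun e => if e ∈ A then v0 e else v e, ?_, pinv hAl
    (rig hp ι O i1 i2 i3 h1 h2 h3 h12 h13 h23) (fun i hi τ hτ => ?_) fun e he => ?_,
    fun e => if e ∈ A then ξ0 e else ξ e, fun e he => ?_, ?_⟩
  · rcases hw i3 h3 _ v_three with ⟨k, -⟩ | ⟨f, hf, s, hs, k⟩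
    · exact absurd (neg_eq_zero.1 k) (two_ne hp)
    · refine ⟨f, hAS hf, ?_⟩
      simp only [hf, if_true, k]
      exact mul_ne_zero (neg_ne_zero.2 (two_ne hp)) hs.1
  · refine (hw i hi τ hτ).imp_right fun ⟨f, hf, s, hs, k⟩ => ⟨f, hAS hf, s, hs, ?_⟩
    simp only [hf, if_true, k]
  · by_cases k : e ∈ A
    · obtain ⟨i, hi, τ, hτ, s, hs, k'⟩ := hA e k
      obtain ⟨m, hm, hne⟩ : ∃ m ∈ O, m ≠ i := by
        by_cases c : i1 = i
        exacts [⟨i2, h2, c ▸ h12.symm⟩, ⟨i1, h1, c⟩]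
      refine Or.inr ⟨_, cap_edge (fun _ => v_zero) hi hm hτ, ?_⟩
      rw [smul_dotProduct, edge_dot, hs.2 m hm hne, if_pos k, k', smul_eq_mul]
    · simp only [k, if_false]
      exact (hv e (Finset.mem_sdiff.2 ⟨he, k⟩)).2.2
  · by_cases k : e ∈ A
    · simpa only [k, if_true] using hξ0 e k
    · simpa only [k, if_false] using (hv e (Finset.mem_sdiff.2 ⟨he, k⟩)).1
  · rw [← Finset.sum_sdiff hAS,
      Finset.sum_congr rfl (g := w) fun e he => by
        simpa only [(Finset.mem_sdiff.1 he).2, if_false] using (hv e he).2.1,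
      Finset.sum_congr rfl (s₁ := A) (g := fun f => v0 f * z f + v0 f * ξ0 f) fun e he => by
        simp only [he, if_true, mul_add],
      Finset.sum_add_distrib, ← e0]
    ring

end Pool.Agent.MP_d99b12_co.H57
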