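import Pool.Agent.MP_d99b12_co.H57.Basic

/-! # Covering of Rado type (MP_d99b12_co). -/

namespace Pool.Agent.MP_d99b12_co.H57

open Module

namespace Cov

variable {𝕜 V E : Type} [Field 𝕜] [AddCommGroup V] [Module 𝕜 V] {S : Finset E}
  {Yh : E → Submodule 𝕜 V} {X G Y Y' : Submodule 𝕜 V}

lemma DD_subset : DD S Yh Y ⊆ S := fun _ h => (mem_DD.1 h).1

lemma DD_anti (h : Y ≤ Y') : DD S Yh Y' ⊆ DD S Yh Y := fun _ he =>
  mem_DD.2 ⟨(mem_DD.1 he).1, fun k => (mem_DD.1 he).2 (k.trans h)⟩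

lemma DD_mono {S' : Finset E} (h : S' ⊆ S) : DD S' Yh Y ⊆ DD S Yh Y := fun _ he =>
  mem_DD.2 ⟨h (mem_DD.1 he).1, (mem_DD.1 he).2⟩

lemma DD_eq_empty (h : ∀ e ∈ S, Yh e ≤ Y) : DD S Yh Y = ∅ :=
  Finset.eq_empty_of_forall_notMem fun e he => (mem_DD.1 he).2 (h e (mem_DD.1 he).1)

lemma DD_sdiff [DecidableEq E] (T : Finset E) : DD (S \ T) Yh Y = DD S Yh Y \ T := by
  ext e
  simp only [mem_DD, Finset.mem_sdiff]
  tauto

lemma DD_erase [DecidableEq E] (e : E) : DD (S.erase e) Yh Y = (DD S Yh Y).erase e := by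
  ext e'
  simp only [mem_DD, Finset.mem_erase]
  tauto

lemma DD_inf [DecidableEq E] : DD S Yh (Y ⊓ Y') = DD S Yh Y ∪ DD S Yh Y' := by
  ext e
  simp only [mem_DD, Finset.mem_union, le_inf_iff]
  tauto

lemma DD_DD (h : Y ≤ Y') : DD (DD S Yh Y) Yh Y' = DD S Yh Y' := by
  ext e
  exact ⟨fun k => DD_mono DD_subset k, fun k => mem_DD.2 ⟨DD_anti h k, (mem_DD.1 k).2⟩⟩

lemma card_DD_sdiff [DecidableEq E] (T : Finset E) :
    (DD S Yh Y).card ≤ (DD (S \ T) Yh Y).card + T.card := by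
  rw [DD_sdiff]
  exact Finset.card_le_card_sdiff_add_card

lemma card_DD_erase [DecidableEq E] (e : E) :
    (DD S Yh Y).card ≤ (DD (S.erase e) Yh Y).card + 1 := by
  rw [← Finset.sdiff_singleton_eq_erase]
  exact card_DD_sdiff {e}

/-- Tight spaces are closed under intersection. -/
lemma tight_inf [FiniteDimensional 𝕜 V] (h : RC S Yh X G) (h1 : X ≤ Y) (h2 : Y ≤ G) (h1' : X ≤ Y')
    (h2' : Y' ≤ G) (k : finrank 𝕜 G = finrank 𝕜 Y + (DD S Yh Y).card)
    (k' : finrank 𝕜 G = finrank 𝕜 Y' + (DD S Yh Y').card) :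
    finrank 𝕜 G = finrank 𝕜 ↥(Y ⊓ Y') + (DD S Yh (Y ⊓ Y')).card := by
  classical
  have e1 := h _ (le_inf h1 h1') (inf_le_left.trans h2)
  have e2 := h _ (h1.trans le_sup_left) (sup_le h2 h2')
  have e3 := Submodule.finrank_sup_add_finrank_inf_eq Y Y'
  have e4 := Finset.card_union_add_card_inter (DD S Yh Y) (DD S Yh Y')
  have e5 : (DD S Yh (Y ⊔ Y')).card ≤ (DD S Yh Y ∩ DD S Yh Y').card :=
    Finset.card_le_card (Finset.subset_inter (DD_anti le_sup_left) (DD_anti le_sup_right))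
  rw [DD_inf] at e1 ⊢
  omega

end Cov

open Cov

/-- Below a violating space the covering condition holds for the items that live in it. -/
theorem viol {𝕜 V E : Type} [Field 𝕜] [AddCommGroup V] [Module 𝕜 V] [DecidableEq E]
    {S : Finset E} {Yh : E → Submodule 𝕜 V} {X G Y1 : Submodule 𝕜 V}
    (h : ∀ Y, X ≤ Y → Y ≤ G → finrank 𝕜 G ≤ finrank 𝕜 Y + (DD S Yh Y).card + 1) (h1 : Y1 ≤ G)
    (h2 : finrank 𝕜 Y1 + (DD S Yh Y1).card < finrank 𝕜 G) : RC (S \ DD S Yh Y1) Yh X Y1 := by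
  intro Y k1 k2
  have k3 := h Y k1 (k2.trans h1)
  have k4 := card_DD_sdiff (S := S) (Yh := Yh) (Y := Y) (DD S Yh Y1)
  omega

theorem greedy : GREEDY := by
  intro 𝕜 V E _ _ _ _ _ S T Yh X G hXG hG hT h
  by_cases k : ∃ e ∈ T, RC (S.erase e) Yh X G
  · exact Or.inl k
  right
  push Not at k
  clear hT
  induction T using Finset.induction_on with
  | empty => exact ⟨G, hXG, le_rfl, Finset.empty_subset _, by rw [DD_eq_empty hG]; rfl⟩
  | insert e T _ ih =>
    obtain ⟨Y, h1, h2, h3, h4⟩ := ih fun e' he' => k e' (Finset.mem_insert_of_mem he')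
    have k1 := k e (Finset.mem_insert_self _ _)
    unfold RC at k1
    push Not at k1
    obtain ⟨Y', h1', h2', h4'⟩ := k1
    have k2 := h Y' h1' h2'
    have k3 := card_DD_erase (S := S) (Yh := Yh) (Y := Y') e
    have k4 : e ∈ DD S Yh Y' := by
      by_contra k4
      rw [DD_erase, Finset.erase_eq_of_notMem k4] at h4'
      omega
    exact ⟨Y ⊓ Y', le_inf h1 h1', inf_le_left.trans h2,
      Finset.insert_subset (DD_anti inf_le_right k4) (h3.trans (DD_anti inf_le_left)),
      tight_inf h h1 h2 h1' h2' h4 (by omega)⟩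

theorem cov : COV := by
  intro 𝕜 V E _ _ _ _ S mv Yh X G
  classical
  induction hn : finrank 𝕜 G - finrank 𝕜 X using Nat.strong_induction_on generalizing X G S with
  | _ n ih =>
  intro hXG hG hsp hmv h γ hγ
  rcases hXG.eq_or_lt with rfl | hlt
  · exact ⟨0, fun _ _ => Or.inl rfl, by simpa using hγ⟩
  by_cases ht : ∃ Y, X < Y ∧ Y < G ∧ finrank 𝕜 G = finrank 𝕜 Y + (DD S Yh Y).card
  · obtain ⟨Y, h1, h2, h3⟩ := ht
    have r1 := Submodule.finrank_lt_finrank_of_lt h1
    have r2 := Submodule.finrank_lt_finrank_of_lt h2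
    obtain ⟨w1, k1, k2⟩ := ih _ (by omega) (DD S Yh Y) Y G rfl h2.le
      (fun e he => hG e (DD_subset he)) (fun e he => hsp e (DD_subset he))
      (fun e he => hmv e (DD_subset he))
      (fun Y' a b => by rw [DD_DD a]; exact h Y' (h1.le.trans a) b) γ hγ
    obtain ⟨w2, k3, k4⟩ := ih _ (by omega) (S \ DD S Yh Y) X Y rfl h1.le
      (fun e he => by
        by_contra k
        exact (Finset.mem_sdiff.1 he).2 (mem_DD.2 ⟨(Finset.mem_sdiff.1 he).1, k⟩))
      (fun e he => hsp e (Finset.mem_sdiff.1 he).1) (fun e he => hmv e (Finset.mem_sdiff.1 he).1)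
      (fun Y' a b => by
        have k5 := h Y' a (b.trans h2.le)
        have k6 := card_DD_sdiff (S := S) (Yh := Yh) (Y := Y') (DD S Yh Y)
        omega) _ k2
    refine ⟨fun e => if e ∈ DD S Yh Y then w1 e else w2 e, fun e he => ?_, ?_⟩
    · by_cases k : e ∈ DD S Yh Y
      · simpa only [if_pos k] using k1 e k
      · simpa only [if_neg k] using k3 e (Finset.mem_sdiff.2 ⟨he, k⟩)
    · rw [← Finset.sum_sdiff (DD_subset (S := S) (Yh := Yh) (Y := Y)),
        Finset.sum_congr rfl fun e he => if_neg (Finset.mem_sdiff.1 he).2,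
        Finset.sum_congr rfl fun e he => if_pos he, add_comm, ← sub_sub]
      exact k4
  · push Not at ht
    have r1 := Submodule.finrank_lt_finrank_of_lt hlt
    have r2 := h X le_rfl hXG
    obtain ⟨e, he⟩ := Finset.card_pos.1 (show 0 < (DD S Yh X).card by omega)
    obtain ⟨heS, he⟩ := mem_DD.1 he
    obtain ⟨m, hm, hy⟩ : ∃ m ∈ mv e, m.2 ∉ X := by
      by_contra k
      push Not at k
      exact he ((hsp e heS).trans (Submodule.span_le.2 (by
        rintro _ ⟨m, hm, rfl⟩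
        exact k m hm)))
    have h1 : X < X ⊔ Submodule.span 𝕜 {m.2} := left_lt_sup.2 fun k =>
      hy ((Submodule.span_singleton_le_iff_mem _ _).1 k)
    have h2 : X ⊔ Submodule.span 𝕜 {m.2} ≤ G :=
      sup_le hXG ((Submodule.span_singleton_le_iff_mem _ _).2 (hG e heS (hmv e heS m hm).2))
    have r3 := Submodule.finrank_lt_finrank_of_lt h1
    obtain ⟨w, k1, k2⟩ := ih _ (by omega) (S.erase e) _ G rfl h2
      (fun e he => hG e (Finset.mem_of_mem_erase he))
      (fun e he => hsp e (Finset.mem_of_mem_erase he))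
      (fun e he => hmv e (Finset.mem_of_mem_erase he))
      (fun Y a b => by
        rcases b.eq_or_lt with rfl | b'
        · exact Nat.le_add_right _ _
        · have k3 := ht Y (h1.trans_le a) b'
          have k4 := h Y (h1.le.trans a) b
          have k5 := card_DD_erase (S := S) (Yh := Yh) (Y := Y) e
          omega) (γ - m.1) (G.sub_mem hγ (hG e heS (hmv e heS m hm).1))
    obtain ⟨x, hx, y, hy', k3⟩ := Submodule.mem_sup.1 k2
    obtain ⟨t, rfl⟩ := Submodule.mem_span_singleton.1 hy'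
    refine ⟨Function.update w e (m.1 + t • m.2), fun e' he' => ?_, ?_⟩
    · by_cases k : e' = e
      · subst k
        exact Or.inr ⟨m, hm, t, Function.update_self ..⟩
      · rw [Function.update_of_ne k]
        exact k1 e' (Finset.mem_erase.2 ⟨k, he'⟩)
    · rw [Finset.sum_update_of_mem heS, Finset.sdiff_singleton_eq_erase]
      convert hx using 1
      rw [← sub_sub, ← sub_sub, sub_right_comm, ← k3, add_sub_cancel_right]

end Pool.Agent.MP_d99b12_co.H57
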