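import Pool.Agent.MP_d99b12_co.H57.Basic

/-! # Two indices, and three indices with uniform data (MP_d99b12_co). -/

namespace Pool.Agent.MP_d99b12_co.H57

open Matrix Module

namespace Fl

section Pin

variable {F : Type} [Field F] {ι E : Type} [Fintype ι] [DecidableEq ι] {O An : Finset ι}
  {S : Finset E} {a : E → ι → F} {v : E → F}

/-- An edge whose complement is anchored. -/
def Ed (O An : Finset ι) (i i' : ι) : Prop :=
  i ∈ O ∧ i' ∈ O ∧ i ≠ i' ∧ ∀ l ∈ O, l ≠ i → l ≠ i' → l ∈ An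

/-- Three linked edges. -/
lemma pin3 (hA : Al O An) {i i' j j' l l' : ι} (h1 : Ed O An i i') (h2 : Ed O An j j')
    (h3 : Ed O An l l')
    (hv : ∀ e ∈ S, v e = 0 ∨ v e = a e i - a e i' ∨ v e = a e j - a e j' ∨ v e = a e l - a e l')
    {g g' : E} (hg : g ∈ S) (hg' : g' ∈ S) (n : v g ≠ 0) (n' : v g' ≠ 0)
    (e1 : v g = a g i - a g i') (e2 : v g = a g j - a g j') (e3 : v g' = a g' j - a g' j')
    (e4 : v g' = a g' l - a g' l') : PIN O An S a v := fun u hu => by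
  obtain ⟨α, hα⟩ := hu.edge h1.1 h1.2.1 h1.2.2.1 h1.2.2.2 1
  obtain ⟨β, hβ⟩ := hu.edge h2.1 h2.2.1 h2.2.2.1 h2.2.2.2 1
  obtain ⟨γ, hγ⟩ := hu.edge h3.1 h3.2.1 h3.2.2.1 h3.2.2.2 1
  simp only [one_mul] at hα hβ hγ
  obtain rfl : α = β := mul_right_cancel₀ n (by
    linear_combination hβ g hg e2 - hα g hg e1 + α * e1 - β * e2)
  obtain rfl : α = γ := mul_right_cancel₀ n' (by
    linear_combination hγ g' hg' e4 - hβ g' hg' e3 + α * e3 - γ * e4)
  refine ⟨α, fun e he => ?_⟩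
  rcases hv e he with k | k | k | k
  · rw [hu.zero hA he k, k, mul_zero]
  · rw [hα e he k, k]
  · rw [hβ e he k, k]
  · rw [hγ e he k, k]

/-- Two linked edges. -/
lemma pin2 (hA : Al O An) {i i' j j' : ι} (h1 : Ed O An i i') (h2 : Ed O An j j')
    (hv : ∀ e ∈ S, v e = 0 ∨ v e = a e i - a e i' ∨ v e = a e j - a e j') {g : E} (hg : g ∈ S)
    (n : v g ≠ 0) (e1 : v g = a g i - a g i') (e2 : v g = a g j - a g j') : PIN O An S a v :=
  pin3 hA h1 h2 h2 (fun e he => (hv e he).imp_right fun k => k.imp_right Or.inl) hg hg n n e1 e2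
    e2 e2

omit [Fintype ι] [DecidableEq ι] in
lemma sum_ind [DecidableEq E] {I : Finset E} (hI : I ⊆ S) (w z : E → F) :
    ∑ e ∈ S, (if e ∈ I then w e else 0) * z e = ∑ e ∈ I, w e * z e := by
  rw [← Finset.sum_subset hI fun e _ k => by rw [if_neg k, zero_mul]]
  exact Finset.sum_congr rfl fun e he => by rw [if_pos he]

end Pin

variable {p : ℕ} [Fact p.Prime] {F : Type} [Field F] [Fintype F] [Algebra (ZMod p) F] {ι E : Type}
  [Fintype ι] [DecidableEq ι] [DecidableEq E] {O An : Finset ι} {S : Finset E} {a : E → ι → F}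
  {z v : E → F} {X : E → Submodule (ZMod p) F} {r : ℕ} {Y : Submodule (ZMod p) F}

omit [Fintype F] [DecidableEq ι] [DecidableEq E] in
lemma good {g : E} (hg : g ∈ S) (h0 : v g ≠ 0) (h1 : v g ∈ Fp (F := F) p) (hP : PIN O An S a v)
    (hs : ∑ e ∈ S, v e * z e ∈ X g) : Good O An S a z X :=
  ⟨v, ⟨g, hg, h0⟩, hP, sol_of_mem hg ⟨_, Fp.mul_mem (Fp.inv h1) hs, mul_inv_cancel_left₀ h0 _⟩⟩

lemma core (hG : GO p) {i0 i1 i2 : ι} (h0 : i0 ∈ O) (h1 : i1 ∈ O) (h2 : i2 ∈ O) (n01 : i0 ≠ i1)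
    (n02 : i0 ≠ i2) (n12 : i1 ≠ i2) (hO : ∀ l ∈ O, l = i0 ∨ l = i1 ∨ l = i2) (a1 : i1 ∈ An)
    (a2 : i2 ∈ An) (Q : E → Prop) (hQ1 : ∀ e e', Q e → Q e' → e = e')
    (hQ2 : ∀ e, Q e → a e i1 = a e i2)
    (hQ3 : ∀ v : E → F, (∀ e, Q e → v e = 0) → PIN O O S a v → PIN O An S a v)
    (hI : Items O S a z X r Y) (hF : ∀ e ∈ S, ∀ i, a e i ∈ Fp (F := F) p)
    (hX : ∀ e ∈ S, ∀ e' ∈ S, X e = X e')
    (hc : (finrank (ZMod p) Y - r) * (p - 1) < S.card) : Good O An S a z X := by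
  classical
  have hA : Al O An := ⟨i0, fun l hl k => by rcases hO l hl with rfl | rfl | rfl <;> tauto⟩
  have hA' : Al O O := al_self ⟨i0, h0⟩
  have e01 : Ed O An i0 i1 :=
    ⟨h0, h1, n01, fun l hl k k' => by rcases hO l hl with rfl | rfl | rfl <;> tauto⟩
  have e02 : Ed O An i0 i2 :=
    ⟨h0, h2, n02, fun l hl k k' => by rcases hO l hl with rfl | rfl | rfl <;> tauto⟩
  have hn : ∀ e ∈ S, a e i0 = a e i1 → a e i1 ≠ a e i2 := fun e he k k' => by
    obtain ⟨x, hx, y, hy, hne⟩ := (hI e he).1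
    rcases hO x hx with rfl | rfl | rfl <;> rcases hO y hy with rfl | rfl | rfl <;> simp_all
  have hY : ∀ e ∈ S, z e ∈ Y ∧ X e ≤ Y := fun e he =>
    (Yh_le_rat (hI e he).1 (hF e he)).1 (hI e he).2.2
  have hz : ∀ e ∈ S, ∀ i i', (a e i - a e i') * z e ∈ Y := fun e he i i' =>
    Fp.mul_mem (Fp.sub (hF e he i) (hF e he i')) (hY e he).1
  have go : ∀ w : E → F, (∀ e ∈ S, w e ∈ Y) →
      ∃ I ⊆ S, I.Nonempty ∧ ∀ g ∈ S, ∑ e ∈ I, w e ∈ X g := fun w hw => by
    obtain ⟨I, k1, k2, ξ, k3, k4⟩ := hG F E S w X Y r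
      (fun e he => ⟨hw e he, (hY e he).2, (hI e he).2.1⟩) hc
    refine ⟨I, k1, k2, fun g hg => ?_⟩
    rw [Finset.sum_add_distrib, add_eq_zero_iff_eq_neg] at k4
    rw [k4]
    exact neg_mem (Submodule.sum_mem _ fun e he => hX e (k1 he) g hg ▸ k3 e he)
  -- the star at the index `i0`
  let la : E → F := fun e => if a e i0 = a e i1 then a e i0 - a e i2 else a e i0 - a e i1
  have la0 : ∀ e ∈ S, la e ≠ 0 ∧ la e ∈ Fp (F := F) p := fun e he => by
    simp only [la]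
    split_ifs with k
    · exact ⟨sub_ne_zero.2 (k ▸ hn e he k), Fp.sub (hF e he _) (hF e he _)⟩
    · exact ⟨sub_ne_zero.2 k, Fp.sub (hF e he _) (hF e he _)⟩
  obtain ⟨I, hIS, ⟨g0, hg0⟩, hIX⟩ := go (fun e => la e * z e) fun e he => by
    simp only [la]
    split_ifs <;> exact hz e he _ _
  have gI : PIN O An S a (fun e => if e ∈ I then la e else 0) → Good O An S a z X := fun hP =>
    good (hIS hg0) (by simpa only [if_pos hg0] using (la0 g0 (hIS hg0)).1)
      (by simpa only [if_pos hg0] using (la0 g0 (hIS hg0)).2) hP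
      (by rw [sum_ind hIS]; exact hIX _ (hIS hg0))
  by_cases c1 : ∃ g ∈ I, a g i1 = a g i2
  · obtain ⟨g, hg, k⟩ := c1
    have k' : a g i0 ≠ a g i1 := fun k' => hn g (hIS hg) k' k
    refine gI (pin2 hA e01 e02 (fun e _ => ?_) (hIS hg) ?_ ?_ ?_)
    · simp only [la]
      split_ifs <;> tauto
    · simpa only [if_pos hg] using (la0 g (hIS hg)).1
    · simp only [la, if_pos hg, if_neg k']
    · simp only [la, if_pos hg, if_neg k', k]
  by_cases c2 : ∀ g ∈ I, a g i0 ≠ a g i1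
  · refine gI (PIN.star hA h0 h1 n01 e01.2.2.2 fun e _ => ?_)
    by_cases k : e ∈ I
    · exact Or.inr (by simp only [la, if_pos k, if_neg (c2 e k)])
    · exact Or.inl (if_neg k)
  push Not at c1 c2
  obtain ⟨g2, hg2, k2⟩ := c2
  -- the star at the index `i2`
  let mu : E → F := fun e => if a e i1 = a e i2 then a e i2 - a e i0 else a e i2 - a e i1
  have mu0 : ∀ e ∈ S, mu e ≠ 0 ∧ mu e ∈ Fp (F := F) p := fun e he => by
    simp only [mu]
    split_ifs with k
    · exact ⟨sub_ne_zero.2 fun k' => hn e he (k.trans k').symm k, Fp.sub (hF e he _) (hF e he _)⟩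
    · exact ⟨sub_ne_zero.2 (Ne.symm k), Fp.sub (hF e he _) (hF e he _)⟩
  obtain ⟨J, hJS, ⟨g1, hg1⟩, hJX⟩ := go
    (fun e => if Q e then ∑ e ∈ S, (a e i0 - a e i2) * z e else mu e * z e) fun e he => by
      simp only [mu]
      split_ifs
      · exact Submodule.sum_mem _ fun e he => hz e he _ _
      · exact hz e he _ _
      · exact hz e he _ _
  by_cases c3 : ∃ o ∈ J, Q o
  · obtain ⟨o, ho, hQ⟩ := c3
    have k := hQ2 o hQ
    have k' : a o i0 ≠ a o i1 := fun k' => hn o (hJS ho) k' k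
    have hvo : (if o ∈ J.erase o then mu o else 0) + (a o i0 - a o i2) = a o i0 - a o i2 := by
      rw [if_neg (Finset.notMem_erase o J), zero_add]
    have hv0 : a o i0 - a o i2 ≠ 0 := sub_ne_zero.2 (k ▸ k')
    refine good (v := fun e => (if e ∈ J.erase o then mu e else 0) + (a e i0 - a e i2)) (hJS ho)
      (hvo.trans_ne hv0) (by rw [hvo]; exact Fp.sub (hF o (hJS ho) _) (hF o (hJS ho) _))
      (pin2 hA e01 e02 (fun e _ => ?_) (hJS ho) (hvo.trans_ne hv0) (hvo.trans (by rw [k])) hvo) ?_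
    · simp only [mu]
      split_ifs
      · exact Or.inl (by ring)
      · exact Or.inr (Or.inl (by ring))
      · exact Or.inr (Or.inr (by ring))
    · have k3 := hJX o (hJS ho)
      rw [← Finset.sum_erase_add J _ ho, if_pos hQ, Finset.sum_congr rfl fun e he =>
        if_neg fun k4 => (Finset.mem_erase.1 he).1 (hQ1 _ _ k4 hQ)] at k3
      simp only [add_mul, Finset.sum_add_distrib]
      rwa [sum_ind ((Finset.erase_subset o J).trans hJS)]
  push Not at c3
  replace hJX : ∀ g ∈ S, ∑ e ∈ J, mu e * z e ∈ X g := fun g hg => by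
    have k3 := hJX g hg
    rwa [Finset.sum_congr rfl fun e he => if_neg (c3 e he)] at k3
  have ed : ∀ {i i'}, i ∈ O → i' ∈ O → i ≠ i' → Ed O O i i' := fun k k' k'' =>
    ⟨k, k', k'', fun _ hl _ _ => hl⟩
  have gJ : PIN O O S a (fun e => if e ∈ J then mu e else 0) → Good O An S a z X := fun hP =>
    good (hJS hg1) (by simpa only [if_pos hg1] using (mu0 g1 (hJS hg1)).1)
      (by simpa only [if_pos hg1] using (mu0 g1 (hJS hg1)).2)
      (hQ3 _ (fun e he => if_neg fun k => c3 e k he) hP)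
      (by rw [sum_ind hJS]; exact hJX _ (hJS hg1))
  by_cases c4 : ∃ g ∈ J, a g i0 = a g i1
  · obtain ⟨g, hg, k⟩ := c4
    have k' := hn g (hJS hg) k
    refine gJ (pin2 hA' (ed h2 h1 n12.symm) (ed h2 h0 n02.symm) (fun e _ => ?_) (hJS hg) ?_ ?_ ?_)
    · simp only [mu]
      split_ifs <;> tauto
    · simpa only [if_pos hg] using (mu0 g (hJS hg)).1
    · simp only [mu, if_pos hg, if_neg k']
    · simp only [mu, if_pos hg, if_neg k', k]
  by_cases c5 : ∀ g ∈ J, a g i1 ≠ a g i2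
  · refine gJ (PIN.star hA' h2 h1 n12.symm (fun _ hl _ _ => hl) fun e _ => ?_)
    by_cases k : e ∈ J
    · exact Or.inr (by simp only [mu, if_pos k, if_neg (c5 e k)])
    · exact Or.inl (if_neg k)
  push Not at c4 c5
  obtain ⟨g3, hg3, k3⟩ := c5
  have n3 : g3 ∉ I := fun k => c1 g3 k k3
  have n2 : g2 ∉ J := fun k => c4 g2 k k2
  have v3 : (if g3 ∈ I then la g3 else 0) - (if g3 ∈ J then mu g3 else 0) = a g3 i0 - a g3 i2 := by
    simp only [mu, if_neg n3, if_pos hg3, if_pos k3]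
    ring
  have v2 : (if g2 ∈ I then la g2 else 0) - (if g2 ∈ J then mu g2 else 0) = a g2 i0 - a g2 i2 := by
    simp only [la, if_neg n2, if_pos hg2, if_pos k2, sub_zero]
  have w3 : a g3 i0 - a g3 i2 ≠ 0 := sub_ne_zero.2 (k3 ▸ c4 g3 hg3)
  have w2 : a g2 i0 - a g2 i2 ≠ 0 := sub_ne_zero.2 (k2 ▸ c1 g2 hg2)
  refine good (v := fun e => (if e ∈ I then la e else 0) - (if e ∈ J then mu e else 0)) (hJS hg3)
    (v3 ▸ w3) (v3 ▸ Fp.sub (hF g3 (hJS hg3) _) (hF g3 (hJS hg3) _)) (hQ3 _ (fun e he => ?_)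
    (pin3 hA' (ed h0 h1 n01) (ed h0 h2 n02) (ed h1 h2 n12) (fun e _ => ?_) (hJS hg3) (hIS hg2)
      (v3 ▸ w3) (v2 ▸ w2) (v3.trans (by rw [k3])) v3 v2 (v2.trans (by rw [k2])))) ?_
  · rw [if_neg fun k => c1 e k (hQ2 e he), if_neg fun k => c3 e k he, sub_zero]
  · by_cases k : e ∈ I <;> by_cases k' : e ∈ J
    · refine Or.inr (Or.inr (Or.inl ?_))
      simp only [la, mu, if_pos k, if_pos k', if_neg (c1 e k), if_neg (c4 e k')]
      ring
    · simp only [la, if_pos k, if_neg k', sub_zero]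
      split_ifs <;> tauto
    · simp only [mu, if_neg k, if_pos k', zero_sub]
      split_ifs
      · exact Or.inr (Or.inr (Or.inl (by ring)))
      · exact Or.inr (Or.inr (Or.inr (by ring)))
    · exact Or.inl (by rw [if_neg k, if_neg k', sub_zero])
  · simp only [sub_mul, Finset.sum_sub_distrib]
    rw [sum_ind hIS, sum_ind hJS]
    exact sub_mem (hIX _ (hJS hg3)) (hJX _ (hJS hg3))

end Fl

variable {p : ℕ} [Fact p.Prime] {F : Type} [Field F] [Fintype F] [Algebra (ZMod p) F]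

theorem base (hG : GO p) : BASE p F := by
  intro ι E _ O An S a z X r Y hO hA hI hc
  classical
  obtain ⟨i, i', hne, rfl⟩ := Finset.card_eq_two.1 hO
  have hi : i ∈ ({i, i'} : Finset ι) := by simp
  have hi' : i' ∈ ({i, i'} : Finset ι) := by simp
  have hn : ∀ e ∈ S, a e i - a e i' ≠ 0 := fun e he k => by
    obtain ⟨x, hx, y, hy, hxy⟩ := (hI e he).1
    rw [sub_eq_zero] at k
    simp only [Finset.mem_insert, Finset.mem_singleton] at hx hy
    rcases hx with rfl | rfl <;> rcases hy with rfl | rfl <;> simp_all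
  obtain ⟨I, k1, ⟨g, hg⟩, ξ, k3, k4⟩ := hG F E S (fun e => (a e i - a e i') * z e)
    (fun e => mulX (a e i - a e i') (X e)) Y r (fun e he => ⟨(hI e he).2.2 (z_mem_Yh hi hi' _),
      (mulX_le_Yh hi hi' _).trans (hI e he).2.2,
      (hI e he).2.1.trans (finrank_mulX (hn e he) _).ge⟩) hc
  choose! x hx hx' using k3
  refine ⟨fun e => if e ∈ I then a e i - a e i' else 0, ⟨g, k1 hg, ?_⟩,
    PIN.star hA hi hi' hne (fun l hl h1 h2 => ?_) fun e _ => ?_,
    Sol.ext ⟨x, hx, (Finset.sum_congr rfl fun e he => ?_).trans k4⟩ k1 fun e _ he => if_neg he⟩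
  · simpa only [if_pos hg] using hn g (k1 hg)
  · simp only [Finset.mem_insert, Finset.mem_singleton] at hl
    tauto
  · split_ifs <;> tauto
  · beta_reduce
    rw [if_pos he, mul_add, ← hx' e he]
    rfl

theorem fl (hG : GO p) : FL p F := by
  intro ι E _ _ _ O An S a z X r Y hO hA hI hF hX hc
  have key : ∀ i0 ∈ O, ∃ i1 i2, i1 ≠ i2 ∧ i1 ∈ O.erase i0 ∧ i2 ∈ O.erase i0 ∧
      ∀ l ∈ O, l = i0 ∨ l = i1 ∨ l = i2 := fun i0 h0 => by
    obtain ⟨i1, i2, hne, k⟩ := Finset.card_eq_two.1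
      (show (O.erase i0).card = 2 by rw [Finset.card_erase_of_mem h0, hO])
    refine ⟨i1, i2, hne, by simp [k], by simp [k], fun l hl => or_iff_not_imp_left.2 fun k' => ?_⟩
    simpa [k] using Finset.mem_erase.2 ⟨k', hl⟩
  rcases hA with rfl | ⟨i0, h0, rfl, o, ho, s, hs⟩
  · obtain ⟨i0, h0⟩ := Finset.card_pos.1 (show 0 < An.card by omega)
    obtain ⟨i1, i2, hne, h1, h2, k⟩ := key i0 h0
    rw [Finset.mem_erase] at h1 h2
    exact Fl.core hG h0 h1.2 h2.2 h1.1.symm h2.1.symm hne k h1.2 h2.2 (fun _ => False)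
      (fun _ _ k => k.elim) (fun _ k => k.elim) (fun _ _ k => k) hI hF hX hc
  · obtain ⟨i1, i2, hne, h1, h2, k⟩ := key i0 h0
    have h1' := Finset.mem_erase.1 h1
    have h2' := Finset.mem_erase.1 h2
    refine Fl.core hG h0 h1'.2 h2'.2 h1'.1.symm h2'.1.symm hne k h1 h2 (fun e => e = o)
      (fun _ _ k k' => k.trans k'.symm) ?_ (fun v hv hP => hP.anchor (al_erase O i0) h0 ho ⟨s, hs⟩
        (hv o rfl) fun l hl k => Finset.mem_erase.2 ⟨k, hl⟩) hI hF hX hc
    rintro e rfl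
    linear_combination hs.2 i2 h2'.2 h2'.1 - hs.2 i1 h1'.2 h1'.1

end Pool.Agent.MP_d99b12_co.H57
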