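import Pool.Agent.MP_d99b12_co.H57.Basic
import Pool.Agent.MP_d99b12_co.H81.GO

/-! The twisted theorem of Olson. -/

namespace Pool.Agent.MP_d99b12_co.H57

theorem go {p : ℕ} [Fact p.Prime] : GO p := by
  intro V E _ _ _ S z X Y r h hn
  obtain ⟨I, h1, h2, h3⟩ := H81.go S z X Y r (fun e he => (h e he).1) (fun e he => (h e he).2.1)
    (fun e he => (h e he).2.2) hn
  obtain ⟨μ, hμ⟩ := (Submodule.mem_iSup_finset_iff_exists_sum _ _).1 h3
  refine ⟨I, h1, h2, fun e => -(μ e : V), fun e _ => neg_mem (μ e).2, ?_⟩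
  rw [Finset.sum_add_distrib, Finset.sum_neg_distrib, hμ, add_neg_cancel]

end Pool.Agent.MP_d99b12_co.H57
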