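import Pool.Agent.MP_d99b12_co.H57.Basic

/-! # The heavy case for `p ≥ 5` (MP_d99b12_co) -/

namespace Pool.Agent.MP_d99b12_co.H57

open Matrix Module

variable {p : ℕ} [Fact p.Prime] {F : Type} [Field F] [Fintype F] [Algebra (ZMod p) F]

namespace H5

variable {ι E : Type} {O : Finset ι} {S : Finset E} {a : E → ι → F} {z : E → F}
  {X : E → Submodule (ZMod p) F} {r : ℕ} {Y Xs : Submodule (ZMod p) F}

open Classical in
/-- The items of class `i`. -/
noncomputable def cl (O : Finset ι) (S : Finset E) (a : E → ι → F) (i : ι) : Finset E :=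
  S.filter fun e => Cls O i (a e)

omit [Fintype F] in
lemma mem_cl {i : ι} {e : E} : e ∈ cl O S a i ↔ e ∈ S ∧ Cls O i (a e) := by
  classical
  simp only [cl, Finset.mem_filter]

omit [Fintype F] in
/-- Every class is large. -/
lemma card_cl (hI : Items O S a z X r Y) (hr : r ≤ finrank (ZMod p) Y) (hB : NoB O S a z X r Y)
    {i : ι} (hi : i ∈ O) : p - 3 < (cl O S a i).card := by
  have := hB i hi Y le_rfl hr (cl O S a i) fun e he k =>
    mem_cl.2 ⟨he, k.resolve_left fun k' => k' (hI e he).2.2⟩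
  simpa using this

/-- One more item of class `i` can be removed. -/
lemma step [DecidableEq E] (hG : GREEDY) (hp : 5 ≤ p) (hI : Items O S a z X r Y)
    (hB : NoB O S a z X r Y) (hX : Xs ≤ Y) (hr : r ≤ finrank (ZMod p) Xs) {i : ι} (hi : i ∈ O)
    {A : Finset E} (hA : RC (S \ A) (fun e => Yh O (a e) (z e) (X e)) Xs Y)
    (hc : A.card < (p - 2) * ((cl O S a i \ A).card + 1)) :
    ∃ e ∈ cl O S a i \ A, RC (S \ insert e A) (fun e => Yh O (a e) (z e) (X e)) Xs Y := by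
  rcases hG (ZMod p) F E (S \ A) (cl O S a i \ A) (fun e => Yh O (a e) (z e) (X e)) Xs Y hX
    (fun e he => (hI e (Finset.mem_sdiff.1 he).1).2.2)
    (fun e he => Finset.mem_sdiff.2 ⟨(mem_cl.1 (Finset.mem_sdiff.1 he).1).1,
      (Finset.mem_sdiff.1 he).2⟩) hA with ⟨e, he, k⟩ | ⟨Y', h1, h2, h3, h4⟩
  · refine ⟨e, he, ?_⟩
    rwa [Finset.sdiff_insert]
  · exfalso
    have h5 := hB i hi Y' h2 (hr.trans (Submodule.finrank_mono h1))
      (DD (S \ A) (fun e => Yh O (a e) (z e) (X e)) Y' ∪ A) fun e he k => by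
        by_cases hA' : e ∈ A
        · exact Finset.mem_union_right _ hA'
        · refine Finset.mem_union_left _ ?_
          rcases k with k | k
          · exact mem_DD.2 ⟨Finset.mem_sdiff.2 ⟨he, hA'⟩, k⟩
          · exact h3 (Finset.mem_sdiff.2 ⟨mem_cl.2 ⟨he, k⟩, hA'⟩)
    have h6 := Finset.card_union_le (DD (S \ A) (fun e => Yh O (a e) (z e) (X e)) Y') A
    have h7 := Finset.card_le_card h3
    rw [h4, Nat.add_sub_cancel_left] at h5
    generalize (DD (S \ A) (fun e => Yh O (a e) (z e) (X e)) Y').card = κ at h5 h6 h7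
    obtain ⟨q, rfl⟩ : ∃ q, p = q + 3 := ⟨p - 3, by omega⟩
    have e1 : q + 3 - 1 = q + 2 := rfl
    have e2 : q + 3 - 2 = q + 1 := rfl
    have e3 : q + 3 - 3 = q := rfl
    rw [e1, e3] at h5
    rw [e2] at hc
    have h8 := Nat.mul_le_mul_left (q + 1) (Nat.succ_le_succ h7)
    simp only [Nat.succ_eq_add_one] at h8
    nlinarith

/-- Several items of class `i` can be removed. -/
lemma ext [DecidableEq E] (hG : GREEDY) (hp : 5 ≤ p) (hI : Items O S a z X r Y)
    (hB : NoB O S a z X r Y) (hX : Xs ≤ Y) (hr : r ≤ finrank (ZMod p) Xs) {i : ι} (hi : i ∈ O)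
    {A : Finset E} (hA : RC (S \ A) (fun e => Yh O (a e) (z e) (X e)) Xs Y) (c n : ℕ)
    (h1 : n + c ≤ (cl O S a i \ A).card + 1) (h2 : A.card + n ≤ (p - 2) * (c + 1)) :
    ∃ B ⊆ cl O S a i \ A, B.card = n ∧
      RC (S \ (A ∪ B)) (fun e => Yh O (a e) (z e) (X e)) Xs Y := by
  induction n with
  | zero => exact ⟨∅, Finset.empty_subset _, rfl, by rwa [Finset.union_empty]⟩
  | succ n ih =>
    obtain ⟨B, hB1, hB2, hB3⟩ := ih (by omega) (by omega)
    have k1 : (A ∪ B).card ≤ A.card + n := hB2 ▸ Finset.card_union_le A B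
    have k2 : (cl O S a i \ A).card ≤ (cl O S a i \ (A ∪ B)).card + n := by
      have k : cl O S a i \ (A ∪ B) = (cl O S a i \ A) \ B := by
        ext e; simp only [Finset.mem_sdiff, Finset.mem_union]; tauto
      rw [← hB2, k]
      exact Finset.card_le_card_sdiff_add_card
    have k3 : (p - 2) * (c + 1) ≤ (p - 2) * ((cl O S a i \ (A ∪ B)).card + 1) :=
      Nat.mul_le_mul_left _ (by omega)
    obtain ⟨e, he, k⟩ := step hG hp hI hB hX hr hi hB3 (by omega)
    have he' := Finset.mem_sdiff.1 he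
    have heA : e ∉ A := fun k => he'.2 (Finset.mem_union_left _ k)
    have heB : e ∉ B := fun k => he'.2 (Finset.mem_union_right _ k)
    refine ⟨insert e B, Finset.insert_subset (Finset.mem_sdiff.2 ⟨he'.1, heA⟩) hB1,
      by rw [Finset.card_insert_of_notMem heB, hB2], ?_⟩
    rwa [Finset.union_insert]

omit [Fintype F] in
/-- Items of one class carry any set of values of the same size. -/
lemma frame {i : ι} {B : Finset E} (hB : ∀ f ∈ B, Cls O i (a f)) (W : Finset (ZMod p))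
    (hc : B.card = W.card) : ∃ v : E → F,
      (∀ f ∈ B, ∃ w ∈ W, IsW O a v f i (algebraMap (ZMod p) F w)) ∧
      ∀ w ∈ W, ∃ f ∈ B, IsW O a v f i (algebraMap (ZMod p) F w) := by
  classical
  let g := Finset.equivOfCardEq hc
  have hs : ∀ f, ∃ s, f ∈ B → Jump O i (a f) s := fun f => by
    by_cases k : f ∈ B
    · exact (hB f k).imp fun _ h _ => h
    · exact ⟨0, fun h => absurd h k⟩
  choose s hs using hs
  refine ⟨fun f => if k : f ∈ B then algebraMap (ZMod p) F (g ⟨f, k⟩) * s f else 0,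
    fun f hf => ⟨g ⟨f, hf⟩, (g ⟨f, hf⟩).2, s f, hs f hf, dif_pos hf⟩, fun w hw => ?_⟩
  refine ⟨g.symm ⟨w, hw⟩, (g.symm ⟨w, hw⟩).2, s _, hs _ (g.symm ⟨w, hw⟩).2, ?_⟩
  have := (g.symm ⟨w, hw⟩).2
  simp [this]

omit [Fintype F] in
lemma IsW.congr {v v' : E → F} {f : E} {i : ι} {τ : F} (h : IsW O a v f i τ) (e : v' f = v f) :
    IsW O a v' f i τ := h.imp fun _ k => ⟨k.1, e.trans k.2⟩

end H5

open H5 in
theorem heavy (hG : GREEDY) (hC : CLOSE p F) : HEAVY p F := by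
  intro hp ι E _ _ _ O An S a z X r Y hO hA hI hr hNA hNB
  obtain ⟨i3, o3, h3⟩ : ∃ i3 ∈ O, ∀ i ∈ O, i ≠ i3 → i ∈ An := by
    obtain ⟨i0, h0⟩ := hA
    by_cases k : i0 ∈ O
    · exact ⟨i0, k, h0⟩
    · obtain ⟨i, hi⟩ : O.Nonempty := Finset.card_pos.1 (by omega)
      exact ⟨i, hi, fun l hl _ => h0 l hl fun e => k (e ▸ hl)⟩
  obtain ⟨i1, o1, i2, o2, n12⟩ := Finset.one_lt_card.1
    (show 1 < (O.erase i3).card by rw [Finset.card_erase_of_mem o3]; omega)
  obtain ⟨n13, o1⟩ := Finset.mem_erase.1 o1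
  obtain ⟨n23, o2⟩ := Finset.mem_erase.1 o2
  have c1 := card_cl hI hr hNB o1
  have c2 := card_cl hI hr hNB o2
  have c3 := card_cl hI hr hNB o3
  obtain ⟨e0, he0⟩ : (cl O S a i1).Nonempty := Finset.card_pos.1 (by omega)
  obtain ⟨he0S, s0, hs0⟩ := mem_cl.1 he0
  have hX : mulX s0 (X e0) ≤ Y := ((Yh_le_jump hs0 o1 o2 n12.symm).1 (hI e0 he0S).2.2).2
  have hrX : r ≤ finrank (ZMod p) (mulX s0 (X e0)) := by
    rw [finrank_mulX hs0.1]; exact (hI e0 he0S).2.1
  have R0 : RC (S \ {e0}) (fun e => Yh O (a e) (z e) (X e)) (mulX s0 (X e0)) Y := by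
    intro Y' k1 k2
    rcases k2.eq_or_lt with rfl | k3
    · omega
    · have k4 := hNA Y' k3 (hrX.trans (Submodule.finrank_mono k1))
      have k5 : (DD S (fun e => Yh O (a e) (z e) (X e)) Y').card ≤
          (DD (S \ {e0}) (fun e => Yh O (a e) (z e) (X e)) Y').card + 1 := by
        refine le_trans (Finset.card_le_card fun e he => ?_) (Finset.card_insert_le e0 _)
        by_cases k : e = e0
        · exact k ▸ Finset.mem_insert_self _ _
        · exact Finset.mem_insert_of_mem (mem_DD.2 ⟨Finset.mem_sdiff.2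
            ⟨(mem_DD.1 he).1, by simpa using k⟩, (mem_DD.1 he).2⟩)
      have k6 : 1 * (finrank (ZMod p) Y - finrank (ZMod p) Y') ≤
          (p - 1) * (finrank (ZMod p) Y - finrank (ZMod p) Y') := Nat.mul_le_mul_right _ (by omega)
      omega
  obtain ⟨B1, b1, d1, R1⟩ := ext hG hp hI hNB hX hrX o1 R0 0 (p - 3)
    (by have := Finset.card_le_card_sdiff_add_card (s := cl O S a i1) (t := {e0})
        rw [Finset.card_singleton] at this; omega)
    (by rw [Finset.card_singleton]; omega)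
  obtain ⟨A1, hA1⟩ : ∃ A1 : Finset E, A1 = {e0} ∪ B1 := ⟨_, rfl⟩
  rw [← hA1] at R1
  have m1 : A1 ⊆ cl O S a i1 := by
    rw [hA1]
    exact Finset.union_subset (by simpa using he0) (b1.trans Finset.sdiff_subset)
  have e01 : e0 ∈ A1 := by simp [hA1]
  have a1 : A1.card = p - 2 := by
    rw [hA1, Finset.card_union_of_disjoint (Finset.disjoint_right.2 fun e he =>
      (Finset.mem_sdiff.1 (b1 he)).2), Finset.card_singleton]
    omega
  have s2 : cl O S a i2 \ A1 = cl O S a i2 := Finset.sdiff_eq_self_of_disjoint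
    (Finset.disjoint_left.2 fun e k2 k1 =>
      n12 (Cls.unique (mem_cl.1 (m1 k1)).2 (mem_cl.1 k2).2 o2 o3 n13.symm n23.symm))
  obtain ⟨A2, b2, a2, R2⟩ := ext hG hp hI hNB hX hrX o2 R1 1 (p - 2) (by rw [s2]; omega)
    (by omega)
  have m2 : A2 ⊆ cl O S a i2 := b2.trans Finset.sdiff_subset
  have s3 : cl O S a i3 \ (A1 ∪ A2) = cl O S a i3 := Finset.sdiff_eq_self_of_disjoint
    (Finset.disjoint_left.2 fun e k3 k => by
      rcases Finset.mem_union.1 k with k1 | k2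
      · exact n13 (Cls.unique (mem_cl.1 (m1 k1)).2 (mem_cl.1 k3).2 o3 o2 n12.symm n23)
      · exact n23 (Cls.unique (mem_cl.1 (m2 k2)).2 (mem_cl.1 k3).2 o3 o1 n12 n13))
  obtain ⟨A3, b3, a3, R3⟩ := ext hG hp hI hNB hX hrX o3 R2 2 2 (by rw [s3]; omega)
    (by have := Finset.card_union_le A1 A2; omega)
  have m3 : A3 ⊆ cl O S a i3 := b3.trans Finset.sdiff_subset
  have cW : (Finset.univ \ {0, 1} : Finset (ZMod p)).card = p - 2 := by
    rw [Finset.card_univ_sdiff, ZMod.card, Finset.card_pair zero_ne_one]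
  have h2 : (2 : ZMod p) ≠ 0 := two_ne (p := p) (by omega)
  obtain ⟨v1, f1, g1⟩ := frame (fun f hf => (mem_cl.1 (m1 hf)).2) _ (a1.trans cW.symm)
  obtain ⟨v2, f2, g2⟩ := frame (fun f hf => (mem_cl.1 (m2 hf)).2) _ (a2.trans cW.symm)
  obtain ⟨v3, f3, g3⟩ := frame (fun f hf => (mem_cl.1 (m3 hf)).2) ({0, -2} : Finset (ZMod p))
    (a3.trans (Finset.card_pair (neg_ne_zero.2 h2).symm).symm)
  obtain ⟨v0, u1, u2, u3⟩ : ∃ v0 : E → F, (∀ f ∈ A1, v0 f = v1 f) ∧ (∀ f ∈ A2, v0 f = v2 f) ∧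
      ∀ f ∈ A3, v0 f = v3 f := by
    refine ⟨fun f => if f ∈ A1 then v1 f else if f ∈ A2 then v2 f else v3 f,
      fun f hf => if_pos hf, fun f hf => ?_, fun f hf => ?_⟩
    · simp [hf, (Finset.mem_sdiff.1 (b2 hf)).2]
    · have := Finset.notMem_union.1 (Finset.mem_sdiff.1 (b3 hf)).2
      simp [this.1, this.2]
  have inj := (algebraMap (ZMod p) F).injective
  have em2 : algebraMap (ZMod p) F (-2) = -2 := by rw [map_neg, map_ofNat]
  have hW : ∀ f ∈ A1 ∪ A2 ∪ A3, ∃ i ∈ O, ∃ τ ∈ V3 (F := F) p i1 i2 i3 i, τ ∈ Fp (F := F) p ∧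
      IsW O a v0 f i τ := fun f hf => by
    have k : ∀ w ∈ (Finset.univ \ {0, 1} : Finset (ZMod p)), algebraMap (ZMod p) F w ≠ 1 :=
      fun w hw e => by
        have : w = 1 := inj (e.trans (map_one _).symm)
        simp [this] at hw
    rcases Finset.mem_union.1 hf with hf | hf
    · rcases Finset.mem_union.1 hf with hf | hf
      · obtain ⟨w, hw, k'⟩ := f1 f hf
        exact ⟨i1, o1, _, Or.inr (Or.inl ⟨Or.inl rfl, ⟨w, rfl⟩, k w hw⟩), ⟨w, rfl⟩,
          IsW.congr k' (u1 f hf)⟩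
      · obtain ⟨w, hw, k'⟩ := f2 f hf
        exact ⟨i2, o2, _, Or.inr (Or.inl ⟨Or.inr rfl, ⟨w, rfl⟩, k w hw⟩), ⟨w, rfl⟩,
          IsW.congr k' (u2 f hf)⟩
    · obtain ⟨w, hw, k'⟩ := f3 f hf
      refine ⟨i3, o3, _, ?_, ⟨w, rfl⟩, IsW.congr k' (u3 f hf)⟩
      rcases Finset.mem_insert.1 hw with rfl | hw
      · exact Or.inl (map_zero _)
      · rw [Finset.mem_singleton.1 hw]
        exact Or.inr (Or.inr ⟨rfl, em2⟩)
  have hS : A1 ∪ A2 ∪ A3 ⊆ S := fun f hf => by
    rcases Finset.mem_union.1 hf with hf | hf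
    · rcases Finset.mem_union.1 hf with hf | hf
      exacts [(mem_cl.1 (m1 hf)).1, (mem_cl.1 (m2 hf)).1]
    · exact (mem_cl.1 (m3 hf)).1
  refine hC (by omega) ι E O An S (A1 ∪ A2 ∪ A3) a z X i1 i2 i3 v0 (mulX s0 (X e0)) Y o1 o2 o3
    n12 n13 n23 hA hS (fun i hi τ hτ => ?_)
    (fun f hf => (hW f hf).imp fun i k => ⟨k.1, k.2.imp fun τ k' => ⟨k'.1, k'.2.2⟩⟩)
    (fun x hx => ?_) hX (fun e he => (hI e (Finset.mem_sdiff.1 he).1).2.2) R3
    (Y.sum_mem fun f hf => ?_)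
  · by_cases h0 : τ = 0
    · by_cases k : i = i3
      · obtain ⟨f, hf, k'⟩ := g3 0 (by simp)
        rw [map_zero] at k'
        exact Or.inr ⟨f, Finset.mem_union_right _ hf, k ▸ h0 ▸ IsW.congr k' (u3 f hf)⟩
      · exact Or.inl ⟨h0, h3 i hi k⟩
    · rcases hτ with k | ⟨k, ⟨w, rfl⟩, k2⟩ | ⟨rfl, rfl⟩
      · exact absurd k h0
      · have hw : w ∈ (Finset.univ \ {0, 1} : Finset (ZMod p)) := by
          have w0 : w ≠ 0 := fun e => h0 (by rw [e, map_zero])
          have w1 : w ≠ 1 := fun e => k2 (by rw [e, map_one])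
          simp [w0, w1]
        rcases k with rfl | rfl
        · obtain ⟨f, hf, k'⟩ := g1 w hw
          exact Or.inr ⟨f, Finset.mem_union_left _ (Finset.mem_union_left _ hf),
            IsW.congr k' (u1 f hf)⟩
        · obtain ⟨f, hf, k'⟩ := g2 w hw
          exact Or.inr ⟨f, Finset.mem_union_left _ (Finset.mem_union_right _ hf),
            IsW.congr k' (u2 f hf)⟩
      · obtain ⟨f, hf, k'⟩ := g3 (-2) (by simp)
        rw [em2] at k'
        exact Or.inr ⟨f, Finset.mem_union_right _ hf, IsW.congr k' (u3 f hf)⟩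
  · obtain ⟨y, hy, rfl⟩ := hx
    obtain ⟨w, hw, s, hs, hv⟩ := f1 e0 e01
    have w0 : w ≠ 0 := fun e => by simp [e] at hw
    have es : s = s0 := (hs.2 i2 o2 n12.symm).symm.trans (hs0.2 i2 o2 n12.symm)
    refine ⟨fun f => if f = e0 then w⁻¹ • y else 0, fun f _ => ?_, ?_⟩
    · by_cases k : f = e0
      · simpa [k] using (X e0).smul_mem w⁻¹ hy
      · simp [k]
    · have hm : e0 ∈ A1 ∪ A2 ∪ A3 := Finset.mem_union_left _ (Finset.mem_union_left _ e01)
      have w1 : algebraMap (ZMod p) F w ≠ 0 := (map_ne_zero _).2 w0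
      simp only [mul_ite, mul_zero, Finset.sum_ite_eq', hm, if_true]
      rw [u1 e0 e01, hv, es, Algebra.smul_def, map_inv₀]
      simp only [LinearMap.mulLeft_apply]
      field_simp
  · obtain ⟨i, hi, τ, -, hτ, s, hs, hv⟩ := hW f hf
    obtain ⟨l, hl, hne⟩ : ∃ l ∈ O, l ≠ i := by
      by_cases k : i1 = i
      · exact ⟨i2, o2, k ▸ n12.symm⟩
      · exact ⟨i1, o1, k⟩
    rw [hv, mul_assoc]
    exact Fp.mul_mem hτ ((Yh_le_jump hs hi hl hne).1 (hI f (hS hf)).2.2).1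

end Pool.Agent.MP_d99b12_co.H57
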