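import Pool.Agent.MP_d99b12_co.H57.Basic

/-! # The heavy case for `p = 3` (MP_d99b12_co) -/

namespace Pool.Agent.MP_d99b12_co.H57

open Matrix Module

variable {p : ℕ} [Fact p.Prime] {F : Type} [Field F] [Fintype F] [Algebra (ZMod p) F]

namespace H3

variable {ι E : Type} {O : Finset ι} {S A : Finset E} {a : E → ι → F} {z : E → F}
  {X : E → Submodule (ZMod p) F} {r : ℕ} {Y Y' Xs : Submodule (ZMod p) F} {i1 i2 i3 i4 : ι}
  {f1 f2 f3 f4 : E} {s1 s2 s3 s4 : F}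

/-- Three items of three different classes. -/
structure Tri (O : Finset ι) (S : Finset E) (a : E → ι → F) (i1 i2 i3 : ι) (f1 f2 f3 : E)
    (s1 s2 s3 : F) : Prop where
  o1 : i1 ∈ O
  o2 : i2 ∈ O
  o3 : i3 ∈ O
  n12 : i1 ≠ i2
  n13 : i1 ≠ i3
  n23 : i2 ≠ i3
  m1 : f1 ∈ S
  m2 : f2 ∈ S
  m3 : f3 ∈ S
  j1 : Jump O i1 (a f1) s1
  j2 : Jump O i2 (a f2) s2
  j3 : Jump O i3 (a f3) s3

omit [Fintype F] in
lemma Tri.rot (T : Tri O S a i1 i2 i3 f1 f2 f3 s1 s2 s3) : Tri O S a i2 i3 i1 f2 f3 f1 s2 s3 s1 :=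
  ⟨T.o2, T.o3, T.o1, T.n23, T.n12.symm, T.n13.symm, T.m2, T.m3, T.m1, T.j2, T.j3, T.j1⟩

omit [Fintype F] in
lemma Tri.ne (T : Tri O S a i1 i2 i3 f1 f2 f3 s1 s2 s3) : f1 ≠ f2 := fun e =>
  T.n12 (Cls.unique ⟨s1, T.j1⟩ ⟨s2, e ▸ T.j2⟩ T.o2 T.o3 T.n13.symm T.n23.symm)

set_option linter.unusedSectionVars false in
/-- The frame with the values `-s1, -s2, s3` closes. -/
lemma closeT [Fintype ι] [DecidableEq ι] [DecidableEq E] (hC : CLOSE p F) (hp : p = 3)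
    (T : Tri O S a i1 i2 i3 f1 f2 f3 s1 s2 s3) (hA : ∀ e, e ∈ A ↔ e = f1 ∨ e = f2 ∨ e = f3)
    (hX : ∀ x ∈ Xs, ∃ x1 ∈ X f1, ∃ x2 ∈ X f2, ∃ x3 ∈ X f3, x = s1 * x1 + s2 * x2 + s3 * x3)
    (h1 : Xs ≤ Y') (h2 : ∀ e ∈ S \ A, Yh O (a e) (z e) (X e) ≤ Y')
    (h3 : RC (S \ A) (fun e => Yh O (a e) (z e) (X e)) Xs Y')
    (h4 : s1 * z f1 + s2 * z f2 - s3 * z f3 ∈ Y') : Good O O S a z X := by
  have n12 := T.ne
  have n23 := T.rot.ne
  have n31 := T.rot.rot.ne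
  have h30 : (3 : F) = 0 := three_eq (p := p) hp
  have hA' : A = {f1, f2, f3} := by ext e; simp [hA]
  have hs : ∀ g : E → F, ∑ f ∈ A, g f = g f1 + g f2 + g f3 := fun g => by
    rw [hA', Finset.sum_insert (by simp [n12, n31.symm]), Finset.sum_pair n23, add_assoc]
  obtain ⟨v0, e1, e2, e3⟩ : ∃ v0 : E → F, v0 f1 = -1 * s1 ∧ v0 f2 = -1 * s2 ∧ v0 f3 = -2 * s3 :=
    ⟨fun e => if e = f1 then -1 * s1 else if e = f2 then -1 * s2 else -2 * s3, by simp,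
      by simp [n12.symm], by simp [n31, n23.symm]⟩
  have hm : (-1 : F) ≠ 1 := fun e => two_ne (p := p) (F := F) (by omega) (by linear_combination -e)
  refine hC (by omega) ι E O O S A a z X i1 i2 i3 v0 Xs Y' T.o1 T.o2 T.o3 T.n12 T.n13 T.n23
    (al_self ⟨i1, T.o1⟩) (fun e he => ?_) (fun i hi τ hτ => ?_) (fun f hf => ?_) (fun x hx => ?_)
    h1 h2 h3 ?_
  · rcases (hA e).1 he with rfl | rfl | rfl
    exacts [T.m1, T.m2, T.m3]
  · rcases hτ with k | ⟨k, k1, k2⟩ | ⟨rfl, rfl⟩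
    · exact Or.inl ⟨k, hi⟩
    · rcases Fp.three hp k1 with k0 | k0 | rfl
      · exact Or.inl ⟨k0, hi⟩
      · exact absurd k0 k2
      · rcases k with rfl | rfl
        · exact Or.inr ⟨f1, (hA _).2 (Or.inl rfl), s1, T.j1, e1⟩
        · exact Or.inr ⟨f2, (hA _).2 (Or.inr (Or.inl rfl)), s2, T.j2, e2⟩
    · exact Or.inr ⟨f3, (hA _).2 (Or.inr (Or.inr rfl)), s3, T.j3, e3⟩
  · rcases (hA f).1 hf with rfl | rfl | rfl
    · exact ⟨i1, T.o1, -1, Or.inr (Or.inl ⟨Or.inl rfl, Fp.neg Fp.one, hm⟩), s1, T.j1, e1⟩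
    · exact ⟨i2, T.o2, -1, Or.inr (Or.inl ⟨Or.inr rfl, Fp.neg Fp.one, hm⟩), s2, T.j2, e2⟩
    · exact ⟨i3, T.o3, -2, Or.inr (Or.inr ⟨rfl, rfl⟩), s3, T.j3, e3⟩
  · obtain ⟨x1, k1, x2, k2, x3, k3, rfl⟩ := hX x hx
    refine ⟨fun e => if e = f1 then -x1 else if e = f2 then -x2 else x3, fun f hf => ?_, ?_⟩
    · rcases (hA f).1 hf with rfl | rfl | rfl
      · simpa using k1
      · simpa [n12.symm] using k2
      · simpa [n31, n23.symm] using k3
    · rw [hs, e1, e2, e3]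
      simp only [if_true, if_neg n12.symm, if_neg n31, if_neg n23.symm]
      linear_combination (s3 * x3) * h30
  · rw [hs, e1, e2, e3]
    convert Y'.neg_mem h4 using 1
    linear_combination (-s3 * z f3) * h30

omit [Fintype F] in
/-- Outside a hyperplane there are two classes. -/
lemma pm [Finite F] (hp : p = 3) (h : finrank (ZMod p) Y = finrank (ZMod p) Y' + 1) (hY : Y' ≤ Y)
    {w w' : F} (hw : w ∈ Y) (hw' : w' ∈ Y) (k : w ∉ Y') (k' : w' ∉ Y') :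
    w - w' ∈ Y' ∨ w + w' ∈ Y' := by
  have h1 : Y' < Y' ⊔ Submodule.span (ZMod p) {w} :=
    lt_of_le_of_ne le_sup_left fun e => k (e ▸ Submodule.mem_sup_right (Submodule.subset_span rfl))
  have h2 : Y' ⊔ Submodule.span (ZMod p) {w} = Y :=
    Submodule.eq_of_le_of_finrank_le (sup_le hY ((Submodule.span_singleton_le_iff_mem _ _).2 hw))
      (by have := Submodule.finrank_lt_finrank_of_lt h1; omega)
  obtain ⟨y, hy, _, hc, rfl⟩ := Submodule.mem_sup.1 (h2 ▸ hw')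
  obtain ⟨c, rfl⟩ := Submodule.mem_span_singleton.1 hc
  rw [Algebra.smul_def] at k' ⊢
  rcases Fp.three hp (⟨c, rfl⟩ : algebraMap (ZMod p) F c ∈ Fp (F := F) p) with e | e | e
  · exact absurd (by simpa [e] using hy) k'
  · exact Or.inl (by simpa [e] using hy)
  · exact Or.inr (by simpa [e] using hy)

/-- The failure of a triple. -/
structure Fail (O : Finset ι) (S : Finset E) (a : E → ι → F) (z : E → F)
    (X : E → Submodule (ZMod p) F) (Y : Submodule (ZMod p) F) (f1 f2 f3 : E) (s1 s2 s3 : F)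
    (Y' : Submodule (ZMod p) F) : Prop where
  le : Y' ≤ Y
  rk : finrank (ZMod p) Y = finrank (ZMod p) Y' + 1
  out : ∀ e ∈ S, e ≠ f1 → e ≠ f2 → e ≠ f3 → Yh O (a e) (z e) (X e) ≤ Y'
  x1 : mulX s1 (X f1) ≤ Y'
  w3 : s3 * z f3 ∉ Y'
  w12 : s1 * z f1 - s2 * z f2 ∈ Y'

lemma triple [Fintype ι] [DecidableEq ι] [DecidableEq E] (hC : CLOSE p F) (hp : p = 3)
    (T : Tri O S a i1 i2 i3 f1 f2 f3 s1 s2 s3) (hI : Items O S a z X r Y)
    (hN : NoA O S a z X r Y) :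
    Good O O S a z X ∨ ∃ Y', Fail O S a z X Y f1 f2 f3 s1 s2 s3 Y' := by
  have h30 : (3 : F) = 0 := three_eq (p := p) hp
  obtain ⟨A, hA⟩ : ∃ A : Finset E, ∀ e, e ∈ A ↔ e = f1 ∨ e = f2 ∨ e = f3 :=
    ⟨{f1, f2, f3}, by simp⟩
  have hA3 : A.card ≤ 3 := by
    rw [show A = {f1, f2, f3} by ext e; simp [hA]]; exact Finset.card_le_three
  obtain ⟨Xs, hXs⟩ : ∃ Xs, Xs = mulX s1 (X f1) ⊔ mulX s2 (X f2) ⊔ mulX s3 (X f3) := ⟨_, rfl⟩
  have l1 : mulX s1 (X f1) ≤ Xs := hXs ▸ le_sup_left.trans le_sup_left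
  have l2 : mulX s2 (X f2) ≤ Xs := hXs ▸ le_sup_right.trans le_sup_left
  have l3 : mulX s3 (X f3) ≤ Xs := hXs ▸ le_sup_right
  have hX : ∀ x ∈ Xs, ∃ x1 ∈ X f1, ∃ x2 ∈ X f2, ∃ x3 ∈ X f3,
      x = s1 * x1 + s2 * x2 + s3 * x3 := fun x hx => by
    obtain ⟨y, hy, _, ⟨x3, k3, rfl⟩, rfl⟩ := Submodule.mem_sup.1 (hXs ▸ hx)
    obtain ⟨_, ⟨x1, k1, rfl⟩, _, ⟨x2, k2, rfl⟩, rfl⟩ := Submodule.mem_sup.1 hy
    exact ⟨x1, k1, x2, k2, x3, k3, rfl⟩
  have y1 := fun Z => Yh_le_jump (w := z f1) (Y := X f1) (Y' := Z) T.j1 T.o1 T.o2 T.n12.symm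
  have y2 := fun Z => Yh_le_jump (w := z f2) (Y := X f2) (Y' := Z) T.j2 T.o2 T.o1 T.n12
  have y3 := fun Z => Yh_le_jump (w := z f3) (Y := X f3) (Y' := Z) T.j3 T.o3 T.o1 T.n13
  obtain ⟨z1, u1⟩ := (y1 Y).1 (hI f1 T.m1).2.2
  obtain ⟨z2, u2⟩ := (y2 Y).1 (hI f2 T.m2).2.2
  obtain ⟨z3, u3⟩ := (y3 Y).1 (hI f3 T.m3).2.2
  have hXY : Xs ≤ Y := hXs ▸ sup_le (sup_le u1 u2) u3
  have hr : r ≤ finrank (ZMod p) Xs :=
    (hI f1 T.m1).2.1.trans ((finrank_mulX T.j1.1 _).symm.trans_le (Submodule.finrank_mono l1))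
  -- the count outside `A`
  have cnt : ∀ Z, Xs ≤ Z → Z < Y → ∀ B : Finset E, (∀ e ∈ A, ¬Yh O (a e) (z e) (X e) ≤ Z → e ∈ B) →
      2 * (finrank (ZMod p) Y - finrank (ZMod p) Z) <
        (DD (S \ A) (fun e => Yh O (a e) (z e) (X e)) Z).card + B.card := fun Z k1 k2 B hB => by
    have := hN Z k2 (hr.trans (Submodule.finrank_mono k1))
    rw [show p - 1 = 2 by omega] at this
    refine this.trans_le ((Finset.card_le_card fun e he => ?_).trans (Finset.card_union_le _ _))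
    obtain ⟨c1, c2⟩ := mem_DD.1 he
    by_cases k : e ∈ A
    · exact Finset.mem_union_right _ (hB e k c2)
    · exact Finset.mem_union_left _ (mem_DD.2 ⟨Finset.mem_sdiff.2 ⟨c1, k⟩, c2⟩)
  by_cases hR : RC (S \ A) (fun e => Yh O (a e) (z e) (X e)) Xs Y
  · exact Or.inl (closeT hC hp T hA hX hXY (fun e he => (hI e (Finset.mem_sdiff.1 he).1).2.2) hR
      (Y.sub_mem (Y.add_mem z1 z2) z3))
  simp only [RC, not_forall, not_le] at hR
  obtain ⟨Y', k1, k2, k3⟩ := hR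
  have k4 : Y' < Y := lt_of_le_of_ne k2 (by rintro rfl; omega)
  have k5 := cnt Y' k1 k4 A fun e he _ => he
  have rk : finrank (ZMod p) Y = finrank (ZMod p) Y' + 1 := by omega
  have d0 : (DD (S \ A) (fun e => Yh O (a e) (z e) (X e)) Y').card = 0 := by omega
  have out : ∀ e ∈ S \ A, Yh O (a e) (z e) (X e) ≤ Y' := fun e he => by
    by_contra k
    exact Finset.card_ne_zero_of_mem (mem_DD.2 ⟨he, k⟩) d0
  have inn : ∀ f ∈ A, ¬Yh O (a f) (z f) (X f) ≤ Y' := fun f hf k => by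
    have := cnt Y' k1 k4 (A.erase f) fun e he k' =>
      Finset.mem_erase.2 ⟨by rintro rfl; exact k' k, he⟩
    rw [Finset.card_erase_of_mem hf] at this
    omega
  have w1 : s1 * z f1 ∉ Y' := fun k =>
    inn f1 ((hA _).2 (Or.inl rfl)) ((y1 Y').2 ⟨k, l1.trans k1⟩)
  have w2 : s2 * z f2 ∉ Y' := fun k =>
    inn f2 ((hA _).2 (Or.inr (Or.inl rfl))) ((y2 Y').2 ⟨k, l2.trans k1⟩)
  have w3 : s3 * z f3 ∉ Y' := fun k =>
    inn f3 ((hA _).2 (Or.inr (Or.inr rfl))) ((y3 Y').2 ⟨k, l3.trans k1⟩)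
  have hR' : RC (S \ A) (fun e => Yh O (a e) (z e) (X e)) Xs Y' := fun Z c1 c2 => by
    have := cnt Z c1 (c2.trans_lt k4) A fun e he _ => he
    have := Submodule.finrank_mono c2
    omega
  rcases pm hp rk k2 z1 z2 w1 w2 with c | c
  · exact (pm hp rk k2 z1 z3 w1 w3).elim (fun _ => Or.inr ⟨Y', k2, rk, fun e he c1 c2 c3 =>
      out e (Finset.mem_sdiff.2 ⟨he, by simp [hA, c1, c2, c3]⟩), l1.trans k1, w3, c⟩) fun c' =>
      Or.inl (closeT hC hp T hA hX k1 out hR' (by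
        convert Y'.neg_mem (Y'.add_mem c c') using 1
        linear_combination (s1 * z f1) * h30))
  · rcases pm hp rk k2 z1 z3 w1 w3 with c' | c'
    · refine Or.inl (closeT hC hp T.rot.rot (fun e => (hA e).trans (by tauto)) (fun x hx => ?_) k1
        out hR' ?_)
      · obtain ⟨x1, c1, x2, c2, x3, c3, rfl⟩ := hX x hx
        exact ⟨x3, c3, x1, c1, x2, c2, by ring⟩
      · convert Y'.neg_mem (Y'.add_mem c c') using 1
        linear_combination (s1 * z f1) * h30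
    · refine Or.inl (closeT hC hp T.rot (fun e => (hA e).trans (by tauto)) (fun x hx => ?_) k1
        out hR' ?_)
      · obtain ⟨x1, c1, x2, c2, x3, c3, rfl⟩ := hX x hx
        exact ⟨x2, c2, x3, c3, x1, c1, by ring⟩
      · convert Y'.add_mem c c' using 1
        linear_combination (-s1 * z f1) * h30

/-- Two triples that share two items cannot both fail. -/
lemma two [Fintype ι] [DecidableEq ι] [DecidableEq E] (hC : CLOSE p F) (hp : p = 3)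
    (T : Tri O S a i1 i2 i3 f1 f2 f3 s1 s2 s3) (T' : Tri O S a i1 i2 i4 f1 f2 f4 s1 s2 s4)
    (hne : f4 ≠ f3) (hI : Items O S a z X r Y) (hN : NoA O S a z X r Y) : Good O O S a z X := by
  rcases triple hC hp T hI hN with k | ⟨Y1, h1⟩
  · exact k
  rcases triple hC hp T' hI hN with k | ⟨Y2, h2⟩
  · exact k
  exfalso
  have lt : Y1 ⊓ Y2 < Y := lt_of_le_of_ne (inf_le_left.trans h1.le) fun e => by
    have := Submodule.finrank_mono (inf_le_left : Y1 ⊓ Y2 ≤ Y1)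
    have := h1.rk
    rw [e] at *
    omega
  have hr : r ≤ finrank (ZMod p) ↥(Y1 ⊓ Y2) := (hI f1 T.m1).2.1.trans
    ((finrank_mulX T.j1.1 _).symm.trans_le (Submodule.finrank_mono (le_inf h1.x1 h2.x1)))
  have c1 := hN _ lt hr
  have c2 : (DD S (fun e => Yh O (a e) (z e) (X e)) (Y1 ⊓ Y2)).card ≤ 4 := by
    refine (Finset.card_le_card (t := {f1, f2, f3, f4}) fun e he => ?_).trans Finset.card_le_four
    obtain ⟨k1, k2⟩ := mem_DD.1 he
    by_contra k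
    simp only [Finset.mem_insert, Finset.mem_singleton, not_or] at k
    exact k2 (le_inf (h1.out e k1 k.1 k.2.1 k.2.2.1) (h2.out e k1 k.1 k.2.1 k.2.2.2))
  rw [show p - 1 = 2 by omega] at c1
  have e : Y1 ⊓ Y2 = Y1 :=
    Submodule.eq_of_le_of_finrank_le inf_le_left (by have := h1.rk; omega)
  have := (h1.out f4 T'.m3 T'.rot.rot.ne T'.rot.ne.symm hne).trans (inf_eq_left.1 e)
  exact h2.w3 ((Yh_le_jump T'.j3 T'.o3 T'.o1 T'.n13).1 this).1

/-- The last case: a star along the edge `i1, i2`. -/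
lemma last [Fintype ι] [DecidableEq ι] [DecidableEq E] (hG : GO p) (hp : p = 3)
    (T : Tri O S a i1 i2 i3 f1 f2 f3 s1 s2 s3) (hI : Items O S a z X r Y)
    (h : Fail O S a z X Y f1 f2 f3 s1 s2 s3 Y')
    (hl : ∀ e ∈ S, e ≠ f1 → e ≠ f2 → e ≠ f3 → a e i1 - a e i2 ≠ 0)
    (hc : 2 * (finrank (ZMod p) Y - r) < S.card) : Good O O S a z X := by
  have q1 : a f1 i1 - a f1 i2 = s1 := T.j1.2 i2 T.o2 T.n12.symm
  have q2 : a f2 i1 - a f2 i2 = -s2 := by linear_combination -T.j2.2 i1 T.o1 T.n12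
  have mem : ∀ e, e ∈ (S.erase f2).erase f3 ↔ e ≠ f3 ∧ e ≠ f2 ∧ e ∈ S := by simp
  have hl' : ∀ e ∈ (S.erase f2).erase f3, a e i1 - a e i2 ≠ 0 := fun e he => by
    obtain ⟨k3, k2, k⟩ := (mem e).1 he
    by_cases k1 : e = f1
    · rw [k1, q1]; exact T.j1.1
    · exact hl e k k1 k2 k3
  have hr : r ≤ finrank (ZMod p) Y' := (hI f1 T.m1).2.1.trans
    ((finrank_mulX T.j1.1 _).symm.trans_le (Submodule.finrank_mono h.x1))
  obtain ⟨I, hIS, hne, ξ, hξ, hs⟩ := hG F E ((S.erase f2).erase f3)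
    (fun e => (a e i1 - a e i2) * z e + if e = f1 then -s2 * z f2 else 0)
    (fun e => mulX (a e i1 - a e i2) (X e)) Y' r (fun e he => by
      obtain ⟨k3, k2, k⟩ := (mem e).1 he
      have k0 := (hI e k).2.1.trans (finrank_mulX (hl' e he) _).ge
      by_cases k1 : e = f1
      · subst k1
        refine ⟨?_, q1 ▸ h.x1, k0⟩
        simpa [q1, sub_eq_add_neg] using h.w12
      · have := h.out e k k1 k2 k3
        exact ⟨by simpa [k1] using this (z_mem_Yh T.o1 T.o2 _),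
          (mulX_le_Yh T.o1 T.o2 _).trans this, k0⟩) (by
      rw [Finset.card_erase_of_mem (Finset.mem_erase.2 ⟨T.rot.ne.symm, T.m3⟩),
        Finset.card_erase_of_mem T.m2, show p - 1 = 2 by omega]
      have := h.rk
      omega)
  choose! ξ' hξ' eξ using fun e he => mem_mulX.1 (hξ e he)
  have n2 : f2 ∉ I := fun k => ((mem _).1 (hIS k)).2.1 rfl
  have sub : insert f2 I ⊆ S := Finset.insert_subset T.m2 fun e he => ((mem e).1 (hIS he)).2.2
  refine ⟨fun e => if e ∈ I ∨ (e = f2 ∧ f1 ∈ I) then a e i1 - a e i2 else 0, ?_, ?_, ?_⟩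
  · obtain ⟨e, he⟩ := hne
    exact ⟨e, sub (Finset.mem_insert_of_mem he), by simpa [he] using hl' e (hIS he)⟩
  · refine PIN.star (al_self ⟨i1, T.o1⟩) T.o1 T.o2 T.n12 (fun l hl _ _ => hl) fun e _ => ?_
    split_ifs
    exacts [Or.inr rfl, Or.inl rfl]
  · refine Sol.ext ⟨fun e => if e ∈ I then ξ' e else 0, fun e _ => ?_, ?_⟩ sub fun e _ k => ?_
    · by_cases k : e ∈ I
      · simpa [k] using hξ' e k
      · simp [k]
    · rw [Finset.sum_insert n2]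
      refine Eq.trans ?_ hs
      have : ∑ e ∈ I, ((a e i1 - a e i2) * z e + (if e = f1 then -s2 * z f2 else 0) + ξ e) =
          (if f1 ∈ I then -s2 * z f2 else 0) + ∑ e ∈ I, (a e i1 - a e i2) * (z e + ξ' e) := by
        rw [← Finset.sum_ite_eq' I f1 fun _ => -s2 * z f2, ← Finset.sum_add_distrib]
        exact Finset.sum_congr rfl fun e he => by rw [← eξ e he]; ring
      rw [this]
      congr 1
      · by_cases k : f1 ∈ I <;> simp [k, n2, q2]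
      · exact Finset.sum_congr rfl fun e he => by simp [he]
    · simp only [Finset.mem_insert, not_or] at k
      simp [k.1, k.2]

end H3

open H3 in
theorem heavy3 (hC : CLOSE p F) (hG : GO p) : HEAVY3 p F := by
  intro hp ι E _ _ _ O S a z X r Y hO hI hN hcl hc
  obtain ⟨i1, o1, i2, o2, i3, o3, n12, n13, n23⟩ := Finset.two_lt_card.1 hO
  obtain ⟨f1, m1, s1, j1⟩ := hcl i1 o1
  obtain ⟨f2, m2, s2, j2⟩ := hcl i2 o2
  obtain ⟨f3, m3, s3, j3⟩ := hcl i3 o3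
  have T : Tri O S a i1 i2 i3 f1 f2 f3 s1 s2 s3 := ⟨o1, o2, o3, n12, n13, n23, m1, m2, m3, j1, j2, j3⟩
  by_cases hx : ∃ e ∈ S, e ≠ f1 ∧ e ≠ f2 ∧ e ≠ f3 ∧ ∃ j ∈ O, Cls O j (a e)
  · obtain ⟨e, he, k1, k2, k3, j, hj, s, hs⟩ := hx
    by_cases c1 : j = i1
    · subst c1
      exact two hC hp T.rot ⟨o2, o3, o1, n23, n12.symm, n13.symm, m2, m3, he, j2, j3, hs⟩ k1 hI hN
    by_cases c2 : j = i2
    · subst c2
      exact two hC hp T.rot.rot ⟨o3, o1, o2, n13.symm, n23.symm, n12, m3, m1, he, j3, j1, hs⟩ k2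
        hI hN
    exact two hC hp T ⟨o1, o2, hj, n12, Ne.symm c1, Ne.symm c2, m1, m2, he, j1, j2, hs⟩ k3 hI hN
  rcases triple hC hp T hI hN with k | ⟨Y', h⟩
  · exact k
  have hO3 : ∀ l ∈ O, l = i1 ∨ l = i2 ∨ l = i3 := fun l hl => by
    obtain ⟨f, hf, hc⟩ := hcl l hl
    by_cases c1 : f = f1
    · by_cases c : l = i2
      · exact Or.inr (Or.inl c)
      · exact Or.inl (Cls.unique hc ⟨s1, c1 ▸ j1⟩ o1 o2 (Ne.symm c) n12.symm)
    by_cases c2 : f = f2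
    · by_cases c : l = i1
      · exact Or.inl c
      · exact Or.inr (Or.inl (Cls.unique hc ⟨s2, c2 ▸ j2⟩ o2 o1 (Ne.symm c) n12))
    by_cases c3 : f = f3
    · by_cases c : l = i1
      · exact Or.inl c
      · exact Or.inr (Or.inr (Cls.unique hc ⟨s3, c3 ▸ j3⟩ o3 o1 (Ne.symm c) n13))
    exact absurd ⟨f, hf, c1, c2, c3, l, hl, hc⟩ hx
  refine last hG hp T hI h (fun e he k1 k2 k3 k => hx ⟨e, he, k1, k2, k3, i3, o3, ?_⟩) hc
  by_contra hn
  obtain ⟨x, hx, y, hy, k'⟩ := (hI e he).1.erase hn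
  have k0 : ∀ l ∈ O.erase i3, a e l = a e i1 := fun l hl => by
    rcases hO3 l (Finset.mem_erase.1 hl).2 with c | c | c
    exacts [c ▸ rfl, c ▸ (sub_eq_zero.1 k).symm, absurd c (Finset.mem_erase.1 hl).1]
  exact k' ((k0 x hx).trans (k0 y hy).symm)

end Pool.Agent.MP_d99b12_co.H57
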