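import Pool.Agent.MP_d99b12_co.H57.Basic

/-! # Killers that keep all the other lattices injective -/

namespace Pool.Agent.MP_d99b12_co.H57

open Matrix Module Submodule

namespace KX

variable {F : Type} [Field F] {E J : Type} [Fintype J]

lemma orth {W : Submodule F (J → F)} (h : W ≠ ⊤) : ∃ x, x ≠ 0 ∧ ∀ w ∈ W, w ⬝ᵥ x = 0 := by
  classical
  obtain ⟨f, hf, hf'⟩ := W.exists_le_ker_of_lt_top h.lt_top
  have h1 : ∀ v, f v = v ⬝ᵥ fun i => f fun j => if i = j then 1 else 0 := fun v => by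
    rw [LinearMap.pi_apply_eq_sum_univ]
    rfl
  exact ⟨_, fun h2 => hf (LinearMap.ext fun v => by simp [h1 v, h2]),
    fun w hw => (h1 w).symm.trans (hf' hw)⟩

lemma orth' {K : Finset E} (u : E → J → F) (h : K.card < Fintype.card J) :
    ∃ x, x ≠ 0 ∧ ∀ w ∈ span F (u '' K), w ⬝ᵥ x = 0 := by
  classical
  refine orth fun e => ?_
  have := (finrank_span_finset_le_card (R := F) (K.image u)).trans Finset.card_image_le
  rw [Set.finrank, Finset.coe_image, e, finrank_top, finrank_fintype_fun_eq_card] at this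
  omega

omit [Fintype J] in
lemma exch {U : Submodule F (J → F)} {l w : J → F} (h : l ∈ U ⊔ span F {w}) (h' : l ∉ U) :
    U ⊔ span F {l} = U ⊔ span F {w} := by
  refine le_antisymm (sup_le le_sup_left ((span_singleton_le_iff_mem _ _).2 h))
    (sup_le le_sup_left ((span_singleton_le_iff_mem _ _).2 ?_))
  obtain ⟨u, hu, _, hc, e⟩ := mem_sup.1 h
  obtain ⟨c, rfl⟩ := mem_span_singleton.1 hc
  have h0 : c ≠ 0 := fun h0 => h' (by simpa [← e, h0] using hu)
  have : w = c⁻¹ • (l - u) := by rw [← e, add_sub_cancel_left, inv_smul_smul₀ h0]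
  rw [this]
  exact smul_mem _ _ (sub_mem (mem_sup_right (mem_span_singleton_self l)) (mem_sup_left hu))

omit [Fintype J] in
lemma ins [DecidableEq E] (t ζ : E → J → F) {K : Finset E} {y : E} (hy : y ∉ K) (ξ : J → F) :
    span F ((fun e => t e + Function.update ζ y ξ e) '' (insert y K : Finset E))
      = span F ((fun e => t e + ζ e) '' K) ⊔ span F {t y + ξ} := by
  rw [Finset.coe_insert, Set.image_insert_eq, span_insert, sup_comm, Function.update_self,
    Set.image_congr fun e he => by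
      rw [Function.update_of_ne fun h : e = y => hy (h ▸ he)]]

lemma count {V α : Type} [AddCommGroup V] [Finite V] (T : Finset E) (Λ : E → AddSubgroup V)
    (W : E × V → α) (L : V → α) (hT : T.Nonempty)
    (h1 : ∀ a b : E × V, a.1 ∈ T → a.2 ∈ Λ a.1 → b.1 ∈ T → b.2 ∈ Λ b.1 → W a = W b →
      a.1 = b.1 ∧ (a.2 ≠ b.2 → L (a.2 - b.2) = W a))
    (h2 : ∀ a : E × V, a.1 ∈ T → a.2 ∈ Λ a.1 → ∃ b : E × V, b.1 ∈ T ∧ b.2 ∈ Λ b.1 ∧ b.2 ≠ 0 ∧
      b.1 ≠ a.1 ∧ L b.2 = W a) : False := by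
  classical
  have : Nonempty E := ⟨hT.choose⟩
  let P : Set (E × V) := {a | a.1 ∈ T ∧ a.2 ∈ Λ a.1}
  have hP : P.Finite := (T.finite_toSet.prod Set.finite_univ).subset fun a h => ⟨h.1, trivial⟩
  choose! ex e1 e2 e3 e4 e5 using h2
  have hb : ∀ a ∈ P, Function.invFunOn W P (W a) ∈ P ∧ W (Function.invFunOn W P (W a)) = W a :=
    fun a h => Function.invFunOn_pos ⟨a, h, rfl⟩
  let f : E × V → E × V := fun a => if a = Function.invFunOn W P (W a) then ex a
    else (a.1, a.2 - (Function.invFunOn W P (W a)).2)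
  have hf : ∀ a ∈ P, f a ∈ P ∧ (f a).2 ≠ 0 ∧ L (f a).2 = W a := by
    intro a h
    by_cases e : a = Function.invFunOn W P (W a)
    · rw [show f a = ex a from if_pos e]
      exact ⟨⟨e1 a h.1 h.2, e2 a h.1 h.2⟩, e3 a h.1 h.2, e5 a h.1 h.2⟩
    · obtain ⟨k1, k2⟩ := h1 a _ h.1 h.2 (hb a h).1.1 (hb a h).1.2 (hb a h).2.symm
      have k3 : a.2 ≠ (Function.invFunOn W P (W a)).2 := fun k => e (Prod.ext k1 k)
      rw [show f a = _ from if_neg e]
      exact ⟨⟨h.1, sub_mem h.2 (k1 ▸ (hb a h).1.2)⟩, sub_ne_zero.2 k3, k2 k3⟩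
  have hi : Set.InjOn f P := by
    intro a h a' h' e
    have k : W a = W a' := by rw [← (hf a h).2.2, e, (hf a' h').2.2]
    have k1 := (h1 a a' h.1 h.2 h'.1 h'.2 k).1
    simp only [f] at e
    split_ifs at e with c c' c'
    · rw [c, k, ← c']
    · exact absurd ((congrArg Prod.fst e).trans k1.symm) (e4 a h.1 h.2)
    · exact absurd ((congrArg Prod.fst e).symm.trans k1) (e4 a' h'.1 h'.2)
    · rw [k] at e
      exact Prod.ext k1 (sub_left_injective (congrArg Prod.snd e))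
  obtain ⟨y, hy⟩ := hT
  obtain ⟨a, ha, e⟩ := ((hP.injOn_iff_bijOn_of_mapsTo fun a h => (hf a h).1).1 hi).surjOn
    (show (y, 0) ∈ P from ⟨hy, zero_mem _⟩)
  exact (hf a ha).2.1 (congrArg Prod.snd e)

end KX

variable {p : ℕ} [Fact p.Prime] {F : Type} [Field F] [Fintype F] [Algebra (ZMod p) F]

open KX in
theorem killx : KILLX p F := by
  classical
  intro E J _ S t Λ h1 hS H
  have hA : ∀ K ⊆ S, ∀ ζ : E → J → F, (∀ e ∈ K, ζ e ∈ Λ e) → K.card < Fintype.card J →
      ∀ y ∈ S, y ∉ K → ∀ ξ ∈ Λ y, t y + ξ ∉ span F ((fun e => t e + ζ e) '' K) := by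
    intro K hK ζ hζ hc y hy hy' ξ hξ hm
    obtain ⟨K', k1, k2, k3⟩ := Finset.exists_subsuperset_card_eq (n := Fintype.card J)
      (Finset.insert_subset hy hK) (by rw [Finset.card_insert_of_notMem hy']; omega) hS
    have k4 : y ∈ K' := k1 (Finset.mem_insert_self _ _)
    let ζ' : E → J → F := fun e => if e ∈ K then ζ e else if e = y then ξ else 0
    obtain ⟨x, x0, hx⟩ := orth' (K := K'.erase y) (fun e => t e + ζ' e)
      (k3 ▸ Finset.card_erase_lt_of_mem k4)
    refine x0 (H K' k2 k3 ζ' (fun e _ => ?_) x fun e he => hx _ ?_)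
    · simp only [ζ']
      split_ifs with c c'
      exacts [hζ e c, c' ▸ hξ, zero_mem _]
    · by_cases c : e = y
      · simp only [ζ', c, if_neg hy', if_true]
        refine span_mono ?_ hm
        rintro _ ⟨a, ha, rfl⟩
        exact ⟨a, Finset.mem_erase.2 ⟨fun h => hy' (h ▸ ha), k1 (Finset.mem_insert_of_mem ha)⟩,
          by simp only [if_pos (Finset.mem_coe.1 ha)]⟩
      · exact subset_span ⟨e, Finset.mem_erase.2 ⟨c, he⟩, rfl⟩
  have hu : ∀ {K : Finset E} {ζ : E → J → F} {y : E} {ξ : J → F}, (∀ e ∈ K, ζ e ∈ Λ e) → ξ ∈ Λ y →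
      ∀ e ∈ insert y K, Function.update ζ y ξ e ∈ Λ e := by
    intro K ζ y ξ hζ hξ e he
    by_cases c : e = y
    · rwa [c, Function.update_self]
    · rw [Function.update_of_ne c]
      exact hζ e ((Finset.mem_insert.1 he).resolve_left c)
  have hN : ∀ K : Finset E, K.card < Fintype.card J → (S \ K).Nonempty := fun K h =>
    Finset.sdiff_nonempty.2 fun h' => by have := Finset.card_le_card h'; omega
  have key : ∀ j, j < Fintype.card J → ∃ K ⊆ S, K.card = j ∧ ∃ ζ : E → J → F,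
      (∀ e ∈ K, ζ e ∈ Λ e) ∧
      ∀ e ∈ S, e ∉ K → ∀ l ∈ Λ e, l ∈ span F ((fun e => t e + ζ e) '' K) → l = 0 := by
    intro j hj
    induction j with
    | zero => exact ⟨∅, by simp, rfl, 0, by simp, by simp⟩
    | succ j ih =>
      obtain ⟨K, hK, rfl, ζ, hζ, hI⟩ := ih (by omega)
      by_contra hc
      push Not at hc
      refine count (S \ K) (fun e => (Λ e).toAddSubgroup)
        (fun a => span F ((fun e => t e + ζ e) '' K) ⊔ span F {t a.1 + a.2})
        (fun l => span F ((fun e => t e + ζ e) '' K) ⊔ span F {l}) (hN K (by omega))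
        (fun a b ha ha' hb hb' e => ?_) fun a ha ha' => ?_
      · rw [Finset.mem_sdiff] at ha hb
        have k : t b.1 + b.2 ∈ span F ((fun e => t e + ζ e) '' K) ⊔ span F {t a.1 + a.2} :=
          e ▸ mem_sup_right (mem_span_singleton_self _)
        have k1 : a.1 = b.1 := by
          by_contra c
          refine hA _ (Finset.insert_subset ha.1 hK) _ (hu hζ ha') ?_ b.1 hb.1 ?_ b.2 hb'
            ((ins t ζ ha.2 a.2).symm ▸ k)
          · rwa [Finset.card_insert_of_notMem ha.2]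
          · simp [hb.2, Ne.symm c]
        refine ⟨k1, fun c => exch ?_ fun k2 => c (sub_eq_zero.1
          (hI a.1 ha.1 ha.2 _ (sub_mem ha' (k1 ▸ hb')) k2))⟩
        rw [← add_sub_add_left_eq_sub _ _ (t a.1)]
        exact sub_mem (mem_sup_right (mem_span_singleton_self _)) (k1 ▸ k)
      · rw [Finset.mem_sdiff] at ha
        obtain ⟨e, k1, k2, l, k3, k4, k5⟩ := hc _ (Finset.insert_subset ha.1 hK)
          (Finset.card_insert_of_notMem ha.2) _ (hu hζ ha')
        rw [ins t ζ ha.2] at k4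
        rw [Finset.mem_insert, not_or] at k2
        exact ⟨(e, l), Finset.mem_sdiff.2 ⟨k1, k2.2⟩, k3, k5, k2.1,
          exch k4 fun k => k5 (hI e k1 k2.2 l k3 k)⟩
  obtain ⟨K, hK, hc, ζ, hζ, hI⟩ := key (Fintype.card J - 1) (by omega)
  obtain ⟨x, x0, hx⟩ := orth' (K := K) (fun e => t e + ζ e) (by omega)
  refine ⟨K, hK, by omega, ζ, x, hζ, x0, fun e he => hx _ (subset_span ⟨e, he, rfl⟩),
    fun e he he' l hl hlx => hI e he he' l hl (by_contra fun c => ?_)⟩
  have k0 : ∀ x', (∀ w ∈ span F ((fun e => t e + ζ e) '' K) ⊔ span F {t e + 0}, w ⬝ᵥ x' = 0) →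
      x' = 0 := fun x' h => H _ (Finset.insert_subset he hK)
    (by rw [Finset.card_insert_of_notMem he']; omega) _ (hu hζ (zero_mem (Λ e))) x'
    fun a ha => h _ (ins t ζ he' 0 ▸ subset_span ⟨a, ha, rfl⟩)
  have k1 : span F ((fun e => t e + ζ e) '' K) ⊔ span F {t e + 0} = ⊤ := by_contra fun h =>
    let ⟨x', a, b⟩ := orth h
    a (k0 x' b)
  refine x0 (k0 x fun w hw => ?_)
  rw [← exch (k1 ▸ mem_top) c] at hw
  obtain ⟨u, hu, _, hc, rfl⟩ := mem_sup.1 hw
  obtain ⟨c, rfl⟩ := mem_span_singleton.1 hc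
  rw [add_dotProduct, hx u hu, smul_dotProduct, hlx, smul_zero, add_zero]

end Pool.Agent.MP_d99b12_co.H57
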