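import Pool.Agent.MP_d99b12_co.H57.Basic

/-! # Free item, nothing can be dropped, at least four indices (MP_d99b12_co) -/

namespace Pool.Agent.MP_d99b12_co.H57

open Matrix Module

namespace UH4

variable {p : ℕ} [Fact p.Prime] {F : Type} [Field F] [Fintype F] [Algebra (ZMod p) F] {ι E : Type}

omit [Fintype F] in
lemma viol [DecidableEq E] {S : Finset E} {Z : E → Submodule (ZMod p) F}
    {X G Y₁ : Submodule (ZMod p) F} (h : ∀ Y, X ≤ Y → Y ≤ G →
      finrank (ZMod p) G ≤ finrank (ZMod p) Y + (DD S Z Y).card + 1) (h1 : Y₁ ≤ G)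
    (h2 : finrank (ZMod p) Y₁ + (DD S Z Y₁).card < finrank (ZMod p) G) :
    RC (S \ DD S Z Y₁) Z X Y₁ := fun Y a b => by
  have h3 := h Y a (b.trans h1)
  have h4 : DD S Z Y ⊆ DD (S \ DD S Z Y₁) Z Y ∪ DD S Z Y₁ := fun e he => by
    by_cases k : e ∈ DD S Z Y₁
    · exact Finset.mem_union_right _ k
    · exact Finset.mem_union_left _
        (mem_DD.2 ⟨Finset.mem_sdiff.2 ⟨(mem_DD.1 he).1, k⟩, (mem_DD.1 he).2⟩)
  have := (Finset.card_le_card h4).trans (Finset.card_union_le _ _)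
  omega

lemma hyp {Y Y₂ : Submodule (ZMod p) F} (h : Y₂ ≤ Y)
    (h1 : finrank (ZMod p) Y ≤ finrank (ZMod p) Y₂ + 1) {w x : F} (hw : w ∈ Y) (hw' : w ∉ Y₂)
    (hx : x ∈ Y) : ∃ t ∈ Fp (F := F) p, x - t * w ∈ Y₂ := by
  have h2 : Y₂ < Y₂ ⊔ Submodule.span (ZMod p) {w} :=
    lt_of_le_of_ne le_sup_left fun e => hw' (by
      rw [e]; exact Submodule.mem_sup_right (Submodule.mem_span_singleton_self w))
  have h3 := Submodule.finrank_lt_finrank_of_lt h2
  rw [← Submodule.eq_of_le_of_finrank_le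
    (sup_le h ((Submodule.span_singleton_le_iff_mem w Y).2 hw)) (by omega)] at hx
  obtain ⟨y, hy, u, hu, rfl⟩ := Submodule.mem_sup.1 hx
  obtain ⟨t, rfl⟩ := Submodule.mem_span_singleton.1 hu
  exact ⟨_, ⟨t, rfl⟩, by rw [Algebra.smul_def, add_sub_cancel_right]; exact hy⟩

open Classical in
lemma signs (hp : p = 3) {Y Y₂ : Submodule (ZMod p) F} (h : Y₂ ≤ Y)
    (h1 : finrank (ZMod p) Y ≤ finrank (ZMod p) Y₂ + 1) {T : Finset ι} (hT : T.card = 4)
    {W : ι → F} (hW : ∀ k ∈ T, W k ∈ Y) (h2 : 2 ≤ (T.filter fun k => W k ∉ Y₂).card) {c : F}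
    (hc : c ∈ Y) : ∃ ε : ι → F, (∀ i ∈ T, ε i = 1 ∨ ε i = -1) ∧ NC T ε ∧
      c + ∑ i ∈ T, ε i * W i ∈ Y₂ := by
  obtain ⟨k1, a1, k2, a2, n12⟩ := Finset.one_lt_card.1 h2
  obtain ⟨a1, b1⟩ := Finset.mem_filter.1 a1
  obtain ⟨a2, b2⟩ := Finset.mem_filter.1 a2
  have a2' : k2 ∈ T.erase k1 := Finset.mem_erase.2 ⟨n12.symm, a2⟩
  obtain ⟨k3, k4, n34, e⟩ := Finset.card_eq_two.1 (show ((T.erase k1).erase k2).card = 2 by
    rw [Finset.card_erase_of_mem a2', Finset.card_erase_of_mem a1, hT])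
  have a3 : k3 ∈ (T.erase k1).erase k2 := by simp [e]
  have a4 : k4 ∈ (T.erase k1).erase k2 := by simp [e]
  simp only [Finset.mem_erase] at a3 a4
  obtain ⟨α, c1, d1⟩ := hyp h h1 (hW _ a1) b1 (hW _ a2)
  obtain ⟨β, c2, d2⟩ := hyp h h1 (hW _ a1) b1
    (Y.sub_mem (Y.add_mem hc (hW _ a3.2.2)) (hW _ a4.2.2))
  have h3 := three_eq (F := F) hp
  obtain ⟨x, y, hx, hy, k⟩ : ∃ x y : F, (x = 1 ∨ x = -1) ∧ (y = 1 ∨ y = -1) ∧ x + y * α + β = 0 := by
    rcases Fp.three hp c1 with rfl | rfl | rfl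
    · exact (b2 (by simpa using d1)).elim
    · rcases Fp.three hp c2 with rfl | rfl | rfl
      exacts [⟨1, -1, .inl rfl, .inr rfl, by ring⟩, ⟨1, 1, .inl rfl, .inl rfl, by linear_combination h3⟩,
        ⟨-1, -1, .inr rfl, .inr rfl, by linear_combination -h3⟩]
    · rcases Fp.three hp c2 with rfl | rfl | rfl
      exacts [⟨1, 1, .inl rfl, .inl rfl, by ring⟩, ⟨1, -1, .inl rfl, .inr rfl, by linear_combination h3⟩,
        ⟨-1, 1, .inr rfl, .inl rfl, by linear_combination -h3⟩]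
  refine ⟨fun i => if i = k1 then x else if i = k2 then y else if i = k3 then 1 else -1,
    fun i _ => ?_, ⟨k3, a3.2.2, k4, a4.2.2, ?_⟩, ?_⟩
  · dsimp only
    split_ifs <;> simp [hx, hy]
  · simp only [a3.1, a3.2.1, a4.1, a4.2.1, n34.symm, if_false, if_true]
    exact fun e => two_ne (F := F) (p := p) (by omega) (by linear_combination e)
  · rw [← Finset.add_sum_erase _ _ a1, ← Finset.add_sum_erase _ _ a2', e, Finset.sum_pair n34]
    simp only [a3.1, a3.2.1, a4.1, a4.2.1, n34.symm, n12.symm, if_false, if_true]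
    have hy' : y ∈ Fp (F := F) p := by
      rcases hy with rfl | rfl
      exacts [Fp.one, Fp.neg Fp.one]
    convert Y₂.add_mem d2 (Fp.mul_mem hy' d1) using 1
    linear_combination W k1 * k

open Classical in
lemma core (hC : COV) (hp : p = 3) {S : Finset E} {mv : E → Set (F × F)}
    {Z : E → Submodule (ZMod p) F} {X Y : Submodule (ZMod p) F} {T : Finset ι} (hT : T.card = 4)
    {W : ι → F} (hW : ∀ k ∈ T, W k ∈ Y) (hX : X ≤ Y) (h1 : ∀ e ∈ S, Z e ≤ Y)
    (h2 : ∀ e ∈ S, Z e ≤ Submodule.span (ZMod p) (Prod.snd '' mv e))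
    (h3 : ∀ e ∈ S, ∀ m ∈ mv e, m.1 ∈ Z e ∧ m.2 ∈ Z e)
    (H : ∀ Y', X ≤ Y' → Y' < Y → 2 * (finrank (ZMod p) Y - finrank (ZMod p) Y') + 1 ≤
      (DD S Z Y').card + (T.filter fun k => W k ∉ Y').card) :
    ∃ ε : ι → F, (∀ i ∈ T, ε i = 1 ∨ ε i = -1) ∧ NC T ε ∧ ∃ w : E → F,
      (∀ e ∈ S, w e = 0 ∨ ∃ m ∈ mv e, ∃ t : ZMod p, w e = m.1 + t • m.2) ∧
      ∑ i ∈ T, ε i * W i + ∑ e ∈ S, w e ∈ X := by
  have four : ∀ Y' : Submodule (ZMod p) F, (T.filter fun k => W k ∉ Y').card ≤ 4 := fun _ =>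
    hT ▸ Finset.card_filter_le _ _
  have fin : ∀ (S' : Finset E) (G : Submodule (ZMod p) F) (γ : F), S' ⊆ S → X ≤ G →
      (∀ e ∈ S', Z e ≤ G) → RC S' Z X G → γ ∈ G → ∃ w : E → F,
      (∀ e ∈ S', w e = 0 ∨ ∃ m ∈ mv e, ∃ t : ZMod p, w e = m.1 + t • m.2) ∧
      γ + ∑ e ∈ S', w e ∈ X := fun S' G γ a b c d e => by
    obtain ⟨w, k1, k2⟩ := hC (ZMod p) F E S' mv Z X G b c (fun e he => h2 e (a he))
      (fun e he => h3 e (a he)) d _ (G.neg_mem e)
    exact ⟨w, k1, by convert X.neg_mem k2 using 1; ring⟩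
  by_cases hR : RC S Z X Y
  · obtain ⟨k3, a3, k4, a4, n⟩ := Finset.one_lt_card.1 (show 1 < T.card by omega)
    refine ⟨fun i => if i = k3 then 1 else -1, fun i _ => by dsimp only; split_ifs <;> simp,
      ⟨k3, a3, k4, a4, ?_⟩, fin S Y _ subset_rfl hX h1 hR (Y.sum_mem fun i hi => ?_)⟩
    · simp only [n.symm, if_false, if_true]
      exact fun e => two_ne (F := F) (p := p) (by omega) (by linear_combination e)
    · refine Fp.mul_mem ?_ (hW i hi)
      dsimp only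
      split_ifs
      exacts [Fp.one, Fp.neg Fp.one]
  simp only [RC, not_forall, not_le] at hR
  obtain ⟨Y₁, a1, a2, a3⟩ := hR
  have a4 : Y₁ < Y := lt_of_le_of_ne a2 fun e => by rw [e] at a3; omega
  have hV := viol (S := S) (Z := Z) (X := X) (fun Y' a b => by
    rcases b.eq_or_lt with rfl | b
    · omega
    · have := H Y' a b
      have := four Y'
      omega) a2 a3
  have a5 := H Y₁ a1 a4
  have a6 := four Y₁
  obtain ⟨ε, b1, b2, w₀, b3, b4⟩ : ∃ ε : ι → F, (∀ i ∈ T, ε i = 1 ∨ ε i = -1) ∧ NC T ε ∧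
      ∃ w : E → F, (∀ e ∈ DD S Z Y₁, ∃ m ∈ mv e, ∃ t : ZMod p, w e = m.1 + t • m.2) ∧
      ∑ i ∈ T, ε i * W i + ∑ e ∈ DD S Z Y₁, w e ∈ Y₁ := by
    by_cases c : (DD S Z Y₁).card = 0
    · obtain ⟨ε, b1, b2, b3⟩ := signs hp a2 (by omega) hT hW (by omega) Y.zero_mem
      rw [Finset.card_eq_zero.1 c]
      exact ⟨ε, b1, b2, 0, by simp, by simpa using b3⟩
    · obtain ⟨g, hg⟩ := Finset.card_eq_one.1 (show (DD S Z Y₁).card = 1 by omega)
      obtain ⟨g1, g2⟩ := mem_DD.1 (hg ▸ Finset.mem_singleton_self g)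
      obtain ⟨m, m1, m2⟩ : ∃ m ∈ mv g, m.2 ∉ Y₁ := by
        by_contra! k
        exact g2 ((h2 g g1).trans (Submodule.span_le.2 (by rintro _ ⟨m, hm, rfl⟩; exact k m hm)))
      have m3 := h3 g g1 m m1
      have c1 : Y₁ ⊔ Submodule.span (ZMod p) {m.2} ≤ Y :=
        sup_le a2 ((Submodule.span_singleton_le_iff_mem _ _).2 (h1 g g1 m3.2))
      have c2 : Y₁ < Y₁ ⊔ Submodule.span (ZMod p) {m.2} :=
        lt_of_le_of_ne le_sup_left fun e => m2 (by
          rw [e]; exact Submodule.mem_sup_right (Submodule.mem_span_singleton_self _))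
      have c3 := Submodule.finrank_lt_finrank_of_lt c2
      have c4 := (Submodule.finrank_add_le_finrank_add_finrank Y₁ _).trans (Nat.add_le_add_left
        (finrank_span_singleton (v := m.2) fun e => m2 (by rw [e]; exact Y₁.zero_mem)).le _)
      have c5 := H _ (a1.trans le_sup_left) (lt_of_le_of_ne c1 fun e => by rw [e] at c4; omega)
      have c6 : (DD S Z (Y₁ ⊔ Submodule.span (ZMod p) {m.2})).card ≤ (DD S Z Y₁).card :=
        Finset.card_le_card fun e he =>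
          mem_DD.2 ⟨(mem_DD.1 he).1, fun k => (mem_DD.1 he).2 (k.trans le_sup_left)⟩
      obtain ⟨ε, b1, b2, b3⟩ := signs hp c1 (by omega) hT hW (by omega) (h1 g g1 m3.1)
      obtain ⟨y, hy, u, hu, e⟩ := Submodule.mem_sup.1 b3
      obtain ⟨t, rfl⟩ := Submodule.mem_span_singleton.1 hu
      rw [hg]
      refine ⟨ε, b1, b2, fun _ => m.1 + (-t) • m.2, fun e he => ?_, ?_⟩
      · rw [Finset.mem_singleton.1 he]
        exact ⟨m, m1, -t, rfl⟩
      · convert hy using 1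
        rw [Finset.sum_singleton, neg_smul]
        linear_combination -e
  have sub : DD S Z Y₁ ⊆ S := fun e he => (mem_DD.1 he).1
  obtain ⟨w₁, c1, c2⟩ := fin _ Y₁ _ Finset.sdiff_subset a1 (fun e he => by_contra fun k =>
    (Finset.mem_sdiff.1 he).2 (mem_DD.2 ⟨(Finset.mem_sdiff.1 he).1, k⟩)) hV b4
  refine ⟨ε, b1, b2, fun e => if e ∈ DD S Z Y₁ then w₀ e else w₁ e, fun e he => ?_, ?_⟩
  · by_cases k : e ∈ DD S Z Y₁
    · simpa only [if_pos k] using Or.inr (b3 e k)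
    · simpa only [if_neg k] using c1 e (Finset.mem_sdiff.2 ⟨he, k⟩)
  · rw [← Finset.sum_sdiff sub, Finset.sum_congr rfl fun e he => if_neg (Finset.mem_sdiff.1 he).2,
      Finset.sum_congr rfl fun e he => if_pos he]
    convert c2 using 1
    ring

omit [Fintype F] in
lemma sol_of {S : Finset E} {z v : E → F} {X : E → Submodule (ZMod p) F}
    (h : ∑ e ∈ S, v e * z e ∈ ⨆ e ∈ S, mulX (v e) (X e)) : Sol S z X v := by
  obtain ⟨μ, hμ⟩ := (Submodule.mem_iSup_finset_iff_exists_sum _ _).1 h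
  choose x h1 h2 using fun e => mem_mulX.1 (μ e).2
  refine ⟨fun e => -x e, fun e _ => (X e).neg_mem (h1 e), ?_⟩
  simp only [mul_add, Finset.sum_add_distrib, mul_neg, h2, Finset.sum_neg_distrib, hμ,
    add_neg_cancel]

omit [Fintype F] in
lemma le_mulX {s : F} (h : s ∈ Fp (F := F) p) (h0 : s ≠ 0) (X : Submodule (ZMod p) F) :
    X ≤ mulX s X := fun x hx =>
  mem_mulX.2 ⟨s⁻¹ * x, Fp.mul_mem (Fp.inv h) hx, mul_inv_cancel_left₀ h0 x⟩

end UH4

variable {p : ℕ} [Fact p.Prime] {F : Type} [Field F] [Fintype F] [Algebra (ZMod p) F]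

open UH4 in
theorem uh4 (hC : COV) (hP : UPIN p F) : UH4 p F := by
  classical
  intro hp ι E _ _ _ O i0 S o a z X r Y hO ⟨hi0, ho, hj, hF⟩ hI hN hc
  obtain ⟨T, t1, t2, hT⟩ := Finset.exists_subsuperset_card_eq (Finset.singleton_subset_iff.2 hi0)
    (show _ ≤ 4 by simp) hO
  have t0 : i0 ∈ T := Finset.singleton_subset_iff.1 t1
  have : Nonempty E := ⟨o⟩
  have : Nonempty ι := ⟨i0⟩
  choose! f f1 s f2 using hc
  have other : ∀ i i' : ι, ∃ l ∈ O, l ≠ i ∧ l ≠ i' := fun i i' => by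
    by_contra! k
    have : O ⊆ {i, i'} := fun l hl => by
      by_cases e : l = i
      · simp [e]
      · simp [k l hl e]
    have := (Finset.card_le_card this).trans Finset.card_le_two
    omega
  have fS : ∀ i ∈ T, f i ∈ S := fun i hi => (Finset.mem_erase.1 (f1 i (t2 hi))).2
  have finj : Set.InjOn f T := fun i hi i' hi' e => by
    obtain ⟨l, a1, a2, a3⟩ := other i i'
    exact Cls.unique ⟨_, f2 i (t2 hi)⟩ ⟨_, e ▸ f2 i' (t2 hi')⟩ (t2 hi') a1 a2 a3
  have sF : ∀ i ∈ T, s i ∈ Fp (F := F) p := fun i hi => by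
    obtain ⟨l, a1, a2, -⟩ := other i i
    rw [← (f2 i (t2 hi)).2 l a1 a2]
    exact Fp.sub ((hF _ (fS i hi)).2 _) ((hF _ (fS i hi)).2 _)
  have rat : ∀ e ∈ S, ∀ Y', Yh O (a e) (z e) (X e) ≤ Y' ↔ z e ∈ Y' ∧ X e ≤ Y' := fun e he Y' =>
    Yh_le_rat (hI e he).1 (hF e he).2
  have zY : ∀ e ∈ S, z e ∈ Y ∧ X e ≤ Y := fun e he => (rat e he Y).1 (hI e he).2.2
  have oA : o ∈ S \ T.image f := Finset.mem_sdiff.2 ⟨ho, fun k => by
    obtain ⟨i, hi, e⟩ := Finset.mem_image.1 k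
    exact (Finset.mem_erase.1 (f1 i (t2 hi))).1 e⟩
  have XX : ∀ i ∈ T, X (f i) ≤ ⨆ i ∈ T, X (f i) := fun i hi => le_iSup₂_of_le i hi le_rfl
  set ζ := z o + s i0 * z (f i0) with hζ
  obtain ⟨ε, e1, e2, w, w1, w2⟩ := core hC hp (S := S \ T.image f)
    (mv := fun e => if e = o then {(0, ζ)} else {m | m = (0, z e) ∨ ∃ ξ ∈ X e, m = (z e, ξ)})
    (Z := fun e => if e = o then Submodule.span (ZMod p) {ζ} else Yh O (a e) (z e) (X e))
    (X := ⨆ i ∈ T, X (f i)) (Y := Y) hT (W := fun i => s i * z (f i))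
    (fun i hi => Fp.mul_mem (sF i hi) (zY _ (fS i hi)).1) (iSup₂_le fun i hi => (zY _ (fS i hi)).2)
    (fun e he => by
      split_ifs with k
      · exact (Submodule.span_singleton_le_iff_mem _ _).2
          (Y.add_mem (zY o ho).1 (Fp.mul_mem (sF _ t0) (zY _ (fS _ t0)).1))
      · exact (hI e (Finset.mem_sdiff.1 he).1).2.2)
    (fun e he => by
      split_ifs with k
      · rw [Set.image_singleton]
      · exact (rat e (Finset.mem_sdiff.1 he).1 _).2 ⟨Submodule.subset_span ⟨_, Or.inl rfl, rfl⟩,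
          fun x hx => Submodule.subset_span ⟨_, Or.inr ⟨x, hx, rfl⟩, rfl⟩⟩)
    (fun e he m hm => by
      split_ifs at hm ⊢ with k
      · rw [Set.mem_singleton_iff.1 hm]
        exact ⟨Submodule.zero_mem _, Submodule.mem_span_singleton_self _⟩
      · have := (rat e (Finset.mem_sdiff.1 he).1 _).1 le_rfl
        rcases hm with rfl | ⟨x, hx, rfl⟩
        exacts [⟨Submodule.zero_mem _, this.1⟩, ⟨this.1, this.2 hx⟩])
    (fun Y' a1 a2 => by
      obtain ⟨b1, b2⟩ := hN Y' a2 ((hI _ (fS _ t0)).2.1.trans (Submodule.finrank_mono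
        (le_inf (hF _ (fS _ t0)).1 ((XX _ t0).trans a1))))
        (DD (S.erase o) (fun e => Yh O (a e) (z e) (X e)) Y') (fun e he => (mem_DD.1 he).1)
        fun e he k => mem_DD.2 ⟨he, k⟩
      set D := DD (S.erase o) (fun e => Yh O (a e) (z e) (X e)) Y' with hD
      set D' := DD (S \ T.image f)
        (fun e => if e = o then Submodule.span (ZMod p) {ζ} else Yh O (a e) (z e) (X e)) Y' with hD'
      have b3 : D ⊆ D'.erase o ∪ (T.filter fun k => s k * z (f k) ∉ Y').image f := fun e he => by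
        obtain ⟨c1, c2⟩ := mem_DD.1 he
        obtain ⟨c3, c4⟩ := Finset.mem_erase.1 c1
        by_cases k : e ∈ T.image f
        · obtain ⟨i, hi, rfl⟩ := Finset.mem_image.1 k
          exact Finset.mem_union_right _ (Finset.mem_image_of_mem _ (Finset.mem_filter.2
            ⟨hi, fun k => c2 ((rat _ c4 _).2 ⟨Fp.mem_of_mul (sF i hi) (f2 i (t2 hi)).1 k,
              (XX i hi).trans a1⟩)⟩))
        · exact Finset.mem_union_left _ (Finset.mem_erase.2 ⟨c3, mem_DD.2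
            ⟨Finset.mem_sdiff.2 ⟨c4, k⟩, by rwa [if_neg c3]⟩⟩)
      have b4 := (Finset.card_le_card b3).trans ((Finset.card_union_le _ _).trans
        (Nat.add_le_add_left Finset.card_image_le _))
      by_cases k : ζ ∈ Y'
      · have b5 := Finset.card_erase_le (s := D') (a := o)
        refine le_trans (lt_of_le_of_ne b1 fun k' => ?_) (b4.trans (Nat.add_le_add_right b5 _))
        obtain ⟨l, c1, c2, -⟩ := other i0 i0
        refine b2 k'.symm (fun e => if e = f i0 then l else i0) (fun e => by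
          split_ifs
          exacts [c1, hi0]) ?_
        by_cases k2 : f i0 ∈ D
        · rw [Finset.sum_eq_single_of_mem _ k2 fun e _ ne => by simp [ne], if_pos rfl,
            (f2 i0 hi0).2 l c1 c2]
          exact k
        · rw [Finset.sum_eq_zero fun e he => by simp [ne_of_mem_of_not_mem he k2], add_zero]
          have : z (f i0) ∈ Y' := ((rat _ (fS _ t0) _).1 (by_contra fun k3 =>
            k2 (mem_DD.2 ⟨f1 i0 hi0, k3⟩))).1
          simpa [hζ] using Y'.sub_mem k (Fp.mul_mem (sF _ t0) this)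
      · have b5 := Finset.card_erase_add_one (show o ∈ D' from mem_DD.2 ⟨oA, by
          rw [if_pos rfl, Submodule.span_singleton_le_iff_mem]
          exact k⟩)
        omega)
  have key : ∀ e ∈ S \ T.image f, ∃ v ∈ Fp (F := F) p, ∃ ξ ∈ X e,
      w e = v * z e + v * ξ + if e = o then v * (s i0 * z (f i0)) else 0 := fun e he => by
    rcases w1 e he with k | ⟨m, hm, t, k⟩
    · exact ⟨0, Fp.zero, 0, (X e).zero_mem, by simp [k]⟩
    · split_ifs at hm ⊢ with k'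
      · rw [Set.mem_singleton_iff.1 hm] at k
        exact ⟨_, ⟨t, rfl⟩, 0, (X e).zero_mem, by rw [k, k', hζ, Algebra.smul_def]; ring⟩
      · rcases hm with rfl | ⟨x, hx, rfl⟩
        · exact ⟨_, ⟨t, rfl⟩, 0, (X e).zero_mem, by rw [k, Algebra.smul_def]; ring⟩
        · exact ⟨1, Fp.one, t • x, (X e).smul_mem t hx, by rw [k]; ring⟩
  choose! v' v1 ξ v2 v3 using key
  let g := Function.invFunOn f T
  have gf : ∀ i ∈ T, g (f i) = i := fun i hi => finj.leftInvOn_invFunOn hi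
  let v : E → F := fun e =>
    if e ∈ T.image f then ((if g e = i0 then v' o else 0) + ε (g e)) * s (g e) else v' e
  have va : ∀ i ∈ T, v (f i) = ((if i = i0 then v' o else 0) + ε i) * s i := fun i hi => by
    simp only [v, if_pos (Finset.mem_image_of_mem f hi), gf i hi]
  have vb : ∀ e ∈ S \ T.image f, v e = v' e := fun e he => if_neg (Finset.mem_sdiff.1 he).2
  have εF : ∀ i ∈ T, ε i ∈ Fp (F := F) p ∧ ε i ≠ 0 := fun i hi => by
    rcases e1 i hi with k | k <;> rw [k]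
    exacts [⟨Fp.one, one_ne_zero⟩, ⟨Fp.neg Fp.one, neg_ne_zero.2 one_ne_zero⟩]
  have vF : ∀ e ∈ S, v e ∈ Fp (F := F) p := fun e he => by
    by_cases k : e ∈ T.image f
    · obtain ⟨i, hi, rfl⟩ := Finset.mem_image.1 k
      rw [va i hi]
      refine Fp.mul (Fp.add ?_ (εF i hi).1) (sF i hi)
      split_ifs
      exacts [v1 o oA, Fp.zero]
    · rw [vb e (Finset.mem_sdiff.2 ⟨he, k⟩)]
      exact v1 e (Finset.mem_sdiff.2 ⟨he, k⟩)
  have sub : T.image f ⊆ S := Finset.image_subset_iff.2 fS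
  have sh : ∀ e ∈ S, mulX (v e) (X e) ≤ ⨆ e ∈ S, mulX (v e) (X e) := fun e he =>
    le_iSup₂_of_le e he le_rfl
  refine ⟨v, ?_, hP hp ι E O T i0 S o a v ε t2 t0 ho hj
    (fun e he => ⟨(hI e he).1, vF e he, (hF e he).2⟩) (fun i hi => ⟨e1 i hi, f i, fS i hi, s i,
      f2 i (t2 hi), by rw [va i hi, vb o oA]⟩) (Or.inl ⟨hT, e2⟩), sol_of ?_⟩
  · obtain ⟨i, hi, ne⟩ := Finset.exists_mem_ne (show 1 < T.card by omega) i0
    refine ⟨f i, fS i hi, ?_⟩
    rw [va i hi, if_neg ne, zero_add]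
    exact mul_ne_zero (εF i hi).2 (f2 i (t2 hi)).1
  have xs : (⨆ i ∈ T, X (f i)) ≤ ⨆ e ∈ S, mulX (v e) (X e) := iSup₂_le fun i hi => by
    by_cases k : v (f i) = 0
    · have : v o ≠ 0 := fun k' => by
        rw [va i hi, ← vb o oA, k', ite_self, zero_add] at k
        exact mul_ne_zero (εF i hi).2 (f2 i (t2 hi)).1 k
      exact (hF _ (fS i hi)).1.trans ((le_mulX (vF o ho) this _).trans (sh o ho))
    · exact (le_mulX (vF _ (fS i hi)) k _).trans (sh _ (fS i hi))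
  have := Submodule.sub_mem _ (xs w2) (Submodule.sum_mem _ (t := S \ T.image f)
    (f := fun e => v' e * ξ e) fun e he =>
      sh e (Finset.mem_sdiff.1 he).1 (mem_mulX.2 ⟨ξ e, v2 e he, by rw [vb e he]⟩))
  convert this using 1
  rw [← Finset.sum_sdiff sub, Finset.sum_image finj, Finset.sum_congr rfl v3,
    Finset.sum_congr rfl fun e he => by rw [vb e he],
    Finset.sum_congr rfl fun i hi => congrArg (· * z (f i)) (va i hi)]
  simp only [add_mul, Finset.sum_add_distrib, ite_mul, zero_mul, Finset.sum_ite_eq', t0, oA,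
    if_true, mul_assoc]
  ring

end Pool.Agent.MP_d99b12_co.H57
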