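import Pool.Agent.MP_d99b12_co.H57.Basic

/-! # Signed witnesses pin every rational functional in characteristic three -/

namespace Pool.Agent.MP_d99b12_co.H57

open Matrix Module

namespace UPIN

variable {F : Type} [Field F] {ι : Type} [DecidableEq ι]

/-- Zero, one or minus one. -/
def Tri (t : F) : Prop := t = 0 ∨ t = 1 ∨ t = -1

/-- Two signs reach every value. -/
lemma reach (h3 : (3 : F) = 0) {x y t : F} (hx : x = 1 ∨ x = -1) (hy : y = 1 ∨ y = -1)
    (ht : Tri t) : t = 0 ∨ t = x ∨ t = y ∨ t = x + y := by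
  rcases ht with rfl | rfl | rfl
  · exact Or.inl rfl
  · rcases hx with rfl | rfl
    · exact Or.inr (Or.inl rfl)
    · rcases hy with rfl | rfl
      · exact Or.inr (Or.inr (Or.inl rfl))
      · exact Or.inr (Or.inr (Or.inr (by linear_combination h3)))
  · rcases hx with rfl | rfl
    · rcases hy with rfl | rfl
      · exact Or.inr (Or.inr (Or.inr (by linear_combination -h3)))
      · exact Or.inr (Or.inr (Or.inl rfl))
    · exact Or.inr (Or.inl rfl)

lemma Tri.add (h3 : (3 : F) = 0) {t x : F} (ht : Tri t) (hx : x = 1 ∨ x = -1) : Tri (t + x) := by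
  rcases ht with rfl | rfl | rfl <;> rcases hx with rfl | rfl
  · exact Or.inr (Or.inl (by ring))
  · exact Or.inr (Or.inr (by ring))
  · exact Or.inr (Or.inr (by linear_combination h3))
  · exact Or.inl (by ring)
  · exact Or.inl (by ring)
  · exact Or.inr (Or.inl (by linear_combination -h3))

lemma Tri.neg {t : F} (ht : Tri t) : Tri (-t) := by
  rcases ht with rfl | rfl | rfl <;> simp [Tri]

/-- The local step on three indices. -/
lemma loc (h3 : (3 : F) = 0) {x y w t A Bx By Bw : F} (hx : x = 1 ∨ x = -1) (hy : y = 1 ∨ y = -1)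
    (hw : w = 1 ∨ w = -1) (ht : Tri t) (hne : t ≠ x + y + w)
    (h0 : t = 0 → A = 0) (h1 : t + x = 0 → A + Bx = 0) (h2 : t + y = 0 → A + By = 0)
    (h4 : t + w = 0 → A + Bw = 0) (h5 : t + (x + y) = 0 → A + (Bx + By) = 0)
    (h6 : t + (x + w) = 0 → A + (Bx + Bw) = 0) (h7 : t + (y + w) = 0 → A + (By + Bw) = 0)
    (h8 : t + (x + (y + w)) = 0 → A + (Bx + (By + Bw)) = 0) : x * Bx = y * By := by
  have hww : w + w ≠ 0 := fun h => by
    rcases hw with rfl | rfl
    · exact one_ne_zero (α := F) (by linear_combination h3 - h)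
    · exact one_ne_zero (α := F) (by linear_combination h3 + h)
  by_cases e : x = y
  · subst e
    have ht' := (ht.add h3 hx).neg
    rcases reach h3 hw hw ht' with k | k | k | k
    · have k' : t + x = 0 := neg_eq_zero.1 k
      linear_combination x * h1 k' - x * h2 k'
    · have k' : t + (x + w) = 0 := by linear_combination -k
      linear_combination x * h6 k' - x * h7 k'
    · have k' : t + (x + w) = 0 := by linear_combination -k
      linear_combination x * h6 k' - x * h7 k'
    · exact absurd (by linear_combination -k - (x + w) * h3) hne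
  · have e' : y = -x := by
      rcases hx with rfl | rfl <;> rcases hy with rfl | rfl <;> simp_all
    subst e'
    rcases reach h3 hw hw ht.neg with k | k | k | k
    · have k' : t = 0 := neg_eq_zero.1 k
      linear_combination x * h5 (by linear_combination k') - x * h0 k'
    · linear_combination x * h8 (by linear_combination -k) - x * h4 (by linear_combination -k)
    · linear_combination x * h8 (by linear_combination -k) - x * h4 (by linear_combination -k)
    · exact absurd (by linear_combination -k - w * h3) hne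

lemma pair (h3 : (3 : F) = 0) {T J : Finset ι} {ε B : ι → F} {ν A : F}
    (hε : ∀ i ∈ T, ε i = 1 ∨ ε i = -1)
    (H : ∀ I ⊆ T, ν + ∑ i ∈ I, ε i = 0 → A + ∑ i ∈ I, B i = 0) {i j k : ι} (hi : i ∈ T)
    (hj : j ∈ T) (hk : k ∈ T) (hij : i ≠ j) (hik : i ≠ k) (hjk : j ≠ k) (hJ : J ⊆ T) (h1 : i ∉ J)
    (h2 : j ∉ J) (h4 : k ∉ J) (ht : Tri (ν + ∑ l ∈ J, ε l))
    (hne : ν + ∑ l ∈ J, ε l ≠ ε i + ε j + ε k) : ε i * B i = ε j * B j := by
  have s1 : ∀ {x}, x ∈ T → insert x J ⊆ T := fun hx => Finset.insert_subset hx hJ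
  have s2 : ∀ {x y}, x ∈ T → y ∈ T → insert x (insert y J) ⊆ T :=
    fun hx hy => Finset.insert_subset hx (s1 hy)
  have n2 : ∀ {x y}, x ≠ y → x ∉ J → x ∉ insert y J := fun a b => by simp [a, b]
  have one : ∀ {x}, x ∈ T → x ∉ J → ν + ∑ l ∈ J, ε l + ε x = 0 → A + ∑ l ∈ J, B l + B x = 0 :=
    fun hx hx' k => by
      have := H _ (s1 hx)
      rw [Finset.sum_insert hx', Finset.sum_insert hx'] at this
      linear_combination this (by linear_combination k)
  have two : ∀ {x y}, x ∈ T → y ∈ T → x ≠ y → x ∉ J → y ∉ J →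
      ν + ∑ l ∈ J, ε l + (ε x + ε y) = 0 → A + ∑ l ∈ J, B l + (B x + B y) = 0 :=
    fun hx hy e hx' hy' k => by
      have := H _ (s2 hx hy)
      rw [Finset.sum_insert (n2 e hx'), Finset.sum_insert (n2 e hx'), Finset.sum_insert hy',
        Finset.sum_insert hy'] at this
      linear_combination this (by linear_combination k)
  refine loc h3 (hε i hi) (hε j hj) (hε k hk) ht hne (H J hJ) (one hi h1) (one hj h2) (one hk h4)
    (two hi hj hij h1 h2) (two hi hk hik h1 h4) (two hj hk hjk h2 h4) fun e => ?_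
  have n3 : i ∉ insert j (insert k J) := by simp [hij, hik, h1]
  have := H _ (Finset.insert_subset hi (s2 hj hk))
  rw [Finset.sum_insert n3, Finset.sum_insert n3, Finset.sum_insert (n2 hjk h2),
    Finset.sum_insert (n2 hjk h2), Finset.sum_insert h4, Finset.sum_insert h4] at this
  linear_combination this (by linear_combination e)

lemma lin (h3 : (3 : F) = 0) {T : Finset ι} {ε B : ι → F} {ν A : F}
    (hε : ∀ i ∈ T, ε i = 1 ∨ ε i = -1) (hν : Tri ν)
    (hT : T.card = 4 ∨ (T.card = 3 ∧ ν ≠ ∑ i ∈ T, ε i))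
    (H : ∀ I ⊆ T, ν + ∑ i ∈ I, ε i = 0 → A + ∑ i ∈ I, B i = 0) :
    ∃ σ, A = σ * ν ∧ ∀ i ∈ T, B i = σ * ε i := by
  have hc : 3 ≤ T.card := by omega
  have key : ∀ i ∈ T, ∀ j ∈ T, ε i * B i = ε j * B j := by
    intro i hi j hj
    by_cases hij : i = j
    · rw [hij]
    have c2 : ({i, j} : Finset ι).card = 2 := Finset.card_pair hij
    obtain ⟨k, hk, hk'⟩ := Finset.exists_mem_notMem_of_card_lt_card (s := {i, j}) (t := T) (by omega)
    have hik : i ≠ k := fun e => hk' (by simp [e])
    have hjk : j ≠ k := fun e => hk' (by simp [e])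
    have c3 : ({i, j, k} : Finset ι).card = 3 := Finset.card_eq_three.2 ⟨i, j, k, hij, hik, hjk, rfl⟩
    by_cases hne : ν = ε i + ε j + ε k
    · rcases hT with h4 | ⟨h4, h5⟩
      · obtain ⟨l, hl, hl'⟩ :=
          Finset.exists_mem_notMem_of_card_lt_card (s := {i, j, k}) (t := T) (by omega)
        simp only [Finset.mem_insert, Finset.mem_singleton, not_or] at hl'
        refine pair h3 (J := {l}) hε H hi hj hk hij hik hjk (by simpa using hl)
          (by simpa using Ne.symm hl'.1) (by simpa using Ne.symm hl'.2.1)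
          (by simpa using Ne.symm hl'.2.2) (by simpa using hν.add h3 (hε l hl)) ?_
        rw [Finset.sum_singleton, ← hne]
        rcases hε l hl with e | e <;> simp [e]
      · have e : ({i, j, k} : Finset ι) = T :=
          Finset.eq_of_subset_of_card_le (by simp [Finset.insert_subset_iff, hi, hj, hk]) (by omega)
        refine absurd ?_ h5
        rw [← e, Finset.sum_insert (by simp [hij, hik]), Finset.sum_pair hjk, hne, add_assoc]
    · exact pair h3 (J := ∅) hε H hi hj hk hij hik hjk (by simp) (by simp) (by simp) (by simp)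
        (by simpa using hν) (by simpa using hne)
  obtain ⟨i, hi, j, hj, hij⟩ := Finset.one_lt_card.1 (show 1 < T.card by omega)
  have hB : ∀ l ∈ T, B l = ε i * B i * ε l := fun l hl => by
    rw [key i hi l hl]
    rcases hε l hl with e | e <;> simp [e]
  refine ⟨ε i * B i, ?_, hB⟩
  have hi' := hB i hi
  have hj' := hB j hj
  rcases reach h3 (hε i hi) (hε j hj) hν.neg with k | k | k | k
  · have := H ∅ (by simp) (by simpa using k)
    rw [Finset.sum_empty] at this
    linear_combination this + ε i * B i * k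
  · have := H {i} (by simpa using hi) (by rw [Finset.sum_singleton]; linear_combination -k)
    rw [Finset.sum_singleton] at this
    linear_combination this - hi' + ε i * B i * k
  · have := H {j} (by simpa using hj) (by rw [Finset.sum_singleton]; linear_combination -k)
    rw [Finset.sum_singleton] at this
    linear_combination this - hj' + ε i * B i * k
  · have := H {i, j} (by simp [Finset.insert_subset_iff, hi, hj])
      (by rw [Finset.sum_pair hij]; linear_combination -k)
    rw [Finset.sum_pair hij] at this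
    linear_combination this - hi' - hj' + ε i * B i * k

/-- The value sets. -/
def V (T : Finset ι) (i0 : ι) (ν : F) (ε : ι → F) (i : ι) : Set F :=
  {τ | τ = (if i = i0 then ν else 0) ∨ (i ∈ T ∧ τ = (if i = i0 then ν else 0) + ε i)}

lemma rigid [Fintype ι] (h3 : (3 : F) = 0) {O T : Finset ι} {i0 : ι} {ε : ι → F} {ν : F}
    (hO : T ⊆ O) (h0 : i0 ∈ T) (hε : ∀ i ∈ T, ε i = 1 ∨ ε i = -1) (hν : Tri ν)
    (hT : T.card = 4 ∨ (T.card = 3 ∧ ν ≠ ∑ i ∈ T, ε i)) : Rigid O (V T i0 ν ε) := by
  intro α hα hs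
  obtain ⟨σ, hA, hB⟩ := lin h3 (A := α i0 ν) (B := fun i =>
    α i ((if i = i0 then ν else 0) + ε i) - α i (if i = i0 then ν else 0)) hε hν hT
    fun I hI k => by
      have h1 := hs (fun l => (if l = i0 then ν else 0) + if l ∈ I then ε l else 0)
        ⟨fun l hl => by
          beta_reduce
          rw [if_neg fun e : l = i0 => hl (e ▸ hO h0), if_neg fun e => hl (hO (hI e)), add_zero],
        by simpa [Finset.sum_add_distrib] using k⟩
        fun l _ => by
          by_cases e : l ∈ I
          · exact Or.inr ⟨hI e, by rw [if_pos e]⟩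
          · exact Or.inl (by rw [if_neg e, add_zero])
      have h2 : ∀ l ∈ O, α l ((if l = i0 then ν else 0) + if l ∈ I then ε l else 0) =
          (if l = i0 then α i0 ν else 0) + if l ∈ I then
            α l ((if l = i0 then ν else 0) + ε l) - α l (if l = i0 then ν else 0) else 0 := by
        intro l _
        by_cases e : l ∈ I <;> by_cases e' : l = i0 <;> simp [e, e', hα]
        all_goals simp [← e', e]
      rw [Finset.sum_congr rfl h2, Finset.sum_add_distrib, Finset.sum_ite_eq', if_pos (hO h0),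
        Finset.sum_ite_mem, Finset.inter_eq_right.2 (hI.trans hO)] at h1
      exact h1
  have hn : ∀ i, α i (if i = i0 then ν else 0) = σ * if i = i0 then ν else 0 := fun i => by
    by_cases e : i = i0
    · rw [if_pos e, e, hA]
    · rw [if_neg e, hα, mul_zero]
  refine ⟨σ, fun i _ τ hτ => ?_⟩
  rcases hτ with rfl | ⟨hi, rfl⟩
  · exact hn i
  · linear_combination hB i hi + hn i

omit [Field F] [DecidableEq ι] in
lemma pick {O T : Finset ι} {b : ι → F} (hO : T ⊆ O) (hT : 3 ≤ T.card) (hb : NC O b) :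
    ∃ m ∈ O, ∃ i ∈ T, ∃ i' ∈ T, i ≠ i' ∧ b i ≠ b m ∧ b i' ≠ b m := by
  obtain ⟨x, hx, y, hy, w, hw, hxy, hxw, hyw⟩ := Finset.two_lt_card.1 (show 2 < T.card by omega)
  by_cases h1 : b x = b y
  · by_cases h2 : b x = b w
    · obtain ⟨i, hi, j, hj, hne⟩ := hb
      by_cases h4 : b x = b i
      · exact ⟨j, hj, x, hx, y, hy, hxy, h4 ▸ hne, h1 ▸ h4 ▸ hne⟩
      · exact ⟨i, hi, x, hx, y, hy, hxy, h4, h1 ▸ h4⟩
    · exact ⟨w, hO hw, x, hx, y, hy, hxy, h2, h1 ▸ h2⟩
  · by_cases h2 : b x = b w
    · exact ⟨y, hO hy, x, hx, w, hw, hxw, h1, h2 ▸ h1⟩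
    · exact ⟨x, hO hx, y, hy, w, hw, hyw, Ne.symm h1, Ne.symm h2⟩

end UPIN

variable {p : ℕ} [Fact p.Prime] {F : Type} [Field F] [Fintype F] [Algebra (ZMod p) F]

omit [Fintype F] in
open UPIN in
theorem upin : UPIN p F := by
  intro hp ι E _ _ O T i0 S o a v ε hO h0 ho hj hS hε hT
  have h3 : (3 : F) = 0 := three_eq hp
  have hε' : ∀ i ∈ T, ε i = 1 ∨ ε i = -1 := fun i hi => (hε i hi).1
  have hν : v o ∈ Fp (F := F) p := (hS o ho).2.1
  have hT' : T.card = 4 ∨ (T.card = 3 ∧ v o ≠ ∑ i ∈ T, ε i) := hT.imp And.left And.right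
  refine pinv (V := V T i0 (v o) ε) ⟨i0, fun i hi e => Finset.mem_erase.2 ⟨e, hi⟩⟩
    (rigid h3 hO h0 hε' (Fp.three hp hν) hT') (fun i hi τ hτ => ?_) fun e he => Or.inr ?_
  · rcases hτ with rfl | ⟨hi', rfl⟩
    · by_cases e : i = i0
      · exact Or.inr ⟨o, ho, 1, e ▸ hj, by rw [if_pos e, mul_one]⟩
      · exact Or.inl ⟨if_neg e, Finset.mem_erase.2 ⟨e, hi⟩⟩
    · exact Or.inr (hε i hi').2
  · obtain ⟨hn, hv, ha⟩ := hS e he
    obtain ⟨m, hm, i, hi, j, hj', hij, h1, h2⟩ := pick hO (by omega) hn
    have sg : ∀ l ∈ T, a e l ≠ a e m → ε l * (a e l - a e m) = 1 ∨ ε l * (a e l - a e m) = -1 := by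
      intro l hl k
      rcases Fp.three hp (Fp.sub (ha l) (ha m)) with k1 | k1 | k1
      · exact absurd (sub_eq_zero.1 k1) k
      all_goals rcases hε' l hl with k2 | k2 <;> simp [k1, k2]
    have main : ∀ c c' : F, (c = 0 ∨ c = 1) → (c' = 0 ∨ c' = 1) →
        v e - v o * (a e i0 - a e m) = c * (ε i * (a e i - a e m)) + c' * (ε j * (a e j - a e m)) →
        ∃ φ, Cap O (V T i0 (v o) ε) φ ∧ φ ⬝ᵥ a e = v e := by
      intro c c' hc hc' k
      refine ⟨v o • (Pi.single i0 1 - Pi.single m 1) + (c * ε i) • (Pi.single i 1 - Pi.single m 1) +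
        (c' * ε j) • (Pi.single j 1 - Pi.single m 1),
        ⟨(((isN_edge (hO h0) hm).smul _).add ((isN_edge (hO hi) hm).smul _)).add
          ((isN_edge (hO hj') hm).smul _), m, fun l _ hl => ?_⟩, ?_⟩
      · simp only [V, Set.mem_ofPred_eq, Pi.add_apply, Pi.smul_apply, Pi.sub_apply,
          Pi.single_apply, if_neg hl, sub_zero, smul_eq_mul, mul_ite, mul_one, mul_zero]
        by_cases e1 : l = i
        · subst e1
          rcases hc with rfl | rfl <;> simp [hij, hi]
        · by_cases e2 : l = j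
          · subst e2
            rcases hc' with rfl | rfl <;> simp [e1, hj']
          · simp [e1, e2]
      · simp only [add_dotProduct, smul_dotProduct, edge_dot, smul_eq_mul]
        linear_combination -k
    rcases reach h3 (sg i hi h1) (sg j hj' h2)
      (Fp.three hp (Fp.sub hv (Fp.mul hν (Fp.sub (ha i0) (ha m))))) with k | k | k | k
    · exact main 0 0 (Or.inl rfl) (Or.inl rfl) (by linear_combination k)
    · exact main 1 0 (Or.inr rfl) (Or.inl rfl) (by linear_combination k)
    · exact main 0 1 (Or.inl rfl) (Or.inr rfl) (by linear_combination k)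
    · exact main 1 1 (Or.inr rfl) (Or.inr rfl) (by linear_combination k)

end Pool.Agent.MP_d99b12_co.H57
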