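import Pool.Agent.MP_d99b12_co.H57.FIN2
import Pool.Agent.MP_d99b12_co.H57.GO
import Pool.Agent.MP_d99b12_co.H57.COV
import Pool.Agent.MP_d99b12_co.H57.CLOSE
import Pool.Agent.MP_d99b12_co.H57.HEAVY
import Pool.Agent.MP_d99b12_co.H57.FL
import Pool.Agent.MP_d99b12_co.H57.ATL
import Pool.Agent.MP_d99b12_co.H57.KILLX
import Pool.Agent.MP_d99b12_co.H57.BIG
import Pool.Agent.MP_d99b12_co.H57.HEAVY3
import Pool.Agent.MP_d99b12_co.H57.UPIN
import Pool.Agent.MP_d99b12_co.H57.UH4
import Pool.Agent.MP_d99b12_co.H57.UH3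

/-! # Assembly of the end game for odd characteristic (MP_d99b12_co) -/

namespace Pool.Agent.MP_d99b12_co.H57

variable {p : ℕ} [Fact p.Prime] {F : Type} [Field F] [Fintype F] [Algebra (ZMod p) F]

theorem atl3_all : ATL3 p F := atl3 (base go) (heavy3 (close cov) go)

theorem fin_all : FIN p F :=
  fin (atl (base go) (fl go) (heavy greedy (close cov))) atl3_all
    (utr3 (base go) atl3_all (uh3 cov upin go) (uh4 cov upin)) killx big

end Pool.Agent.MP_d99b12_co.H57
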