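import Pool.Agent.MP_d99b12_co.H57.KILLX
import Pool.Agent.MP_d99b12_co.H25.KILL
import Pool.Agent.MP_d99b12_co.H25.Spec2

/-! # The smaller side of the core has fewer than `k` elements (MP_d99b12_co) -/

namespace Pool.Agent.MP_d99b12_co.H57

open Matrix Module Finset H25 H25.KILL

variable {F : Type} [Field F] [Fintype F]

lemma charP_of_card {p k : ℕ} (hp : p.Prime) (hk : k ≠ 0) (hF : Fintype.card F = p ^ k) :
    CharP F p := by
  obtain ⟨p', hp'⟩ := CharP.exists F
  obtain ⟨n, hp'', hn⟩ := FiniteField.card F p'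
  have : p = p' := by
    have h1 : p ∣ p' ^ (n : ℕ) := by rw [← hn, hF]; exact dvd_pow_self p hk
    exact (Nat.prime_dvd_prime_iff_eq hp hp'').1 (hp.dvd_of_dvd_pow h1)
  rwa [this]

lemma finrank_of_card {p k : ℕ} [Fact p.Prime] [Algebra (ZMod p) F]
    (hF : Fintype.card F = p ^ k) : finrank (ZMod p) F = k := by
  have := Module.card_eq_pow_finrank (K := ZMod p) (V := F)
  rw [hF, ZMod.card] at this
  exact (Nat.pow_right_injective (Fact.out : p.Prime).two_le this).symm

theorem mins (p k : ℕ) : MINS F p k := by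
  classical
  intro hp hk hF I J _ _ A hA hJ
  have := Fact.mk hp
  have := charP_of_card hp (by omega) hF
  let _ := ZMod.algebra F p
  by_contra hlt
  obtain ⟨u, par, X1, hu, huY, -, -, hX, hH⟩ := hA.tree
  obtain ⟨f, Y, G⟩ := exists_frame hA.spanY hu huY
  let Λ : Fin (Fintype.card I) → Submodule (ZMod p) (J → F) := fun e =>
    AddSubgroup.toZModSubmodule p (A.H.comap (AddMonoidHom.mk' (vecMulVec (u e))
      (vecMulVec_add (u e))))
  have hΛ : ∀ e, Fintype.card J ≤ finrank (ZMod p) (Λ e) := fun e => card_le_of_span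
    (top_le_iff.1 (hX ▸ Submodule.span_le.2 fun ξ hξ => by
      obtain ⟨c, hc, h⟩ := hH e ξ hξ
      rw [← vecMulVec_smul] at h
      have : c • ξ ∈ Submodule.span F (Λ e : Set (J → F)) := Submodule.subset_span h
      exact (Submodule.smul_mem_iff _ hc).1 this))
  have ind : ∀ K ⊆ (univ : Finset (Fin (Fintype.card I))), K.card = Fintype.card J →
      ∀ ζ : Fin (Fintype.card I) → J → F, (∀ e ∈ K, ζ e ∈ Λ e) →
      ∀ x, (∀ e ∈ K, (f e ᵥ* A.D + ζ e) ⬝ᵥ x = 0) → x = 0 := fun K _ hc ζ hζ x hx => by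
    by_contra h0
    have r1 := rank_span (T := K) (g := fun t => f t) (u := fun t => u t) (Y := Y ∪ u '' (↑K)ᶜ)
      (fun s t => (G.dual _ _).trans (if_congr Subtype.ext_iff.symm rfl rfl)) (by
        rintro s y (hy | ⟨t, ht, rfl⟩)
        · exact G.kill _ y hy
        · rw [G.dual, if_neg]
          rintro rfl; exact ht s.2)
    have r2 : finrank F (perp (∅ : Set (J → F))) ≤ Fintype.card J :=
      (Submodule.finrank_le _).trans_eq (finrank_fintype_fun_eq_card F)
    rw [Fintype.card_coe, hc] at r1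
    refine window hA (G.subset (↑K)ᶜ) (Set.empty_subset _) (by omega)
      (sum_mem fun e he => hζ e he : ∑ e ∈ K, vecMulVec (u e) (ζ e) ∈ A.H) ⟨x, h0, by simp, ?_⟩
    set v := (A.D + ∑ e ∈ K, vecMulVec (u e) (ζ e)) *ᵥ x with hv
    have h1 : ∀ e ∈ K, f e ⬝ᵥ v = 0 := fun e he => by
      rw [← hx e he, hv, add_mulVec, sum_mulVec, dotProduct_add, dotProduct_sum, add_dotProduct,
        dotProduct_mulVec, Finset.sum_eq_single_of_mem e he fun e' _ k => by
          simp [outer, G.dual, k.symm]]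
      simp [outer, G.dual]
    have h2 : ∑ t, (f t ⬝ᵥ v) • u t ∈ Submodule.span F (Y ∪ u '' (↑K)ᶜ) := sum_mem fun t _ => by
      by_cases k : t ∈ K
      · simp [h1 t k]
      · exact Submodule.smul_mem _ _ (Submodule.subset_span (Or.inr ⟨t, k, rfl⟩))
    simpa using add_mem (Submodule.span_mono Set.subset_union_left (G.span v)) h2
  obtain ⟨K, -, hc, ζ, x, h2, h3, h4, h5⟩ := killx (p := p) (F := F) _ J univ
    (fun e => f e ᵥ* A.D) Λ (by omega) (by simpa using hJ) ind
  obtain ⟨e, -, he⟩ := exists_mem_notMem_of_card_lt_card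
    (show K.card < (univ : Finset (Fin (Fintype.card I))).card by simp; omega)
  have top : evX (Λ e) x = ⊤ := Submodule.eq_top_of_finrank_eq (le_antisymm
    (Submodule.finrank_le _) (by
      rw [finrank_evX (h5 e (mem_univ _) he), finrank_of_card hF]
      exact (not_lt.1 hlt).trans (hΛ e)))
  obtain ⟨l, hl, hlx⟩ := mem_evX.1 (top ▸ Submodule.mem_top : -(f e ᵥ* A.D) ⬝ᵥ x ∈ evX (Λ e) x)
  refine h3 (ind (insert e K) (subset_univ _) (by rw [card_insert_of_notMem he, hc])
    (Function.update ζ e l) (fun e' he' => ?_) x fun e' he' => ?_)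
  · rcases mem_insert.1 he' with rfl | k
    · simpa using hl
    · rw [Function.update_of_ne (ne_of_mem_of_not_mem k he)]; exact h2 e' k
  · rcases mem_insert.1 he' with rfl | k
    · rw [Function.update_self, add_dotProduct, hlx]; simp
    · rw [Function.update_of_ne (ne_of_mem_of_not_mem k he)]; exact h4 e' k

end Pool.Agent.MP_d99b12_co.H57
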