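import Pool.Agent.MP_d99b12_co.H57.Spec

/-! # Basic facts on pinned functionals (MP_d99b12_co) -/

namespace Pool.Agent.MP_d99b12_co.H57

open Matrix Module

section Pin

variable {F : Type} [Field F] {ι E : Type} [Fintype ι] {O O' An An' : Finset ι} {S S' : Finset E}
  {a : E → ι → F} {v u : E → F} {φ ψ b : ι → F}

lemma IsN.zero : IsN O (0 : ι → F) := ⟨fun _ _ => rfl, by simp⟩

lemma IsN.add (h : IsN O φ) (h' : IsN O ψ) : IsN O (φ + ψ) :=
  ⟨fun i hi => by simp [h.1 i hi, h'.1 i hi], by simp [Finset.sum_add_distrib, h.2, h'.2]⟩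

lemma IsN.smul (h : IsN O φ) (c : F) : IsN O (c • φ) :=
  ⟨fun i hi => by simp [h.1 i hi], by simp [← Finset.mul_sum, h.2]⟩

lemma IsN.sub (h : IsN O φ) (h' : IsN O ψ) : IsN O (φ - ψ) :=
  ⟨fun i hi => by simp [h.1 i hi, h'.1 i hi], by simp [Finset.sum_sub_distrib, h.2, h'.2]⟩

lemma IsN.mono (h : IsN O φ) (hO : O ⊆ O') : IsN O' φ := ⟨fun i hi => h.1 i fun k => hi (hO k), h.2⟩

lemma IsN.sum_eq (h : IsN O φ) : ∑ i ∈ O, φ i = 0 := by
  rw [← h.2]
  exact Finset.sum_subset (Finset.subset_univ _) fun i _ hi => h.1 i hi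

lemma isN_edge [DecidableEq ι] {i i' : ι} (hi : i ∈ O) (hi' : i' ∈ O) :
    IsN O (Pi.single i 1 - Pi.single i' 1 : ι → F) := by
  refine ⟨fun l hl => ?_, by simp [Finset.sum_sub_distrib]⟩
  have h1 : l ≠ i := fun e => hl (e ▸ hi)
  have h2 : l ≠ i' := fun e => hl (e ▸ hi')
  simp [h1, h2]

lemma edge_dot [DecidableEq ι] (i i' : ι) (b : ι → F) :
    (Pi.single i 1 - Pi.single i' 1 : ι → F) ⬝ᵥ b = b i - b i' := by
  simp [sub_dotProduct]

/-- Constants are not seen. -/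
lemma IsN.dot_eq (h : IsN O φ) (b : ι → F) (c : F) : φ ⬝ᵥ b = ∑ i ∈ O, φ i * (b i - c) := by
  have h1 : ∑ i ∈ O, φ i * (b i - c) = ∑ i ∈ O, φ i * b i := by
    simp only [mul_sub, Finset.sum_sub_distrib, ← Finset.sum_mul, h.sum_eq, zero_mul, sub_zero]
  rw [h1, dotProduct]
  exact (Finset.sum_subset (Finset.subset_univ _) fun i _ hi => by simp [h.1 i hi]).symm

lemma IsN.dot_jump (h : IsN O φ) {i : ι} {s : F} (hi : i ∈ O) (hb : Jump O i b s) :
    φ ⬝ᵥ b = φ i * s := by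
  rw [h.dot_eq b (b i - s), Finset.sum_eq_single_of_mem i hi]
  · ring
  · intro l hl hne
    rw [← hb.2 l hl hne]; ring

/-- Two elements of `N` that agree off one index are equal. -/
lemma IsN.ext (h : IsN O φ) (h' : IsN O ψ) (m : ι) (hm : ∀ i ∈ O, i ≠ m → φ i = ψ i) : φ = ψ := by
  have h1 : ∀ i, i ≠ m → φ i = ψ i := fun i hi => by
    by_cases k : i ∈ O
    · exact hm i k hi
    · rw [h.1 i k, h'.1 i k]
  funext i
  by_cases k : i = m
  · have := (h.sub h').2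
    rw [Finset.sum_eq_single m (fun l _ hl => by simp [h1 l hl]) (by simp)] at this
    rw [k]; exact sub_eq_zero.1 this
  · exact h1 i k

/-- An element of `N` that vanishes off two indices is a multiple of the edge. -/
lemma IsN.eq_edge [DecidableEq ι] (h : IsN O ψ) {i i' : ι} (hi : i ∈ O) (hi' : i' ∈ O)
    (hne : i ≠ i') (h0 : ∀ l ∈ O, l ≠ i → l ≠ i' → ψ l = 0) :
    ψ = ψ i • (Pi.single i 1 - Pi.single i' 1 : ι → F) := by
  refine h.ext ((isN_edge hi hi').smul _) i' fun l hl hl' => ?_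
  by_cases k : l = i
  · subst k; simp [hne]
  · simp [k, hl', h0 l hl k hl']

lemma Loc.zero (hA : Al O An) (h : Loc O An S a v u) {e : E} (he : e ∈ S) (hv : v e = 0) :
    u e = 0 := by
  obtain ⟨i0, h0⟩ := hA
  obtain ⟨ψ, h1, h2, h3⟩ := h 0 IsN.zero
  have : ψ = 0 := h1.ext IsN.zero i0 fun i hi hne => h2 i (h0 i hi hne) rfl
  have k := h3 e he (by simp [hv])
  rw [this] at k
  simpa using k.symm

lemma Loc.mono (h : Loc O An S a v u) (hA : An' ⊆ An) (hS : S' ⊆ S) : Loc O An' S' a v u :=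
  fun φ hφ => (h φ hφ).imp fun _ k => ⟨k.1, fun i hi => k.2.1 i (hA hi), fun e he => k.2.2 e (hS he)⟩

lemma PIN.mono_anc (h : PIN O An' S a v) (hA : An' ⊆ An) : PIN O An S a v :=
  fun u hu => h u (hu.mono hA subset_rfl)

/-- Extension by zero. -/
lemma PIN.ext (hA : Al O An) (h : PIN O An S' a v) (hS : S' ⊆ S) (h0 : ∀ e ∈ S, e ∉ S' → v e = 0) :
    PIN O An S a v := fun u hu => by
  obtain ⟨σ, hσ⟩ := h u (hu.mono subset_rfl hS)
  refine ⟨σ, fun e he => ?_⟩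
  by_cases k : e ∈ S'
  · exact hσ e k
  · rw [hu.zero hA he (h0 e he k), h0 e he k, mul_zero]

/-- Only the values on `S` matter. -/
lemma PIN.congr {v' : E → F} (h : PIN O An S a v) (hv : ∀ e ∈ S, v' e = v e) : PIN O An S a v' :=
  fun u hu => by
  obtain ⟨σ, hσ⟩ := h u fun φ hφ => (hu φ hφ).imp fun _ k =>
    ⟨k.1, k.2.1, fun e he k' => k.2.2 e he (k'.trans (hv e he).symm)⟩
  exact ⟨σ, fun e he => by rw [hσ e he, hv e he]⟩

/-- Anchored indices can be added. -/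
lemma PIN.of_sub (h : PIN O' An' S a v) (hO : O' ⊆ O) (hA : An' ⊆ An)
    (hn : ∀ i ∈ O, i ∉ O' → i ∈ An) : PIN O An S a v := fun u hu => h u fun φ hφ => by
  obtain ⟨ψ, h1, h2, h3⟩ := hu φ (hφ.mono hO)
  refine ⟨ψ, ⟨fun i hi => ?_, h1.2⟩, fun i hi => h2 i (hA hi), h3⟩
  by_cases k : i ∈ O
  · exact h2 i (hn i k hi) (hφ.1 i hi)
  · exact h1.1 i k

/-- An item of class `i` with value zero anchors `i`. -/
lemma Loc.anchor (hA : Al O An) (h : Loc O An S a v u) {i : ι} {g : E} (hi : i ∈ O) (hg : g ∈ S)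
    (hc : Cls O i (a g)) (hv : v g = 0) (hA' : ∀ l ∈ An', l ≠ i → l ∈ An) : Loc O An' S a v u := by
  intro φ hφ
  obtain ⟨s, hs⟩ := hc
  obtain ⟨ψ, h1, h2, h3⟩ := h φ hφ
  refine ⟨ψ, h1, fun l hl h0 => ?_, h3⟩
  by_cases k : l = i
  · subst k
    have := h3 g hg (by rw [hφ.dot_jump hi hs, h0, zero_mul, hv])
    rw [h1.dot_jump hi hs, h.zero hA hg hv] at this
    exact (mul_eq_zero.1 this).resolve_right hs.1
  · exact h2 l (hA' l hl k) h0

lemma PIN.anchor (hA : Al O An) (h : PIN O An' S a v) {i : ι} {g : E} (hi : i ∈ O) (hg : g ∈ S)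
    (hc : Cls O i (a g)) (hv : v g = 0) (hA' : ∀ l ∈ An', l ≠ i → l ∈ An) : PIN O An S a v :=
  fun u hu => h u (hu.anchor hA hi hg hc hv hA')

/-- The section along an edge is a multiple of the edge. -/
lemma Loc.edge [DecidableEq ι] (h : Loc O An S a v u) {i i' : ι} (hi : i ∈ O) (hi' : i' ∈ O)
    (hne : i ≠ i') (hA : ∀ l ∈ O, l ≠ i → l ≠ i' → l ∈ An) (c : F) :
    ∃ α, ∀ e ∈ S, v e = c * (a e i - a e i') → u e = α * (a e i - a e i') := by
  obtain ⟨ψ, h1, h2, h3⟩ := h _ ((isN_edge hi hi').smul c)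
  refine ⟨ψ i, fun e he k => ?_⟩
  have := h3 e he (by rw [smul_dotProduct, edge_dot, k, smul_eq_mul])
  rw [h1.eq_edge hi hi' hne fun l hl k1 k2 => h2 l (hA l hl k1 k2) (by simp [k1, k2]),
    smul_dotProduct, edge_dot, smul_eq_mul] at this
  exact this.symm

/-- A star along one edge is pinned. -/
lemma PIN.star [DecidableEq ι] (hA : Al O An) {i i' : ι} (hi : i ∈ O) (hi' : i' ∈ O) (hne : i ≠ i')
    (hA' : ∀ l ∈ O, l ≠ i → l ≠ i' → l ∈ An) (hv : ∀ e ∈ S, v e = 0 ∨ v e = a e i - a e i') :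
    PIN O An S a v := fun u hu => by
  obtain ⟨α, hα⟩ := hu.edge hi hi' hne hA' 1
  refine ⟨α, fun e he => ?_⟩
  rcases hv e he with k | k
  · rw [hu.zero hA he k, k, mul_zero]
  · rw [hα e he (by rw [k, one_mul]), k]

/-- Witnessed rigid value sets pin every `v` whose values are captured. -/
lemma pinv {V : ι → Set F} (hA : Al O An) (hR : Rigid O V)
    (hw : ∀ i ∈ O, ∀ τ ∈ V i, (τ = 0 ∧ i ∈ An) ∨ ∃ f ∈ S, IsW O a v f i τ)
    (hc : ∀ e ∈ S, v e = 0 ∨ ∃ φ, Cap O V φ ∧ φ ⬝ᵥ a e = v e) : PIN O An S a v := by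
  classical
  intro u hu
  have key : ∀ i τ, ∃ x : F, (τ = 0 → x = 0) ∧ (i ∈ O → τ ∈ V i → ∀ φ ψ, IsN O φ → IsN O ψ →
      (∀ i ∈ An, φ i = 0 → ψ i = 0) → (∀ e ∈ S, φ ⬝ᵥ a e = v e → ψ ⬝ᵥ a e = u e) → φ i = τ →
      ψ i = x) := by
    intro i τ
    by_cases k : i ∈ O ∧ τ ∈ V i
    · rcases hw i k.1 τ k.2 with ⟨h0, hi⟩ | ⟨f, hf, s, hs, hv⟩
      · exact ⟨0, fun _ => rfl, fun _ _ φ ψ _ _ h2 _ e => h2 i hi (e.trans h0)⟩
      · refine ⟨u f / s, fun h0 => ?_, fun _ _ φ ψ hφ hψ _ h3 e => ?_⟩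
        · rw [hu.zero hA hf (by rw [hv, h0, zero_mul]), zero_div]
        · have := h3 f hf (by rw [hφ.dot_jump k.1 hs, e, hv])
          rw [hψ.dot_jump k.1 hs] at this
          rw [← this, mul_div_cancel_right₀ _ hs.1]
    · exact ⟨0, fun _ => rfl, fun h1 h2 => absurd ⟨h1, h2⟩ k⟩
  choose α h0 hα using key
  obtain ⟨σ, hσ⟩ := hR α (fun i => h0 i 0 rfl) fun φ hφ hV => by
    obtain ⟨ψ, h1, h2, h3⟩ := hu φ hφ
    rw [← h1.sum_eq]
    exact Finset.sum_congr rfl fun i hi => (hα i _ hi (hV i hi) φ ψ hφ h1 h2 h3 rfl).symm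
  refine ⟨σ, fun e he => ?_⟩
  rcases hc e he with k | ⟨φ, ⟨hφ, m, hm⟩, k⟩
  · rw [hu.zero hA he k, k, mul_zero]
  · obtain ⟨ψ, h1, h2, h3⟩ := hu φ hφ
    have : ψ = σ • φ := h1.ext (hφ.smul σ) m fun i hi hne => by
      rw [hα i _ hi (hm i hi hne) φ ψ hφ h1 h2 h3 rfl, hσ i hi _ (hm i hi hne)]; rfl
    rw [← h3 e he k, this, smul_dotProduct, k, smul_eq_mul]

/-- Rescaling and translating the patterns. -/
lemma PIN.scale {a' : E → ι → F} {sc c : E → F} (h : PIN O An S a' v) (hs : ∀ e ∈ S, sc e ≠ 0)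
    (ha : ∀ e ∈ S, ∀ i ∈ O, a e i = sc e * a' e i + c e) :
    PIN O An S a fun e => sc e * v e := fun u hu => by
  have key : ∀ e ∈ S, ∀ φ, IsN O φ → φ ⬝ᵥ a e = sc e * φ ⬝ᵥ a' e := fun e he φ hφ => by
    rw [hφ.dot_eq _ (c e), hφ.dot_eq _ 0, Finset.mul_sum]
    exact Finset.sum_congr rfl fun i hi => by rw [ha e he i hi]; ring
  obtain ⟨σ, hσ⟩ := h (fun e => u e / sc e) fun φ hφ => by
    obtain ⟨ψ, h1, h2, h3⟩ := hu φ hφ
    refine ⟨ψ, h1, h2, fun e he k => ?_⟩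
    have := h3 e he (by rw [key e he φ hφ, k])
    rw [key e he ψ h1] at this
    rw [eq_div_iff (hs e he), ← this, mul_comm]
  refine ⟨σ, fun e he => ?_⟩
  have := hσ e he
  rw [div_eq_iff (hs e he)] at this
  rw [this]; ring

omit [Fintype ι] in
lemma Anc.al [DecidableEq ι] (h : Anc O An S a) (hO : O.Nonempty) : Al O An := by
  rcases h with rfl | ⟨i0, -, rfl, -⟩
  · exact ⟨hO.choose, fun _ hi _ => hi⟩
  · exact ⟨i0, fun i hi hne => Finset.mem_erase.2 ⟨hne, hi⟩⟩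

omit [Fintype ι] in
lemma al_erase [DecidableEq ι] (O : Finset ι) (i0 : ι) : Al O (O.erase i0) :=
  ⟨i0, fun _ hi hne => Finset.mem_erase.2 ⟨hne, hi⟩⟩

omit [Fintype ι] in
lemma al_self (hO : O.Nonempty) : Al O O := ⟨hO.choose, fun _ hi _ => hi⟩

omit [Fintype ι] [Field F] in
lemma NC.mono (h : NC O b) (hO : O ⊆ O') : NC O' b := by
  obtain ⟨i, hi, i', hi', k⟩ := h
  exact ⟨i, hO hi, i', hO hi', k⟩

omit [Fintype ι] in
lemma Jump.mono {i : ι} {s : F} (h : Jump O i b s) (hO : O' ⊆ O) : Jump O' i b s :=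
  ⟨h.1, fun l hl => h.2 l (hO hl)⟩

omit [Fintype ι] in
/-- An item that does not have class `i` stays nonconstant without `i`. -/
lemma NC.erase [DecidableEq ι] (h : NC O b) {i : ι} (hc : ¬Cls O i b) : NC (O.erase i) b := by
  by_contra hn
  have k : ∀ l ∈ O, l ≠ i → ∀ l' ∈ O, l' ≠ i → b l = b l' := fun l hl h1 l' hl' h2 => by
    by_contra e
    exact hn ⟨l, Finset.mem_erase.2 ⟨h1, hl⟩, l', Finset.mem_erase.2 ⟨h2, hl'⟩, e⟩
  obtain ⟨x, hx, y, hy, e⟩ := h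
  have main : ∀ y ∈ O, b i ≠ b y → False := fun y hy e =>
    hc ⟨b i - b y, sub_ne_zero.2 e, fun l hl hne => by
      rw [k l hl hne y hy fun e' => e (e' ▸ rfl)]⟩
  by_cases h1 : x = i
  · exact main y hy (h1 ▸ e)
  · by_cases h2 : y = i
    · exact main x hx (h2 ▸ e.symm)
    · exact e (k x hx h1 y hy h2)

omit [Fintype ι] in
/-- With three indices an item has at most one class. -/
lemma Cls.unique {i i' l : ι} (h : Cls O i b) (h' : Cls O i' b) (hi' : i' ∈ O)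
    (hl : l ∈ O) (h1 : l ≠ i) (h2 : l ≠ i') : i = i' := by
  by_contra hne
  obtain ⟨s, hs, k⟩ := h
  obtain ⟨s', hs', k'⟩ := h'
  have e1 := k l hl h1
  have e2 := k i' hi' (Ne.symm hne)
  have e3 := k' l hl h2
  exact hs' (by linear_combination e1 - e2 - e3)

end Pin

section Sol

variable {p : ℕ} [Fact p.Prime] {F : Type} [Field F] [Algebra (ZMod p) F] {ι E J : Type}
  {O O' An An' : Finset ι} {S S' : Finset E} {a : E → ι → F} {z v : E → F}
  {X : E → Submodule (ZMod p) F} {b : ι → F} {Y Y' : Submodule (ZMod p) F} {r : ℕ}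

lemma mem_Fp {x : F} : x ∈ Fp (F := F) p ↔ ∃ c : ZMod p, algebraMap (ZMod p) F c = x := Iff.rfl

lemma Fp.zero : (0 : F) ∈ Fp (F := F) p := ⟨0, map_zero _⟩
lemma Fp.one : (1 : F) ∈ Fp (F := F) p := ⟨1, map_one _⟩
lemma Fp.neg {x : F} (h : x ∈ Fp (F := F) p) : -x ∈ Fp (F := F) p := by
  obtain ⟨c, rfl⟩ := h; exact ⟨-c, map_neg _ _⟩
lemma Fp.add {x y : F} (h : x ∈ Fp (F := F) p) (h' : y ∈ Fp (F := F) p) :
    x + y ∈ Fp (F := F) p := by
  obtain ⟨c, rfl⟩ := h; obtain ⟨d, rfl⟩ := h'; exact ⟨c + d, map_add _ _ _⟩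
lemma Fp.sub {x y : F} (h : x ∈ Fp (F := F) p) (h' : y ∈ Fp (F := F) p) :
    x - y ∈ Fp (F := F) p := by
  obtain ⟨c, rfl⟩ := h; obtain ⟨d, rfl⟩ := h'; exact ⟨c - d, map_sub _ _ _⟩
lemma Fp.mul {x y : F} (h : x ∈ Fp (F := F) p) (h' : y ∈ Fp (F := F) p) :
    x * y ∈ Fp (F := F) p := by
  obtain ⟨c, rfl⟩ := h; obtain ⟨d, rfl⟩ := h'; exact ⟨c * d, map_mul _ _ _⟩
lemma Fp.inv {x : F} (h : x ∈ Fp (F := F) p) : x⁻¹ ∈ Fp (F := F) p := by
  obtain ⟨c, rfl⟩ := h; exact ⟨c⁻¹, map_inv₀ _ _⟩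

lemma Fp.mul_mem {x w : F} (h : x ∈ Fp (F := F) p) (hw : w ∈ Y) : x * w ∈ Y := by
  obtain ⟨c, rfl⟩ := h
  rw [← Algebra.smul_def]; exact Y.smul_mem c hw

lemma Fp.mem_of_mul {x w : F} (h : x ∈ Fp (F := F) p) (h0 : x ≠ 0) (hw : x * w ∈ Y) : w ∈ Y := by
  have := Fp.mul_mem (Fp.inv h) hw
  rwa [inv_mul_cancel_left₀ h0] at this

lemma Fp.smul_mem {M : Type} [AddCommGroup M] [Module F M] [Module (ZMod p) M]
    [IsScalarTower (ZMod p) F M] {W : Submodule (ZMod p) M} {x : F} {w : M}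
    (h : x ∈ Fp (F := F) p) (hw : w ∈ W) : x • w ∈ W := by
  obtain ⟨c, rfl⟩ := h
  rw [algebraMap_smul]; exact W.smul_mem c hw

lemma two_ne (hp : p ≠ 2) : (2 : F) ≠ 0 := by
  have : CharP F p := charP_of_injective_algebraMap (algebraMap (ZMod p) F).injective p
  intro h
  have := (CharP.cast_eq_zero_iff F p 2).1 (by exact_mod_cast h)
  exact hp ((Nat.prime_dvd_prime_iff_eq Fact.out Nat.prime_two).1 this)

lemma three_eq (hp : p = 3) : (3 : F) = 0 := by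
  have : CharP F p := charP_of_injective_algebraMap (algebraMap (ZMod p) F).injective p
  have := (CharP.cast_eq_zero_iff F p 3).2 (hp ▸ dvd_rfl)
  exact_mod_cast this

lemma zmod_three : ∀ c : ZMod 3, c = 0 ∨ c = 1 ∨ c = -1 := by decide

lemma Fp.three (hp : p = 3) {x : F} (h : x ∈ Fp (F := F) p) : x = 0 ∨ x = 1 ∨ x = -1 := by
  subst hp
  obtain ⟨c, rfl⟩ := h
  rcases zmod_three c with rfl | rfl | rfl <;> simp

/-- The multiple `s X`. -/
def mulX (s : F) (X : Submodule (ZMod p) F) : Submodule (ZMod p) F :=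
  X.map (LinearMap.mulLeft (ZMod p) s)

lemma mem_mulX {s w : F} : w ∈ mulX s Y ↔ ∃ x ∈ Y, s * x = w := Iff.rfl

lemma finrank_mulX {s : F} (hs : s ≠ 0) (Y : Submodule (ZMod p) F) :
    finrank (ZMod p) (mulX s Y) = finrank (ZMod p) Y :=
  (Submodule.equivMapOfInjective _ (fun _ _ h => mul_left_cancel₀ hs h) Y).finrank_eq.symm

lemma z_mem_Yh {i i' : ι} (hi : i ∈ O) (hi' : i' ∈ O) (w : F) :
    (b i - b i') * w ∈ Yh O b w Y := Submodule.subset_span ⟨i, hi, i', hi', w, Or.inl rfl, rfl⟩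

lemma x_mem_Yh {i i' : ι} (hi : i ∈ O) (hi' : i' ∈ O) (w : F) {x : F} (hx : x ∈ Y) :
    (b i - b i') * x ∈ Yh O b w Y := Submodule.subset_span ⟨i, hi, i', hi', x, Or.inr hx, rfl⟩

lemma Yh_le {w : F} : Yh O b w Y ≤ Y' ↔ ∀ i ∈ O, ∀ i' ∈ O, (b i - b i') * w ∈ Y' ∧
    ∀ x ∈ Y, (b i - b i') * x ∈ Y' :=
  ⟨fun h _ hi _ hi' => ⟨h (z_mem_Yh hi hi' w), fun _ hx => h (x_mem_Yh hi hi' w hx)⟩, fun h =>
    Submodule.span_le.2 (by
      rintro _ ⟨i, hi, i', hi', x, rfl | hx, rfl⟩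
      exacts [(h i hi i' hi').1, (h i hi i' hi').2 x hx])⟩

lemma Yh_mono (hO : O' ⊆ O) (w : F) : Yh O' b w Y ≤ Yh O b w Y :=
  Yh_le.2 fun _ hi _ hi' => ⟨z_mem_Yh (hO hi) (hO hi') w, fun _ hx => x_mem_Yh (hO hi) (hO hi') w hx⟩

lemma mulX_le_Yh {i i' : ι} (hi : i ∈ O) (hi' : i' ∈ O) (w : F) :
    mulX (b i - b i') Y ≤ Yh O b w Y := by
  rintro _ ⟨x, hx, rfl⟩
  exact x_mem_Yh hi hi' w hx

/-- An item of class `i` lives in `Y'` iff its scaled data do. -/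
lemma Yh_le_jump {i l : ι} {s w : F} (hs : Jump O i b s) (hi : i ∈ O) (hl : l ∈ O) (hne : l ≠ i) :
    Yh O b w Y ≤ Y' ↔ s * w ∈ Y' ∧ mulX s Y ≤ Y' := by
  refine ⟨fun h => ⟨hs.2 l hl hne ▸ h (z_mem_Yh hi hl w),
    hs.2 l hl hne ▸ (mulX_le_Yh hi hl w).trans h⟩, fun h => Yh_le.2 fun x hx y hy => ?_⟩
  have k : ∀ w', s * w' ∈ Y' → (b x - b y) * w' ∈ Y' := fun w' hw => by
    by_cases h1 : x = i <;> by_cases h2 : y = i
    · simp [h1, h2]
    · rw [h1, hs.2 y hy h2]; exact hw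
    · have := Y'.neg_mem hw
      rw [h2, ← neg_sub, hs.2 x hx h1, neg_mul]; exact this
    · have : b x - b y = 0 := by linear_combination hs.2 y hy h2 - hs.2 x hx h1
      simp [this]
  exact ⟨k w h.1, fun x' hx' => k x' (h.2 ⟨x', hx', rfl⟩)⟩

/-- A rational item lives in `Y'` iff its data do. -/
lemma Yh_le_rat {w : F} (hn : NC O b) (hb : ∀ i, b i ∈ Fp (F := F) p) :
    Yh O b w Y ≤ Y' ↔ w ∈ Y' ∧ Y ≤ Y' := by
  obtain ⟨i, hi, i', hi', hne⟩ := hn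
  have h1 := Fp.sub (hb i) (hb i')
  exact ⟨fun h => ⟨Fp.mem_of_mul h1 (sub_ne_zero.2 hne) (h (z_mem_Yh hi hi' w)), fun x hx =>
    Fp.mem_of_mul h1 (sub_ne_zero.2 hne) (h (x_mem_Yh hi hi' w hx))⟩, fun h => Yh_le.2 fun x _ y _ =>
    ⟨Fp.mul_mem (Fp.sub (hb x) (hb y)) h.1, fun _ k => Fp.mul_mem (Fp.sub (hb x) (hb y)) (h.2 k)⟩⟩

lemma Items.rank_le [Finite F] (h : Items O S a z X r Y) {e : E} (he : e ∈ S)
    (hY : Yh O (a e) (z e) (X e) ≤ Y') : r ≤ finrank (ZMod p) Y' := by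
  obtain ⟨⟨i, hi, i', hi', hne⟩, h2, -⟩ := h e he
  exact h2.trans ((finrank_mulX (sub_ne_zero.2 hne) _).symm.trans_le
    (Submodule.finrank_mono ((mulX_le_Yh hi hi' _).trans hY)))

lemma Sol.ext (h : Sol S' z X v) (hS : S' ⊆ S) (h0 : ∀ e ∈ S, e ∉ S' → v e = 0) : Sol S z X v := by
  classical
  obtain ⟨ξ, h1, h2⟩ := h
  refine ⟨fun e => if e ∈ S' then ξ e else 0, fun e _ => ?_, ?_⟩
  · by_cases k : e ∈ S'
    · simpa [k] using h1 e k
    · simp [k]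
  · rw [← Finset.sum_subset hS fun e he k => by rw [h0 e he k, zero_mul], ← h2]
    exact Finset.sum_congr rfl fun e he => by simp [he]

/-- It suffices to solve modulo the shifts of one item with nonzero value. -/
lemma sol_of_mem {e0 : E} (he : e0 ∈ S) (h : ∑ e ∈ S, v e * z e ∈ mulX (v e0) (X e0)) :
    Sol S z X v := by
  classical
  obtain ⟨x, hx, k⟩ := h
  refine ⟨fun e => if e = e0 then -x else 0, fun e _ => ?_, ?_⟩
  · by_cases k : e = e0
    · simpa [k] using hx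
    · simp [k]
  · simp only [mul_add, Finset.sum_add_distrib, mul_ite, mul_zero, Finset.sum_ite_eq', he, if_true]
    rw [← k]; simp

variable [Fintype ι]

/-- Passing to fewer items and fewer indices; `g` is a dropped item that anchors `i0`. -/
lemma Good.ext (hA : Al O An) (h : Good O' An' S' a z X) (hS : S' ⊆ S) (hO : O' ⊆ O)
    (hA' : An' ⊆ O) (hn : (∀ i ∈ O, i ∈ An' ∨ i ∉ O' → i ∈ An) ∨ ∃ i0 ∈ O, ∃ g ∈ S, g ∉ S' ∧
      Cls O i0 (a g) ∧ ∀ l ∈ O, l ≠ i0 → l ∈ An) : Good O An S a z X := by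
  classical
  obtain ⟨v, ⟨e, he, hv⟩, h1, h2⟩ := h
  have c1 : ∀ e ∈ S', (if e ∈ S' then v e else 0) = v e := fun e he => if_pos he
  have c0 : ∀ e ∈ S, e ∉ S' → (if e ∈ S' then v e else 0) = 0 := fun e _ he => if_neg he
  refine ⟨fun e => if e ∈ S' then v e else 0, ⟨e, hS he, by simpa [he] using hv⟩, ?_, ?_⟩
  · rcases hn with hn | ⟨i0, hi0, g, hg, hg', hc, hl⟩
    · exact PIN.ext hA ((h1.congr c1).of_sub hO (fun i hi => hn i (hA' hi) (Or.inl hi))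
        fun i hi k => hn i hi (Or.inr k)) hS c0
    · have k : PIN O O S a fun e => if e ∈ S' then v e else 0 :=
        PIN.ext (al_self ⟨i0, hi0⟩) ((h1.congr c1).of_sub hO hA' fun i hi _ => hi) hS c0
      exact k.anchor hA hi0 hg hc (c0 g hg hg') hl
  · obtain ⟨ξ, k1, k2⟩ := h2
    exact Sol.ext ⟨ξ, k1, (Finset.sum_congr rfl fun e he => by simp [he]).trans k2⟩ hS c0

omit [Fintype ι] in
/-- A lattice that spans has rank at least the dimension. -/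
lemma card_le_of_span [Fintype J] [Finite F] {Λ : Submodule (ZMod p) (J → F)}
    (h : Submodule.span F (Λ : Set (J → F)) = ⊤) : Fintype.card J ≤ finrank (ZMod p) Λ := by
  let B := Module.finBasis (ZMod p) Λ
  have h1 : Submodule.span F (Set.range fun i => (B i : J → F)) = ⊤ := by
    refine top_le_iff.1 (h ▸ Submodule.span_le.2 fun x hx => ?_)
    have := congrArg Subtype.val (B.sum_repr ⟨x, hx⟩)
    simp only [AddSubmonoidClass.coe_finsetSum, SetLike.val_smul] at this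
    rw [← this]
    exact Submodule.sum_mem _ fun i _ =>
      Submodule.smul_of_tower_mem _ _ (Submodule.subset_span ⟨i, rfl⟩)
  have h2 := finrank_range_le_card (R := F) fun i => (B i : J → F)
  rw [Set.finrank, h1, finrank_top, finrank_fintype_fun_eq_card, Fintype.card_fin] at h2
  exact h2

/-- The values of a lattice at `x`. -/
def evX [Fintype J] (Λ : Submodule (ZMod p) (J → F)) (x : J → F) : Submodule (ZMod p) F :=
  Λ.map (((dotProductBilin F F).flip x).restrictScalars (ZMod p))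

omit [Fintype ι] in
lemma mem_evX [Fintype J] {Λ : Submodule (ZMod p) (J → F)} {x : J → F} {w : F} :
    w ∈ evX Λ x ↔ ∃ l ∈ Λ, l ⬝ᵥ x = w := Iff.rfl

omit [Fintype ι] in
lemma finrank_evX [Fintype J] [Finite F] {Λ : Submodule (ZMod p) (J → F)} {x : J → F}
    (h : ∀ l ∈ Λ, l ⬝ᵥ x = 0 → l = 0) : finrank (ZMod p) (evX Λ x) = finrank (ZMod p) Λ := by
  have := (((dotProductBilin F F).flip x).restrictScalars (ZMod p)).domRestrict Λ
    |>.finrank_range_of_inj (by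
      rw [← LinearMap.ker_eq_bot, LinearMap.ker_eq_bot']
      exact fun l hl => Subtype.ext (h l l.2 hl))
  rwa [LinearMap.range_domRestrict] at this

end Sol

end Pool.Agent.MP_d99b12_co.H57
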