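import Pool.Agent.MP_d99b12_co.H57.Basic

/-! # The end game from the zero sum lemmas (MP_d99b12_co) -/

namespace Pool.Agent.MP_d99b12_co.H57

open Matrix Module Finset

variable {p : ℕ} [Fact p.Prime] {F : Type} [Field F] [Algebra (ZMod p) F]

lemma Good.scale {ι E : Type} [Fintype ι] {O An : Finset ι} {S : Finset E} {a a' : E → ι → F}
    {z sc c : E → F} {X X' : E → Submodule (ZMod p) F}
    (h : Good O An S a' (fun e => sc e * z e) X') (hs : ∀ e ∈ S, sc e ≠ 0)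
    (ha : ∀ e ∈ S, ∀ i ∈ O, a e i = sc e * a' e i + c e)
    (hX : ∀ e ∈ S, X' e ≤ mulX (sc e) (X e)) : Good O An S a z X := by
  obtain ⟨v, ⟨e, he, hv⟩, h1, ξ, h2, h3⟩ := h
  refine ⟨fun e => sc e * v e, ⟨e, he, mul_ne_zero (hs e he) hv⟩, h1.scale hs ha,
    fun e => (sc e)⁻¹ * ξ e, fun e he => ?_, (Finset.sum_congr rfl fun e he => ?_).trans h3⟩
  · obtain ⟨x, hx, k⟩ := mem_mulX.1 (hX e he (h2 e he))
    simpa [← k, hs e he] using hx
  · have := hs e he
    field_simp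

lemma Rat.div {ι : Type} {b : ι → F} (h : Rat p b) {i i' : ι} (hne : b i ≠ b i') (l l' : ι) :
    (b l - b l') / (b i - b i') ∈ Fp (F := F) p := by
  obtain ⟨sc, h⟩ := h
  obtain ⟨c, hc, e⟩ := h i i'
  obtain ⟨c', hc', e'⟩ := h l l'
  have h0 : sc ≠ 0 := fun k => hne (sub_eq_zero.1 (by rw [e, k, mul_zero]))
  rw [e, e', mul_div_mul_right _ _ h0, div_eq_mul_inv]
  exact Fp.mul hc' (Fp.inv hc)

namespace Geo

variable {ι E J : Type} [Fintype ι] [DecidableEq ι] [Fintype E] [DecidableEq E] [Fintype J]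
  (g : Geo p F ι E J)

/-- Shifts of the row `e` that fix the other rows of `S`. -/
def Lam (S : Finset E) (e : E) : Submodule (ZMod p) (J → F) where
  carrier := {ζ | ∃ h ∈ g.H, h e = ζ ∧ ∀ e' ∈ S, e' ≠ e → h e' = 0}
  add_mem' := by
    rintro _ _ ⟨h, hh, rfl, h0⟩ ⟨h', hh', rfl, h0'⟩
    exact ⟨h + h', add_mem hh hh', rfl, fun e' k k' => by
      change h e' + h' e' = 0
      rw [h0 e' k k', h0' e' k k', add_zero]⟩
  zero_mem' := ⟨0, zero_mem _, rfl, fun _ _ _ => rfl⟩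
  smul_mem' := by
    rintro c _ ⟨h, hh, rfl, h0⟩
    exact ⟨c • h, g.H.smul_mem c hh, rfl, fun e' k k' => by
      change c • h e' = 0
      rw [h0 e' k k', smul_zero]⟩

/-- The lattice of a vector. -/
def Lv (y : E → F) : Submodule (ZMod p) (J → F) where
  carrier := {ζ | vecMulVec y ζ ∈ g.H}
  add_mem' ha hb := by
    change vecMulVec y _ ∈ g.H
    rw [vecMulVec_add]; exact add_mem ha hb
  zero_mem' := by
    change vecMulVec y (0 : J → F) ∈ g.H
    convert zero_mem g.H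
    ext a b; simp [vecMulVec_apply]
  smul_mem' c ζ h := by
    change vecMulVec y _ ∈ g.H
    rw [vecMulVec_smul]; exact g.H.smul_mem c h

open Classical in
/-- The items other than the column. -/
noncomputable def E' : Finset E := univ.filter fun e => g.uo e = 0

variable {g}

omit [Fintype ι] [DecidableEq ι] [DecidableEq E] [Fintype J] in
lemma mem_E' {e : E} : e ∈ g.E' ↔ g.uo e = 0 := by simp [E']

omit [Fintype ι] [DecidableEq ι] [Fintype E] [DecidableEq E] [Fintype J] in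
lemma mem_Lv {y : E → F} {ζ : J → F} : ζ ∈ g.Lv y ↔ vecMulVec y ζ ∈ g.H := Iff.rfl

omit [Fintype ι] [DecidableEq ι] [Fintype E] [DecidableEq E] [Fintype J] in
lemma Lam_mono {S S' : Finset E} (h : S' ⊆ S) (e : E) : g.Lam S e ≤ g.Lam S' e := by
  rintro _ ⟨h', hh, rfl, h0⟩
  exact ⟨h', hh, rfl, fun e' k => h0 e' (h k)⟩

omit [Fintype ι] [DecidableEq ι] [Fintype E] [DecidableEq E] [Fintype J] in
lemma Lv_le {S : Finset E} {y : E → F} {e : E} (h1 : y e = 1) (h0 : ∀ e' ∈ S, e' ≠ e → y e' = 0) :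
    g.Lv y ≤ g.Lam S e := fun ζ h =>
  ⟨_, h, funext fun j => by simp [vecMulVec, h1], fun e' k k' => funext fun j => by
    simp [vecMulVec, h0 e' k k']⟩

omit [Fintype ι] [DecidableEq ι] [Fintype E] [Fintype J] in
lemma single_le (S : Finset E) (e : E) : g.Lv (Pi.single e 1) ≤ g.Lam S e :=
  Lv_le (by simp) fun e' _ k => by simp [k]

omit [Fintype ι] [DecidableEq ι] [Fintype J] in
lemma yv_le {S : Finset E} (hS : S ⊆ g.E') {e : E} (he : e ∈ g.E') (i : ι) :
    g.Lv (g.yv e i) ≤ g.Lam S e :=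
  Lv_le (by simp [yv, mem_E'.1 he]) fun e' h k => by simp [yv, k, mem_E'.1 (hS h)]

omit [Fintype ι] [DecidableEq ι] [Fintype E] [DecidableEq E] [Fintype J] in
lemma lift {S T : Finset E} (hT : T ⊆ S) {ζ : E → J → F} (h : ∀ e ∈ T, ζ e ∈ g.Lam S e) :
    ∃ h ∈ g.H, (∀ e ∈ T, h e = ζ e) ∧ ∀ e ∈ S, e ∉ T → h e = 0 := by
  choose! f h1 h2 h3 using h
  have e0 : ∀ e, (∑ e' ∈ T, f e') e = ∑ e' ∈ T, f e' e := fun e => Finset.sum_apply _ _ _
  refine ⟨∑ e ∈ T, f e, sum_mem h1, fun e he => ?_, fun e he k => ?_⟩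
  · rw [e0, Finset.sum_eq_single_of_mem e he fun e' he' k => h3 e' he' e (hT he) k.symm, h2 e he]
  · rw [e0]
    exact Finset.sum_eq_zero fun e' he' => h3 e' he' e he fun k' => k (k' ▸ he')

lemma al (hg : g.Ax) : Al univ g.An := by
  rcases hg.free with ⟨-, h⟩ | ⟨-, -, h, -⟩ <;> rw [h]
  · exact al_self ⟨g.i0, mem_univ _⟩
  · exact al_erase _ _

omit [Fintype E] [DecidableEq E] [Fintype J] [Fact p.Prime] [Algebra (ZMod p) F] in
lemma jump_single (i0 : ι) : Jump univ i0 (Pi.single i0 1 : ι → F) 1 :=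
  ⟨one_ne_zero, fun l _ h => by simp [h]⟩

lemma card_E' (hg : g.Ax) : Fintype.card E ≤ g.E'.card + 1 := by
  rcases hg.free with ⟨h, -⟩ | ⟨o, h, -⟩
  · have : g.E' = univ := eq_univ_of_forall fun e => mem_E'.2 (by simp [h])
    rw [this, card_univ]; omega
  · have : univ.erase o ⊆ g.E' := fun e he => mem_E'.2 (by simp [h, (mem_erase.1 he).1])
    have := card_le_card this
    rw [card_erase_of_mem (mem_univ _), card_univ] at this
    omega

variable [Fintype F]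

omit [Fintype F] in
lemma kill (hK : KILLX p F) (hg : g.Ax) {S : Finset E} (h1 : 1 ≤ Fintype.card J)
    (hS : Fintype.card J ≤ S.card) {Λ : E → Submodule (ZMod p) (J → F)}
    (hΛ : ∀ e ∈ S, Λ e ≤ g.Lam S e) : ∃ K ⊆ S, K.card + 1 = Fintype.card J ∧ ∃ h ∈ g.H, ∃ x,
      x ≠ 0 ∧ (∀ e ∈ K, ((g.t + h) *ᵥ x) e = 0) ∧ ∀ e ∈ S, e ∉ K → ∀ l ∈ Λ e, l ⬝ᵥ x = 0 → l = 0 := by
  have row : ∀ (h : Matrix E J F) x e, ((g.t + h) *ᵥ x) e = (g.t e + h e) ⬝ᵥ x := fun _ _ _ => rfl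
  obtain ⟨K, hKS, hc, ζ, x, h2, h3, h4, h5⟩ := hK E J S g.t Λ h1 hS fun K hKS hc ζ hζ x hx => by
    obtain ⟨h, hh, k, -⟩ := lift hKS fun e he => hΛ e (hKS he) (hζ e he)
    obtain ⟨e1, he1⟩ : K.Nonempty := card_pos.1 (by omega)
    by_contra h0
    refine hg.win (K.erase e1) (by rw [card_erase_of_mem he1]; omega) (Pi.single e1 1)
      ⟨e1, by simp, by simp⟩ (fun u hu => ⟨u e1, fun e he => ?_⟩) h hh x h0 (fun e he => ?_) ?_
    · by_cases k : e = e1
      · simp [k]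
      · rw [hu.zero (al hg) he (by simp [k])]; simp [k]
    · rw [row, k e (mem_of_mem_erase he), hx e (mem_of_mem_erase he)]
    · rw [Finset.sum_eq_single e1 (fun e _ k => by simp [k]) (by simp), row, k e1 he1, hx e1 he1,
        mul_zero]
  obtain ⟨h, hh, k, -⟩ := lift hKS fun e he => hΛ e (hKS he) (h2 e he)
  exact ⟨K, hKS, hc, h, hh, x, h3, fun e he => by rw [row, k e he, h4 e he], h5⟩

omit [Fintype F] in
lemma contra (hg : g.Ax) {K S S1 : Finset E} (hc : K.card + 1 = Fintype.card J) {h : Matrix E J F}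
    (hh : h ∈ g.H) {x : J → F} (hx : x ≠ 0) (hK : ∀ e ∈ K, ((g.t + h) *ᵥ x) e = 0) (hKS : K ⊆ S)
    (h1 : S1 ⊆ S) (hd : ∀ e ∈ S1, e ∉ K) {An : Finset ι} (hA : An = g.An ∨ (An = univ ∧ S ⊆ g.E'))
    (hG : Good univ An S1 g.a ((g.t + h) *ᵥ x) fun e => evX (g.Lam S e) x) : False := by
  obtain ⟨v, ⟨e, he, hv⟩, hP, ξ, h2, h3⟩ := hG
  choose! l hl hlx using fun e he => mem_evX.1 (h2 e he)
  obtain ⟨h', hh', k1, k0⟩ := lift h1 hl
  have hsub : S1 ⊆ Kᶜ := fun e he => mem_compl.2 (hd e he)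
  have c1 : ∀ e ∈ S1, (if e ∈ S1 then v e else 0) = v e := fun e he => if_pos he
  have c0 : ∀ e ∈ Kᶜ, e ∉ S1 → (if e ∈ S1 then v e else 0) = 0 := fun e _ he => if_neg he
  have row : ∀ e, ((g.t + (h + h')) *ᵥ x) e = ((g.t + h) *ᵥ x) e + h' e ⬝ᵥ x := fun e => by
    rw [← add_assoc, add_mulVec]; rfl
  refine hg.win K hc (fun e => if e ∈ S1 then v e else 0) ⟨e, hsub he, by simpa [he] using hv⟩ ?_
    (h + h') (add_mem hh hh') x hx (fun e he => ?_) ?_
  · rcases hA with rfl | ⟨rfl, hS⟩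
    · exact (hP.congr c1).ext (al hg) hsub c0
    · have k := (hP.congr c1).ext (al_self ⟨g.i0, mem_univ _⟩) hsub c0
      rcases hg.free with ⟨-, e1⟩ | ⟨o, e1, e2, e3⟩
      · exact e1 ▸ k
      · have ho : o ∉ S := fun k => by simpa [e1] using mem_E'.1 (hS k)
        have ho' : o ∈ Kᶜ := mem_compl.2 fun k => ho (hKS k)
        exact k.anchor (al hg) (mem_univ g.i0) ho' ⟨1, e3 ▸ jump_single _⟩
          (c0 o ho' fun k => ho (h1 k)) fun l _ hl => e2 ▸ mem_erase.2 ⟨hl, mem_univ _⟩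
  · rw [row, hK e he, k0 e (hKS he) fun k => hd e k he, zero_dotProduct, add_zero]
  · rw [← Finset.sum_subset hsub fun e he k => by rw [c0 e he k, zero_mul]]
    exact (Finset.sum_congr rfl fun e he => by rw [c1 e he, row, k1 e he, hlx e he]).trans h3

omit [Fintype F] in
lemma anc (hg : g.Ax) {K : Finset E} (hK : K ⊆ g.E') {a' : E → ι → F}
    (ha : ∀ e, Cls univ g.i0 (g.a e) → Cls univ g.i0 (a' e)) : Anc univ g.An Kᶜ a' := by
  rcases hg.free with ⟨-, h⟩ | ⟨o, e1, e2, e3⟩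
  · exact Or.inl h
  · exact Or.inr ⟨g.i0, mem_univ _, e2, o, mem_compl.2 fun k => by simpa [e1] using mem_E'.1 (hK k),
      ha o ⟨1, e3 ▸ jump_single _⟩⟩

lemma rank_Lv (hg : g.Ax) (e : E) (i : ι) : Fintype.card J ≤ finrank (ZMod p) (g.Lv (g.yv e i)) :=
  card_le_of_span (hg.lam e i)

omit [Fintype ι] [DecidableEq ι] [Fintype E] [Fintype J] [Fintype F] in
lemma yv_zero (e : E) : g.yv e g.i0 = Pi.single e 1 := by simp [yv]

omit [Fintype ι] [DecidableEq ι] [Fintype E] [DecidableEq E] in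
lemma rank_ev {Λ Λ' : Submodule (ZMod p) (J → F)} {x : J → F} (hle : Λ ≤ Λ')
    (h : ∀ l ∈ Λ, l ⬝ᵥ x = 0 → l = 0) : finrank (ZMod p) Λ ≤ finrank (ZMod p) (evX Λ' x) :=
  (finrank_evX h).symm.trans_le (Submodule.finrank_mono (Submodule.map_mono hle))

omit [Fintype F] in
lemma eq_o (hg : g.Ax) {e : E} (he : e ∉ g.E') : g.uo = Pi.single e 1 ∧
    g.An = univ.erase g.i0 ∧ g.a e = Pi.single g.i0 1 := by
  rcases hg.free with ⟨h, -⟩ | ⟨o, e1, e2, e3⟩
  · exact absurd (mem_E'.2 (by simp [h])) he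
  · obtain rfl : e = o := by
      by_contra k
      exact he (mem_E'.2 (by simp [e1, k]))
    exact ⟨e1, e2, e3⟩

variable {d q : ℕ}

lemma case1 (hA : ATL p F) (hK : KILLX p F) (hg : g.Ax) (h1 : 1 ≤ Fintype.card J) (hp : p = q + 3)
    (hk : finrank (ZMod p) F = Fintype.card J + 1 + d) (h2 : 2 ≤ Fintype.card ι)
    (hE : d * (q + 2) + Fintype.card J * q + Fintype.card J + 2 ≤ Fintype.card E)
    (hι : Fintype.card ι ≤ Fintype.card J + 1) (h5 : 5 ≤ p ∨ Fintype.card ι = 2) : False := by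
  have hE' := card_E' hg
  obtain ⟨K, hKS, hc, h, hh, x, hx, hKx, inj⟩ :=
    kill hK hg (S := g.E') h1 (by omega) fun _ _ => le_rfl
  obtain ⟨n, hn⟩ : ∃ n, Fintype.card ι = n + 2 := ⟨Fintype.card ι - 2, by omega⟩
  have hnq : n * q + q ≤ Fintype.card J * q := by
    rw [← add_one_mul]; exact Nat.mul_le_mul_right _ (by omega)
  by_cases big : ∀ e ∈ g.E', e ∉ K → Fintype.card J + 1 ≤ finrank (ZMod p) (g.Lam g.E' e)
  · refine contra hg hc hh hx hKx hKS sdiff_subset (fun e he => (mem_sdiff.1 he).2)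
      (Or.inr ⟨rfl, subset_rfl⟩) (hA ι E univ univ (g.E' \ K) _ _ _ (Fintype.card J + 1) 1 ⊤
        (Or.inl rfl) (fun e he => ⟨hg.nc e, ?_, le_top⟩) (Or.inl rfl) h2 h5 ?_)
    · obtain ⟨k1, k2⟩ := mem_sdiff.1 he
      exact (big e k1 k2).trans (rank_ev le_rfl (inj e k1 k2))
    · rw [finrank_top, hk, card_univ, hn, card_sdiff_of_subset hKS,
        show Fintype.card J + 1 + d - (Fintype.card J + 1) = d by omega, show p - 1 = q + 2 by omega,
        show p - 3 = q by omega, show n + 2 - 1 - 1 = n by omega]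
      omega
  · push Not at big
    obtain ⟨e1, he1, he1', hs⟩ := big
    refine contra hg hc hh hx hKx (subset_univ _) (subset_univ _) (fun e he => mem_compl.1 he)
      (Or.inl rfl) (hA ι E univ g.An Kᶜ _ _ _ (Fintype.card J) 1 ⊤
        (anc hg hKS fun _ k => k) (fun e he => ⟨hg.nc e, ?_, le_top⟩) (Or.inl rfl) h2 h5 ?_)
    · by_cases k : e ∈ g.E'
      · refine (rank_Lv hg e g.i0).trans (rank_ev (yv_zero (g := g) e ▸ single_le _ e) fun l hl => ?_)
        exact inj e k (mem_compl.1 he) l (yv_le subset_rfl k _ hl)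
      · have eq : ∀ i, g.Lv (g.yv e1 i) = g.Lam g.E' e1 := fun i =>
          Submodule.eq_of_le_of_finrank_le (yv_le subset_rfl he1 i) ((by omega : _ ≤ _).trans
            (rank_Lv hg e1 i))
        obtain ⟨i, -, i', -, hne⟩ := hg.nc e1
        have hle : mulX (g.a e1 i - g.a e1 i') (evX (g.Lam g.E' e1) x) ≤ evX (g.Lam univ e) x := by
          rintro _ ⟨_, ⟨l, hl, rfl⟩, rfl⟩
          refine ⟨(g.a e1 i - g.a e1 i') • l, single_le _ e ?_, smul_dotProduct _ _ _⟩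
          have := sub_mem (mem_Lv.1 (eq i ▸ hl)) (mem_Lv.1 (eq i' ▸ hl))
          rw [mem_Lv, ← (eq_o hg k).1]
          convert this using 1
          ext a b
          simp only [yv, vecMulVec_apply, Pi.smul_apply, smul_eq_mul, Matrix.sub_apply, Pi.add_apply]
          ring
        have := Submodule.finrank_mono hle
        rw [finrank_mulX (sub_ne_zero.2 hne), finrank_evX (inj e1 he1 he1'), ← eq i] at this
        exact (rank_Lv hg e1 i).trans this
    · rw [finrank_top, hk, card_univ, hn, card_compl,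
        show Fintype.card J + 1 + d - Fintype.card J = d + 1 by omega, show p - 1 = q + 2 by omega,
        show p - 3 = q by omega, show n + 2 - 1 - 1 = n by omega, add_one_mul]
      omega

lemma case2 (hA : ATL p F) (hA3 : ATL3 p F) (hK : KILLX p F) (hB : BIG p F) (hg : g.Ax)
    (h1 : 1 ≤ Fintype.card J) (hp : p = q + 3) (hk : finrank (ZMod p) F = Fintype.card J + 1 + d)
    (h2 : 2 ≤ Fintype.card ι)
    (hE : d * (q + 2) + Fintype.card J * q + Fintype.card J + 2 ≤ Fintype.card E) (hS : g.NS)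
    (hR : g.NR) (h5 : (5 ≤ p ∧ Fintype.card ι ≤ Fintype.card J + 2) ∨ p = 3) : False := by
  have hE' := card_E' hg
  obtain ⟨b, e0, hb, he0, hR⟩ := hR
  have hc0 := card_erase_of_mem (mem_E'.2 he0)
  obtain ⟨K, hKS, hc, h, hh, x, hx, hKx, inj⟩ :=
    kill hK hg (S := g.E'.erase e0) h1 (by omega) fun _ _ => le_rfl
  have it : Items univ (g.E'.erase e0 \ K) g.a ((g.t + h) *ᵥ x)
      (fun e => evX (g.Lam (g.E'.erase e0) e) x) (Fintype.card J + 1) ⊤ := fun e he => by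
    obtain ⟨k1, k2⟩ := mem_sdiff.1 he
    obtain ⟨k3, k4⟩ := mem_erase.1 k1
    have le := yv_le (erase_subset e0 g.E') k4
    refine ⟨hg.nc e, (hB ι J g.ξ b (g.a e) _ ?_ (hg.nc e) hb (fun i i' k => le i (hg.edge e i i' k))
      (fun x y w η a1 a2 a3 a4 => ?_) fun x y w φ => hS e x y w φ (mem_E'.1 k4)).trans
      (rank_ev le_rfl (inj e k1 k2)), le_top⟩
    · exact top_le_iff.1 (hg.lam e g.i0 ▸ Submodule.span_mono (le g.i0))
    · obtain ⟨α, β, k⟩ := hR e k3 (mem_E'.1 k4) x y w η a1 a2 a3 a4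
      refine Lv_le ?_ (fun e' a5 a6 => ?_) k
      · simp [k3, mem_E'.1 k4]
      · simp [a6, (mem_erase.1 a5).1, mem_E'.1 (mem_erase.1 a5).2]
  have hd : finrank (ZMod p) (⊤ : Submodule (ZMod p) F) - (Fintype.card J + 1) = d := by
    rw [finrank_top, hk]; omega
  refine contra hg hc hh hx hKx hKS sdiff_subset (fun e he => (mem_sdiff.1 he).2)
    (Or.inr ⟨rfl, erase_subset _ _⟩) ?_
  rcases h5 with ⟨h5, hι⟩ | h3
  · refine hA ι E univ univ _ _ _ _ _ 1 ⊤ (Or.inl rfl) it (Or.inl rfl) h2 (Or.inl h5) ?_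
    obtain ⟨n, hn⟩ : ∃ n, Fintype.card ι = n + 2 := ⟨Fintype.card ι - 2, by omega⟩
    have hnq : n * q ≤ Fintype.card J * q := Nat.mul_le_mul_right _ (by omega)
    rw [hd, card_univ, hn, card_sdiff_of_subset hKS, show p - 1 = q + 2 by omega,
      show p - 3 = q by omega, show n + 2 - 1 - 1 = n by omega]
    omega
  · refine hA3 h3 ι E univ _ _ _ _ _ ⊤ h2 it ?_
    obtain rfl : q = 0 := by omega
    rw [hd, card_sdiff_of_subset hKS]
    omega

omit [Fintype F] in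
lemma uo_edge (hg : g.Ax) (i i' : ι) : g.ξ (Pi.single i 1 - Pi.single i' 1) ∈ g.Lv g.uo := by
  have k : ∀ i, g.ξ (Pi.single i 1 - Pi.single g.i0 1) ∈ g.Lv g.uo := fun i => by
    rcases hg.free with ⟨h, -⟩ | ⟨o, e1, -, e3⟩
    · rw [mem_Lv, h]; simp
    · by_cases hi : i = g.i0
      · simp [hi]
      · have := hg.edge o g.i0 i (by simp [e3, hi])
        rw [yv_zero, ← e1, ← mem_Lv] at this
        simpa [e3, hi] using neg_mem this
  have := sub_mem (k i) (k i')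
  rwa [← map_sub, sub_sub_sub_cancel_right] at this

omit [Fintype F] in
lemma rat_edge (hg : g.Ax) {e : E} {sc : F} (hs : sc ≠ 0)
    (hr : ∀ l l', (g.a e l - g.a e l') / sc ∈ Fp (F := F) p) (i i' : ι) :
    sc⁻¹ • g.ξ (Pi.single i 1 - Pi.single i' 1) ∈ g.Lv (Pi.single e 1) := by
  have k : ∀ i i', g.a e i ≠ g.a e i' →
      sc⁻¹ • g.ξ (Pi.single i' 1 - Pi.single i 1) ∈ g.Lv (Pi.single e 1) := fun i i' hne => by
    have h1 := Fp.smul_mem (hr i' i) (hg.edge e i i' hne)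
    have h2 := Fp.smul_mem (hr i g.i0) (mem_Lv.1 (uo_edge hg i' i))
    have h0 := sub_ne_zero.2 hne.symm
    rw [mem_Lv]
    convert sub_mem h1 h2 using 1
    ext a b
    simp only [yv, vecMulVec_apply, Pi.smul_apply, smul_eq_mul, Matrix.sub_apply, Pi.add_apply,
      Matrix.smul_apply]
    field_simp
    ring
  by_cases hne : g.a e i' = g.a e i
  · obtain ⟨l, hl⟩ : ∃ l, g.a e l ≠ g.a e i := by
      obtain ⟨x, -, y, -, h⟩ := hg.nc e
      by_contra h'
      push Not at h'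
      exact h ((h' x).trans (h' y).symm)
    have := sub_mem (k l i hl) (k l i' (hne ▸ hl))
    rwa [← smul_sub, ← map_sub, sub_sub_sub_cancel_right] at this
  · exact k i' i hne

omit [Fintype E] [DecidableEq E] [Fintype J] [Fintype F] [Fintype ι] [DecidableEq ι] in
lemma nc_scale {O : Finset ι} {b : ι → F} (h : NC O b) (c : F) {sc : F} (hs : sc ≠ 0) :
    NC O fun i => (b i - c) / sc := by
  obtain ⟨i, hi, i', hi', k⟩ := h
  exact ⟨i, hi, i', hi', fun e => k (by simpa [div_left_inj' hs] using e)⟩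

lemma case3 (hA : ATL p F) (hK : KILLX p F) (hg : g.Ax) (h1 : 1 ≤ Fintype.card J) (hp : p = q + 3)
    (hk : finrank (ZMod p) F = Fintype.card J + 1 + d) (h2 : 3 ≤ Fintype.card ι)
    (hE : d * (q + 2) + Fintype.card J * q + Fintype.card J + 2 ≤ Fintype.card E)
    (hι : Fintype.card ι ≤ Fintype.card J + 2) (h5 : 5 ≤ p) (hr : ∀ e, Rat p (g.a e))
    (hO : g.Onto) : False := by
  have hE' := card_E' hg
  have : ∀ e, ∃ sc : F, sc ≠ 0 ∧ ∀ l l', (g.a e l - g.a e l') / sc ∈ Fp (F := F) p := fun e => by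
    obtain ⟨i, -, i', -, h⟩ := hg.nc e
    exact ⟨_, sub_ne_zero.2 h, (hr e).div h⟩
  choose sc hs hF using this
  let L : Submodule (ZMod p) (J → F) :=
    Submodule.span _ {ζ | ∃ i i', ζ = g.ξ (Pi.single i 1 - Pi.single i' 1)}
  have hL : Submodule.span F (L : Set (J → F)) = ⊤ := eq_top_iff.2 fun ζ _ => by
    obtain ⟨φ, hφ, rfl⟩ := hO ζ
    have : φ = ∑ i, φ i • (Pi.single i 1 - Pi.single g.i0 1 : ι → F) := by
      simp only [smul_sub, Finset.sum_sub_distrib, ← Finset.sum_smul, hφ.2, zero_smul, sub_zero]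
      exact pi_eq_sum_univ' φ
    rw [this, map_sum]
    exact Submodule.sum_mem _ fun i _ => map_smul g.ξ _ _ ▸ Submodule.smul_mem _ _
      (Submodule.subset_span (Submodule.subset_span ⟨i, g.i0, rfl⟩))
  let M : E → Submodule (ZMod p) (J → F) := fun e =>
    L.map ((LinearMap.lsmul F (J → F) (sc e)⁻¹).restrictScalars (ZMod p))
  have hM : ∀ e, M e ≤ g.Lv (Pi.single e 1) := fun e => Submodule.map_le_iff_le_comap.2
    (Submodule.span_le.2 (by rintro _ ⟨i, i', rfl⟩; exact rat_edge hg (hs e) (hF e) i i'))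
  obtain ⟨K, hKS, hc, h, hh, x, hx, hKx, inj⟩ :=
    kill hK hg (S := g.E') h1 (by omega) fun e _ => (hM e).trans (single_le _ e)
  obtain ⟨e1, he1, he1'⟩ := exists_mem_notMem_of_card_lt_card (show K.card < g.E'.card by omega)
  have injL : ∀ l ∈ L, l ⬝ᵥ x = 0 → l = 0 := fun l hl k => by
    have := inj e1 he1 he1' _ ⟨l, hl, rfl⟩ (by simp [k])
    simpa [hs e1] using this
  refine contra hg hc hh hx hKx (subset_univ _) (subset_univ _) (fun e he => mem_compl.1 he)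
    (Or.inl rfl) (Good.scale (sc := sc) (c := fun e => g.a e g.i0) (X' := fun _ => evX L x)
      (a' := fun e i => (g.a e i - g.a e g.i0) / sc e)
      (hA ι E univ g.An Kᶜ _ _ _ (Fintype.card J) 2 ⊤ (anc hg hKS fun e k => ?_)
        (fun e _ => ⟨nc_scale (hg.nc e) _ (hs e), (card_le_of_span hL).trans (rank_ev le_rfl injL),
          le_top⟩) (Or.inr ⟨rfl, fun e _ i => hF e _ _, fun _ _ _ _ => rfl⟩) h2 (Or.inl h5) ?_)
      (fun e _ => hs e) (fun e _ i _ => by have := hs e; field_simp; ring) fun e _ => ?_)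
  · obtain ⟨s, k1, k2⟩ := k
    exact ⟨s / sc e, div_ne_zero k1 (hs e), fun l hl hne => by rw [← k2 l hl hne]; ring⟩
  · obtain ⟨n, hn⟩ : ∃ n, Fintype.card ι = n + 3 := ⟨Fintype.card ι - 3, by omega⟩
    have hnq : n * q + q ≤ Fintype.card J * q := by
      rw [← add_one_mul]; exact Nat.mul_le_mul_right _ (by omega)
    rw [finrank_top, hk, card_univ, hn, card_compl,
      show Fintype.card J + 1 + d - Fintype.card J = d + 1 by omega, show p - 1 = q + 2 by omega,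
      show p - 3 = q by omega, show n + 3 - 1 - 2 = n by omega, add_one_mul]
    omega
  · rintro _ ⟨l, hl, rfl⟩
    refine ⟨_, ⟨_, single_le _ e (hM e ⟨l, hl, rfl⟩), rfl⟩, ?_⟩
    simp [hs e]

lemma case4 (hA : ATL3 p F) (hU : UTR3 p F) (hK : KILLX p F) (hg : g.Ax) (h1 : 1 ≤ Fintype.card J)
    (hp : p = 3) (hk : finrank (ZMod p) F = Fintype.card J + 1 + d) (h2 : 2 ≤ Fintype.card ι)
    (hE : d * 2 + Fintype.card J + 2 ≤ Fintype.card E) (hr : ∀ e, Rat p (g.a e)) (hL : g.L3) :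
    False := by
  have hE' := card_E' hg
  have : ∀ e, ∃ (sc : F) (Λ : Submodule (ZMod p) (J → F)), sc ≠ 0 ∧
      (∀ l l', (g.a e l - g.a e l') / sc ∈ Fp (F := F) p) ∧ Λ ≤ g.Lv (Pi.single e 1) ∧
      (∀ l ∈ Λ, sc • l ∈ g.Lv g.uo) ∧ Fintype.card J ≤ finrank (ZMod p) Λ ∧
      (e ∉ g.E' → sc = 1 ∧ Λ = g.Lv g.uo) := fun e => by
    by_cases he : e ∈ g.E'
    · obtain ⟨i, i', hne, k⟩ := hL e (mem_E'.1 he)
      exact ⟨_, g.Lv (Pi.single e 1) ⊓ (g.Lv g.uo).comap
        ((LinearMap.lsmul F (J → F) (g.a e i - g.a e i')).restrictScalars (ZMod p)),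
        sub_ne_zero.2 hne, (hr e).div hne, inf_le_left, fun l hl => hl.2, card_le_of_span k,
        fun k => absurd he k⟩
    · obtain ⟨e1, -, e3⟩ := eq_o hg he
      refine ⟨1, g.Lv g.uo, one_ne_zero, fun l l' => ?_, e1 ▸ le_rfl, fun l hl => by simpa using hl,
        e1 ▸ yv_zero (g := g) e ▸ rank_Lv hg e g.i0, fun _ => ⟨rfl, rfl⟩⟩
      have : ∀ l, g.a e l ∈ Fp (F := F) p := fun l => by
        rw [e3, Pi.single_apply]
        split_ifs
        exacts [Fp.one, Fp.zero]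
      rw [div_one]; exact Fp.sub (this l) (this l')
  choose sc Λ hs hF hΛ hu hrk ho using this
  obtain ⟨K, hKS, hc, h, hh, x, hx, hKx, inj⟩ :=
    kill hK hg (S := g.E') h1 (by omega) fun e _ => (hΛ e).trans (single_le _ e)
  obtain ⟨e1, he1, he1'⟩ := exists_mem_notMem_of_card_lt_card (show K.card < g.E'.card by omega)
  have hle : ∀ e, mulX (sc e) (evX (Λ e) x) ≤ evX (g.Lv g.uo) x := by
    rintro e _ ⟨_, ⟨l, hl, rfl⟩, rfl⟩
    exact ⟨sc e • l, hu e l hl, smul_dotProduct _ _ _⟩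
  have r1 : ∀ e ∈ g.E', e ∉ K → Fintype.card J ≤ finrank (ZMod p) (mulX (sc e) (evX (Λ e) x)) :=
    fun e k k' => by rw [finrank_mulX (hs e), finrank_evX (inj e k k')]; exact hrk e
  have e2 : ∀ e ∉ g.E', mulX (sc e) (evX (Λ e) x) = evX (g.Lv g.uo) x := fun e he => by
    rw [(ho e he).1, (ho e he).2]
    ext w
    simp [mem_mulX]
  have it : Items univ Kᶜ (fun e i => (g.a e i - g.a e g.i0) / sc e)
      (fun e => sc e * ((g.t + h) *ᵥ x) e) (fun e => mulX (sc e) (evX (Λ e) x)) (Fintype.card J)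
      ⊤ := fun e he => by
    refine ⟨nc_scale (hg.nc e) _ (hs e), ?_, le_top⟩
    by_cases k : e ∈ g.E'
    · exact r1 e k (mem_compl.1 he)
    · exact (r1 e1 he1 he1').trans (Submodule.finrank_mono ((hle e1).trans (e2 e k).ge))
  have hn : 2 * (finrank (ZMod p) (⊤ : Submodule (ZMod p) F) - Fintype.card J) < Kᶜ.card := by
    rw [finrank_top, hk, card_compl]; omega
  refine contra hg hc hh hx hKx (subset_univ _) (subset_univ _) (fun e he => mem_compl.1 he)
    (Or.inl rfl) (Good.scale (sc := sc) (c := fun e => g.a e g.i0)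
      (X' := fun e => mulX (sc e) (evX (Λ e) x)) (a' := fun e i => (g.a e i - g.a e g.i0) / sc e)
      ?_ (fun e _ => hs e) (fun e _ i _ => by have := hs e; field_simp; ring) fun e _ =>
      Submodule.map_mono (Submodule.map_mono ((hΛ e).trans (single_le _ e))))
  rcases hg.free with ⟨-, k⟩ | ⟨o, k1, k2, k3⟩
  · rw [k]; exact hA hp ι E univ _ _ _ _ _ ⊤ h2 it hn
  · have ho' : o ∉ g.E' := fun k => by simpa [k1] using mem_E'.1 k
    rw [k2]
    refine hU hp ι E univ g.i0 _ o _ _ _ _ ⊤ h2 ⟨mem_univ _, mem_compl.2 fun k => ho' (hKS k),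
      ⟨one_ne_zero, fun l _ hl => by simp [(ho o ho').1, k3, hl]⟩, fun e _ =>
        ⟨(hle e).trans (e2 o ho').ge, fun i => hF e _ _⟩⟩ it hn

end Geo

theorem fin [Fintype F] (hA : ATL p F) (hA3 : ATL3 p F) (hU : UTR3 p F) (hK : KILLX p F)
    (hB : BIG p F) : FIN p F := by
  intro hp2 k ι E J _ _ _ _ _ g hk hg hc h2 h1 hlt
  have hp : p.Prime := Fact.out
  have h35 : p = 3 ∨ 5 ≤ p := by
    have := hp.two_le
    have : p ≠ 4 := fun h => by norm_num [h] at hp
    omega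
  obtain ⟨q, hq⟩ : ∃ q, p = q + 3 := ⟨p - 3, by omega⟩
  obtain ⟨d, hd⟩ : ∃ d, k = Fintype.card J + 1 + d := ⟨k - (Fintype.card J + 1), by omega⟩
  by_contra hE
  rw [show k - 1 = Fintype.card J + d by omega, show p - 1 = q + 2 by omega, add_mul, mul_add] at hE
  have hE' : d * (q + 2) + Fintype.card J * q + Fintype.card J + 2 ≤ Fintype.card E := by omega
  rcases hc with ⟨a1, a2⟩ | ⟨a1, a2, a3⟩ | ⟨a1, a2, a3, a4⟩ | ⟨a1, a2, a3⟩
  · exact Geo.case1 hA hK hg h1 hq (hk.trans hd) h2 hE' a1 a2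
  · exact Geo.case2 hA hA3 hK hB hg h1 hq (hk.trans hd) h2 hE' a1 a2 (by omega)
  · by_cases h3 : Fintype.card ι = 2
    · exact Geo.case1 hA hK hg h1 hq (hk.trans hd) h2 hE' (by omega) (Or.inl a1)
    · exact Geo.case3 hA hK hg h1 hq (hk.trans hd) (by omega) hE' a3 a1 a2 a4
  · obtain rfl : q = 0 := by omega
    exact Geo.case4 hA3 hU hK hg h1 a1 (hk.trans hd) h2 (by omega) a2 a3

end Pool.Agent.MP_d99b12_co.H57
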