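import Pool.Agent.MP_d99b12_co.H57.FIN

/-! # The end game when the row marks span (MP_d99b12_co) -/

namespace Pool.Agent.MP_d99b12_co.H57

open Matrix Module Finset

variable {p : ℕ} [Fact p.Prime] {F : Type} [Field F] [Algebra (ZMod p) F]
  {ι E J : Type} [Fintype ι] [DecidableEq ι] [Fintype E] [DecidableEq E] [Fintype J]
  {g : Geo p F ι E J}

lemma Geo.l3_of_onto (hg : g.Ax) (hr : ∀ e, Rat p (g.a e)) (hO : g.Onto) : g.L3 := fun e _ => by
  obtain ⟨i, -, i', -, h⟩ := hg.nc e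
  have hs := sub_ne_zero.2 h
  refine ⟨i, i', h, eq_top_iff.2 fun ζ _ => ?_⟩
  obtain ⟨φ, hφ, rfl⟩ := hO ζ
  have : φ = ∑ i, φ i • (Pi.single i 1 - Pi.single g.i0 1 : ι → F) := by
    simp only [smul_sub, Finset.sum_sub_distrib, ← Finset.sum_smul, hφ.2, zero_smul, sub_zero]
    exact pi_eq_sum_univ' φ
  rw [this, map_sum]
  refine Submodule.sum_mem _ fun l _ => map_smul g.ξ _ _ ▸ Submodule.smul_mem _ _
    ((Submodule.smul_mem_iff _ (inv_ne_zero hs)).1 (Submodule.subset_span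
      ⟨Geo.rat_edge hg hs ((hr e).div h) l g.i0, ?_⟩))
  rw [smul_inv_smul₀ hs]
  exact Geo.uo_edge hg l g.i0

/-- The form of the end game that the structure theory uses. -/
theorem fin2 [Fintype F] (hF : FIN p F) (hp : p ≠ 2) {k : ℕ} (hk : finrank (ZMod p) F = k)
    (hg : g.Ax) (h2 : 2 ≤ Fintype.card ι) (h1 : 1 ≤ Fintype.card J) (hJ : Fintype.card J < k)
    (hc : Fintype.card ι = 2 ∨ (Fintype.card ι ≤ Fintype.card J + 2 ∧ g.Onto ∧
      ((g.NS ∧ g.NR) ∨ ∀ e, Rat p (g.a e)))) :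
    Fintype.card E + Fintype.card J ≤ (k - 1) * (p - 1) + 1 := by
  refine hF hp k ι E J g hk hg ?_ h2 h1 hJ
  have hp' : p.Prime := Fact.out
  have h35 : p = 3 ∨ 5 ≤ p := by
    have := hp'.two_le
    have : p ≠ 4 := fun h => by norm_num [h] at hp'
    omega
  rcases hc with h | ⟨a1, a2, ⟨a3, a4⟩ | a3⟩
  · exact Or.inl ⟨by omega, Or.inr h⟩
  · exact Or.inr (Or.inl ⟨a3, a4, Or.inl a1⟩)
  · rcases h35 with h | h
    · exact Or.inr (Or.inr (Or.inr ⟨h, a3, Geo.l3_of_onto hg a3 a2⟩))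
    · exact Or.inr (Or.inr (Or.inl ⟨h, a3, a1, a2⟩))

end Pool.Agent.MP_d99b12_co.H57
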