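import Mathlib

/-! # The final algebra for odd characteristic (MP_d99b12_co): definitions and statements.
Proofs on paper: `/team-store/MP_d99b12_H57_LC.md` and `/team-store/MP_d99b12_H57_rows.md`. -/

namespace Pool.Agent.MP_d99b12_co.H57

open Matrix Module

/-! ## Pinned functionals -/

section Pin

variable {F : Type} [Field F] {ι E : Type}

/-- `φ` is supported on `O` and has coordinate sum zero. -/
def IsN [Fintype ι] (O : Finset ι) (φ : ι → F) : Prop := (∀ i, i ∉ O → φ i = 0) ∧ ∑ i, φ i = 0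

/-- `u` copies every local section of `v`. -/
def Loc [Fintype ι] (O An : Finset ι) (S : Finset E) (a : E → ι → F) (v u : E → F) : Prop :=
  ∀ φ, IsN O φ → ∃ ψ, IsN O ψ ∧ (∀ i ∈ An, φ i = 0 → ψ i = 0) ∧
    ∀ e ∈ S, φ ⬝ᵥ a e = v e → ψ ⬝ᵥ a e = u e

/-- `v` is pinned: whatever copies its local sections is a multiple of it. -/
def PIN [Fintype ι] (O An : Finset ι) (S : Finset E) (a : E → ι → F) (v : E → F) : Prop :=
  ∀ u, Loc O An S a v u → ∃ σ, ∀ e ∈ S, u e = σ * v e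

/-- `b` is not constant on `O`. -/
def NC (O : Finset ι) (b : ι → F) : Prop := ∃ i ∈ O, ∃ i' ∈ O, b i ≠ b i'

/-- `b` is constant on `O` minus `i`, and jumps by `s` at `i`. -/
def Jump (O : Finset ι) (i : ι) (b : ι → F) (s : F) : Prop :=
  s ≠ 0 ∧ ∀ l ∈ O, l ≠ i → b i - b l = s

/-- `b` has class `i`. -/
def Cls (O : Finset ι) (i : ι) (b : ι → F) : Prop := ∃ s, Jump O i b s

/-- At most one index of `O` is not anchored. -/
def Al (O An : Finset ι) : Prop := ∃ i0, ∀ i ∈ O, i ≠ i0 → i ∈ An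

/-- All indices are anchored, or all but one and that one carries an item. -/
def Anc [DecidableEq ι] (O An : Finset ι) (S : Finset E) (a : E → ι → F) : Prop :=
  An = O ∨ ∃ i0 ∈ O, An = O.erase i0 ∧ ∃ o ∈ S, Cls O i0 (a o)

/-- The item `f` has class `i` and carries the value `τ`. -/
def IsW (O : Finset ι) (a : E → ι → F) (v : E → F) (f : E) (i : ι) (τ : F) : Prop :=
  ∃ s, Jump O i (a f) s ∧ v f = τ * s

/-- All coordinates of `φ` but one lie in the value sets. -/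
def Cap [Fintype ι] (O : Finset ι) (V : ι → Set F) (φ : ι → F) : Prop :=
  IsN O φ ∧ ∃ m, ∀ i ∈ O, i ≠ m → φ i ∈ V i

/-- The value sets admit only the linear solutions. -/
def Rigid [Fintype ι] (O : Finset ι) (V : ι → Set F) : Prop :=
  ∀ α : ι → F → F, (∀ i, α i 0 = 0) →
    (∀ φ, IsN O φ → (∀ i ∈ O, φ i ∈ V i) → ∑ i ∈ O, α i (φ i) = 0) →
    ∃ σ, ∀ i ∈ O, ∀ τ ∈ V i, α i τ = σ * τ

end Pin

/-! ## Covering -/

section Cover

variable {𝕜 V E : Type} [Field 𝕜] [AddCommGroup V] [Module 𝕜 V]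

open Classical in
/-- The items that do not live in `Y`. -/
noncomputable def DD (S : Finset E) (Yh : E → Submodule 𝕜 V) (Y : Submodule 𝕜 V) : Finset E :=
  S.filter fun e => ¬Yh e ≤ Y

lemma mem_DD {S : Finset E} {Yh : E → Submodule 𝕜 V} {Y : Submodule 𝕜 V} {e : E} :
    e ∈ DD S Yh Y ↔ e ∈ S ∧ ¬Yh e ≤ Y := by
  classical
  unfold DD
  convert Finset.mem_filter

/-- The condition of Rado type between `X` and `G`. -/
def RC (S : Finset E) (Yh : E → Submodule 𝕜 V) (X G : Submodule 𝕜 V) : Prop :=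
  ∀ Y, X ≤ Y → Y ≤ G → finrank 𝕜 G ≤ finrank 𝕜 Y + (DD S Yh Y).card

end Cover

/-- Every vector of `G` is a sum of values of moves modulo `X`. -/
def COV : Prop := ∀ (𝕜 V E : Type) [Field 𝕜] [AddCommGroup V] [Module 𝕜 V] [FiniteDimensional 𝕜 V]
  (S : Finset E) (mv : E → Set (V × V)) (Yh : E → Submodule 𝕜 V) (X G : Submodule 𝕜 V), X ≤ G →
  (∀ e ∈ S, Yh e ≤ G) → (∀ e ∈ S, Yh e ≤ Submodule.span 𝕜 (Prod.snd '' mv e)) →
  (∀ e ∈ S, ∀ m ∈ mv e, m.1 ∈ Yh e ∧ m.2 ∈ Yh e) → RC S Yh X G → ∀ γ ∈ G, ∃ w : E → V,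
    (∀ e ∈ S, w e = 0 ∨ ∃ m ∈ mv e, ∃ t : 𝕜, w e = m.1 + t • m.2) ∧ γ - ∑ e ∈ S, w e ∈ X

/-- An item of `T` can be removed, or one tight space sees all of `T`. -/
def GREEDY : Prop := ∀ (𝕜 V E : Type) [Field 𝕜] [AddCommGroup V] [Module 𝕜 V]
  [FiniteDimensional 𝕜 V] [DecidableEq E] (S T : Finset E) (Yh : E → Submodule 𝕜 V)
  (X G : Submodule 𝕜 V), X ≤ G → (∀ e ∈ S, Yh e ≤ G) → T ⊆ S → RC S Yh X G →
  (∃ e ∈ T, RC (S.erase e) Yh X G) ∨ ∃ Y, X ≤ Y ∧ Y ≤ G ∧ T ⊆ DD S Yh Y ∧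
    finrank 𝕜 G = finrank 𝕜 Y + (DD S Yh Y).card

/-- Zero sums modulo subspaces that depend on the item. -/
def GO (p : ℕ) [Fact p.Prime] : Prop := ∀ (V E : Type) [AddCommGroup V] [Module (ZMod p) V]
  [Finite V] (S : Finset E) (z : E → V) (X : E → Submodule (ZMod p) V) (Y : Submodule (ZMod p) V)
  (r : ℕ), (∀ e ∈ S, z e ∈ Y ∧ X e ≤ Y ∧ r ≤ finrank (ZMod p) (X e)) →
  (finrank (ZMod p) Y - r) * (p - 1) < S.card →
  ∃ I ⊆ S, I.Nonempty ∧ ∃ ξ : E → V, (∀ e ∈ I, ξ e ∈ X e) ∧ ∑ e ∈ I, (z e + ξ e) = 0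

/-! ## Pinned zero sums -/

section Sol

variable (p : ℕ) [Fact p.Prime] {F : Type} [Field F] [Algebra (ZMod p) F] {ι E J : Type}

/-- The prime field inside `F`. -/
def Fp : Set F := Set.range (algebraMap (ZMod p) F)

variable {p}

/-- `v` annihilates a shift of `z`. -/
def Sol (S : Finset E) (z : E → F) (X : E → Submodule (ZMod p) F) (v : E → F) : Prop :=
  ∃ ξ : E → F, (∀ e ∈ S, ξ e ∈ X e) ∧ ∑ e ∈ S, v e * (z e + ξ e) = 0

/-- The space in which an item can contribute. -/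
def Yh (O : Finset ι) (b : ι → F) (z : F) (X : Submodule (ZMod p) F) : Submodule (ZMod p) F :=
  Submodule.span (ZMod p) {w | ∃ i ∈ O, ∃ i' ∈ O, ∃ x, (x = z ∨ x ∈ X) ∧ w = (b i - b i') * x}

/-- A nonzero pinned solution exists. -/
def Good [Fintype ι] (O An : Finset ι) (S : Finset E) (a : E → ι → F) (z : E → F)
    (X : E → Submodule (ZMod p) F) : Prop :=
  ∃ v, (∃ e ∈ S, v e ≠ 0) ∧ PIN O An S a v ∧ Sol S z X v

/-- Items are not constant, have rank at least `r` and live in `Y`. -/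
def Items (O : Finset ι) (S : Finset E) (a : E → ι → F) (z : E → F)
    (X : E → Submodule (ZMod p) F) (r : ℕ) (Y : Submodule (ZMod p) F) : Prop :=
  ∀ e ∈ S, NC O (a e) ∧ r ≤ finrank (ZMod p) (X e) ∧ Yh O (a e) (z e) (X e) ≤ Y

/-- No set of items can be dropped together with a quotient. -/
def NoA (O : Finset ι) (S : Finset E) (a : E → ι → F) (z : E → F)
    (X : E → Submodule (ZMod p) F) (r : ℕ) (Y : Submodule (ZMod p) F) : Prop :=
  ∀ Y' < Y, r ≤ finrank (ZMod p) Y' → (p - 1) * (finrank (ZMod p) Y - finrank (ZMod p) Y') <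
    (DD S (fun e => Yh O (a e) (z e) (X e)) Y').card

/-- No index can be dropped. -/
def NoB (O : Finset ι) (S : Finset E) (a : E → ι → F) (z : E → F)
    (X : E → Submodule (ZMod p) F) (r : ℕ) (Y : Submodule (ZMod p) F) : Prop :=
  ∀ i ∈ O, ∀ Y' ≤ Y, r ≤ finrank (ZMod p) Y' → ∀ D : Finset E,
    (∀ e ∈ S, ¬Yh O (a e) (z e) (X e) ≤ Y' ∨ Cls O i (a e) → e ∈ D) →
    (p - 1) * (finrank (ZMod p) Y - finrank (ZMod p) Y') + (p - 3) < D.card

variable (p)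

/-- The value sets of the rigid frame. -/
def V3 (i1 i2 i3 : ι) (i : ι) : Set F :=
  {τ | τ = 0 ∨ ((i = i1 ∨ i = i2) ∧ τ ∈ Fp p ∧ τ ≠ 1) ∨ (i = i3 ∧ τ = -2)}

/-- The differences of the values of `b` lie on one line over the prime field. -/
def Rat (b : ι → F) : Prop := ∃ sc : F, ∀ i i', ∃ c ∈ Fp (F := F) p, b i - b i' = c * sc

end Sol

section Statements

variable (p : ℕ) [Fact p.Prime] (F : Type) [Field F] [Fintype F] [Algebra (ZMod p) F]

/-- The frame `V3` is rigid. -/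
def RIG : Prop := p ≠ 2 → ∀ (ι : Type) [Fintype ι] (O : Finset ι) (i1 i2 i3 : ι), i1 ∈ O → i2 ∈ O →
  i3 ∈ O → i1 ≠ i2 → i1 ≠ i3 → i2 ≠ i3 → Rigid O (V3 (F := F) p i1 i2 i3)

/-- A rigid frame `A` and the covering condition for the other items give a pinned solution. -/
def CLOSE : Prop := p ≠ 2 → ∀ (ι E : Type) [Fintype ι] [DecidableEq ι] [DecidableEq E]
  (O An : Finset ι) (S A : Finset E) (a : E → ι → F) (z : E → F) (X : E → Submodule (ZMod p) F)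
  (i1 i2 i3 : ι) (v0 : E → F) (Xs G : Submodule (ZMod p) F), i1 ∈ O → i2 ∈ O → i3 ∈ O → i1 ≠ i2 →
  i1 ≠ i3 → i2 ≠ i3 → Al O An → A ⊆ S →
  (∀ i ∈ O, ∀ τ ∈ V3 (F := F) p i1 i2 i3 i, (τ = 0 ∧ i ∈ An) ∨ ∃ f ∈ A, IsW O a v0 f i τ) →
  (∀ f ∈ A, ∃ i ∈ O, ∃ τ ∈ V3 (F := F) p i1 i2 i3 i, IsW O a v0 f i τ) →
  (∀ x ∈ Xs, ∃ ξ : E → F, (∀ f ∈ A, ξ f ∈ X f) ∧ x = ∑ f ∈ A, v0 f * ξ f) → Xs ≤ G →
  (∀ e ∈ S \ A, Yh O (a e) (z e) (X e) ≤ G) →
  RC (S \ A) (fun e => Yh O (a e) (z e) (X e)) Xs G → ∑ f ∈ A, v0 f * z f ∈ G →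
  Good O An S a z X

/-- The case in which nothing can be dropped, `p ≥ 5`. -/
def HEAVY : Prop := 5 ≤ p → ∀ (ι E : Type) [Fintype ι] [DecidableEq ι] [DecidableEq E]
  (O An : Finset ι) (S : Finset E) (a : E → ι → F) (z : E → F) (X : E → Submodule (ZMod p) F)
  (r : ℕ) (Y : Submodule (ZMod p) F), 3 ≤ O.card → Al O An →
  Items O S a z X r Y → r ≤ finrank (ZMod p) Y → NoA O S a z X r Y → NoB O S a z X r Y →
  Good O An S a z X

/-- Two indices. -/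
def BASE : Prop := ∀ (ι E : Type) [Fintype ι] (O An : Finset ι) (S : Finset E) (a : E → ι → F)
  (z : E → F) (X : E → Submodule (ZMod p) F) (r : ℕ) (Y : Submodule (ZMod p) F), O.card = 2 →
  Al O An → Items O S a z X r Y → (finrank (ZMod p) Y - r) * (p - 1) < S.card → Good O An S a z X

/-- Three indices, uniform data. -/
def FL : Prop := ∀ (ι E : Type) [Fintype ι] [DecidableEq ι] [DecidableEq E] (O An : Finset ι)
  (S : Finset E) (a : E → ι → F) (z : E → F) (X : E → Submodule (ZMod p) F) (r : ℕ)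
  (Y : Submodule (ZMod p) F), O.card = 3 → Anc O An S a → Items O S a z X r Y →
  (∀ e ∈ S, ∀ i, a e i ∈ Fp p) → (∀ e ∈ S, ∀ e' ∈ S, X e = X e') →
  (finrank (ZMod p) Y - r) * (p - 1) < S.card → Good O An S a z X

/-- The anchored twisted zero sum lemma. -/
def ATL : Prop := ∀ (ι E : Type) [Fintype ι] [DecidableEq ι] [DecidableEq E] (O An : Finset ι)
  (S : Finset E) (a : E → ι → F) (z : E → F) (X : E → Submodule (ZMod p) F) (r j0 : ℕ)
  (Y : Submodule (ZMod p) F), Anc O An S a → Items O S a z X r Y →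
  (j0 = 1 ∨ (j0 = 2 ∧ (∀ e ∈ S, ∀ i, a e i ∈ Fp p) ∧ ∀ e ∈ S, ∀ e' ∈ S, X e = X e')) →
  j0 + 1 ≤ O.card → (5 ≤ p ∨ O.card = j0 + 1) →
  (finrank (ZMod p) Y - r) * (p - 1) + (O.card - 1 - j0) * (p - 3) < S.card → Good O An S a z X

/-- The case in which nothing can be dropped, `p = 3`, all indices anchored. -/
def HEAVY3 : Prop := p = 3 → ∀ (ι E : Type) [Fintype ι] [DecidableEq ι] [DecidableEq E]
  (O : Finset ι) (S : Finset E) (a : E → ι → F) (z : E → F) (X : E → Submodule (ZMod p) F)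
  (r : ℕ) (Y : Submodule (ZMod p) F), 3 ≤ O.card → Items O S a z X r Y → NoA O S a z X r Y →
  (∀ i ∈ O, ∃ f ∈ S, Cls O i (a f)) → 2 * (finrank (ZMod p) Y - r) < S.card → Good O O S a z X

/-- The anchored lemma for `p = 3`. -/
def ATL3 : Prop := p = 3 → ∀ (ι E : Type) [Fintype ι] [DecidableEq ι] [DecidableEq E]
  (O : Finset ι) (S : Finset E) (a : E → ι → F) (z : E → F) (X : E → Submodule (ZMod p) F)
  (r : ℕ) (Y : Submodule (ZMod p) F), 2 ≤ O.card → Items O S a z X r Y →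
  2 * (finrank (ZMod p) Y - r) < S.card → Good O O S a z X

variable {p F} in
/-- Rational data with a free item `o` of class `i0` whose shifts contain all the others. -/
def Free {ι E : Type} (O : Finset ι) (i0 : ι) (S : Finset E) (o : E) (a : E → ι → F)
    (X : E → Submodule (ZMod p) F) : Prop :=
  i0 ∈ O ∧ o ∈ S ∧ Jump O i0 (a o) 1 ∧ ∀ e ∈ S, X e ≤ X o ∧ ∀ i, a e i ∈ Fp p

variable {p F} in
/-- Dropping items, with or without the free one, is impossible. -/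
def NoM {ι E : Type} [DecidableEq E] (O : Finset ι) (i0 : ι) (S : Finset E) (o : E)
    (a : E → ι → F) (z : E → F) (X : E → Submodule (ZMod p) F) (r : ℕ)
    (Y : Submodule (ZMod p) F) : Prop :=
  ∀ Y' < Y, r ≤ finrank (ZMod p) ↥(X o ⊓ Y') → ∀ D : Finset E, D ⊆ S.erase o →
    (∀ e ∈ S.erase o, ¬Yh O (a e) (z e) (X e) ≤ Y' → e ∈ D) →
    2 * (finrank (ZMod p) Y - finrank (ZMod p) Y') ≤ D.card ∧
    (D.card = 2 * (finrank (ZMod p) Y - finrank (ZMod p) Y') → ∀ c : E → ι, (∀ e, c e ∈ O) →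
      z o + ∑ e ∈ D, (a e i0 - a e (c e)) * z e ∉ Y')

/-- Signed witnesses on three or four indices pin every rational `v`. -/
def UPIN : Prop := p = 3 → ∀ (ι E : Type) [Fintype ι] [DecidableEq ι] (O T : Finset ι) (i0 : ι)
  (S : Finset E) (o : E) (a : E → ι → F) (v : E → F) (ε : ι → F), T ⊆ O → i0 ∈ T → o ∈ S →
  Jump O i0 (a o) 1 → (∀ e ∈ S, NC O (a e) ∧ v e ∈ Fp p ∧ ∀ i, a e i ∈ Fp p) →
  (∀ i ∈ T, (ε i = 1 ∨ ε i = -1) ∧ ∃ f ∈ S, IsW O a v f i ((if i = i0 then v o else 0) + ε i)) →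
  ((T.card = 4 ∧ NC T ε) ∨ (T = O ∧ T.card = 3 ∧ v o ≠ ∑ i ∈ T, ε i)) →
  PIN O (O.erase i0) S a v

/-- Free item, nothing can be dropped, at least four indices. -/
def UH4 : Prop := p = 3 → ∀ (ι E : Type) [Fintype ι] [DecidableEq ι] [DecidableEq E]
  (O : Finset ι) (i0 : ι) (S : Finset E) (o : E) (a : E → ι → F) (z : E → F)
  (X : E → Submodule (ZMod p) F) (r : ℕ) (Y : Submodule (ZMod p) F), 4 ≤ O.card →
  Free O i0 S o a X → Items O S a z X r Y → NoM O i0 S o a z X r Y →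
  (∀ i ∈ O, ∃ f ∈ S.erase o, Cls O i (a f)) → Good O (O.erase i0) S a z X

/-- Free item, nothing can be dropped, three indices. -/
def UH3 : Prop := p = 3 → ∀ (ι E : Type) [Fintype ι] [DecidableEq ι] [DecidableEq E]
  (O : Finset ι) (i0 : ι) (S : Finset E) (o : E) (a : E → ι → F) (z : E → F)
  (X : E → Submodule (ZMod p) F) (r : ℕ) (Y : Submodule (ZMod p) F), O.card = 3 →
  Free O i0 S o a X → Items O S a z X r Y → NoM O i0 S o a z X r Y →
  (∀ i ∈ O, ∃ f ∈ S.erase o, Cls O i (a f)) → 2 * (finrank (ZMod p) Y - r) < S.card →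
  Good O (O.erase i0) S a z X

/-- The lemma with a free item for `p = 3`. -/
def UTR3 : Prop := p = 3 → ∀ (ι E : Type) [Fintype ι] [DecidableEq ι] [DecidableEq E]
  (O : Finset ι) (i0 : ι) (S : Finset E) (o : E) (a : E → ι → F) (z : E → F)
  (X : E → Submodule (ZMod p) F) (r : ℕ) (Y : Submodule (ZMod p) F), 2 ≤ O.card →
  Free O i0 S o a X → Items O S a z X r Y → 2 * (finrank (ZMod p) Y - r) < S.card →
  Good O (O.erase i0) S a z X

/-- Killers that keep all the other lattices injective. -/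
def KILLX : Prop := ∀ (E J : Type) [Fintype J] (S : Finset E) (t : E → J → F)
  (Λ : E → Submodule (ZMod p) (J → F)), 1 ≤ Fintype.card J → Fintype.card J ≤ S.card →
  (∀ K ⊆ S, K.card = Fintype.card J → ∀ ζ : E → J → F, (∀ e ∈ K, ζ e ∈ Λ e) →
    ∀ x, (∀ e ∈ K, (t e + ζ e) ⬝ᵥ x = 0) → x = 0) →
  ∃ K ⊆ S, K.card + 1 = Fintype.card J ∧ ∃ (ζ : E → J → F) (x : J → F), (∀ e ∈ K, ζ e ∈ Λ e) ∧
    x ≠ 0 ∧ (∀ e ∈ K, (t e + ζ e) ⬝ᵥ x = 0) ∧ ∀ e ∈ S, e ∉ K → ∀ l ∈ Λ e, l ⬝ᵥ x = 0 → l = 0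

/-- A pattern that is not rational makes the lattices big. -/
def BIG : Prop := ∀ (ι J : Type) [Fintype ι] [DecidableEq ι] [Fintype J]
  (ξ : (ι → F) →ₗ[F] (J → F)) (b c : ι → F) (Λ : Submodule (ZMod p) (J → F)),
  Submodule.span F (Λ : Set (J → F)) = ⊤ → NC Finset.univ c → ¬Rat p b →
  (∀ i i', c i ≠ c i' → (c i' - c i)⁻¹ • ξ (Pi.single i' 1 - Pi.single i 1) ∈ Λ) →
  (∀ x y w η, b x ≠ b y → IsN {x, y, w} η → η ⬝ᵥ b = 0 → η ⬝ᵥ c ≠ 0 → (η ⬝ᵥ c)⁻¹ • ξ η ∈ Λ) →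
  (∀ x y w φ, IsN {x, y, w} φ → φ ≠ 0 → NC {x, y, w} c → ξ φ = 0 → φ ⬝ᵥ c ≠ 0) →
  Fintype.card J + 1 ≤ finrank (ZMod p) Λ

end Statements

/-! ## The geometric data -/

/-- Items `E` (a basis of the marks seen from the rows around one column), their patterns `a` on
the index set `ι`, the mark `uo` of the column, offset `t`, shifts `H`, row marks `ξ`. -/
structure Geo (p : ℕ) [Fact p.Prime] (F ι E J : Type) [Field F] [Algebra (ZMod p) F] where
  a : E → ι → F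
  i0 : ι
  An : Finset ι
  uo : E → F
  t : Matrix E J F
  H : Submodule (ZMod p) (Matrix E J F)
  ξ : (ι → F) →ₗ[F] (J → F)

namespace Geo

variable {p : ℕ} [Fact p.Prime] {F ι E J : Type} [Field F] [Algebra (ZMod p) F] [Fintype ι]
  [DecidableEq ι] [Fintype E] [DecidableEq E] [Fintype J] (g : Geo p F ι E J)

/-- The mark of the item `e` in the display without the index `i`. -/
def yv (e : E) (i : ι) : E → F := Pi.single e 1 + (g.a e i - g.a e g.i0) • g.uo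

structure Ax : Prop where
  nc : ∀ e, NC Finset.univ (g.a e)
  free : (g.uo = 0 ∧ g.An = Finset.univ) ∨ ∃ o, g.uo = Pi.single o 1 ∧
    g.An = Finset.univ.erase g.i0 ∧ g.a o = Pi.single g.i0 1
  win : ∀ K : Finset E, K.card + 1 = Fintype.card J → ∀ v : E → F, (∃ e ∈ Kᶜ, v e ≠ 0) →
    PIN Finset.univ g.An Kᶜ g.a v → ∀ h ∈ g.H, ∀ x, x ≠ 0 →
    (∀ e ∈ K, ((g.t + h) *ᵥ x) e = 0) → ∑ e ∈ Kᶜ, v e * ((g.t + h) *ᵥ x) e ≠ 0
  edge : ∀ e i i', g.a e i ≠ g.a e i' → vecMulVec (g.yv e i)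
    ((g.a e i' - g.a e i)⁻¹ • g.ξ (Pi.single i' 1 - Pi.single i 1)) ∈ g.H
  lam : ∀ e i, Submodule.span F {ζ | vecMulVec (g.yv e i) ζ ∈ g.H} = ⊤

/-- No unmarked row can be produced from three indices and one item. -/
def NS : Prop := ∀ e x y w φ, g.uo e = 0 → IsN {x, y, w} φ → φ ≠ 0 → NC {x, y, w} (g.a e) →
  g.ξ φ = 0 → φ ⬝ᵥ g.a e ≠ 0

/-- A column with a pattern `b` that is not rational; its mark lies in the span of `e0` and `uo`. -/
def NR : Prop := ∃ (b : ι → F) (e0 : E), ¬Rat p b ∧ g.uo e0 = 0 ∧ ∀ e, e ≠ e0 → g.uo e = 0 →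
  ∀ x y w η, b x ≠ b y → IsN {x, y, w} η → η ⬝ᵥ b = 0 → η ⬝ᵥ g.a e ≠ 0 → ∃ α β : F,
    vecMulVec (Pi.single e 1 + α • Pi.single e0 1 + β • g.uo) ((η ⬝ᵥ g.a e)⁻¹ • g.ξ η) ∈ g.H

/-- The row marks span. -/
def Onto : Prop := ∀ ζ, ∃ φ, IsN Finset.univ φ ∧ g.ξ φ = ζ

/-- The lattices of an item and of the column share a spanning part. -/
def L3 : Prop := ∀ e, g.uo e = 0 → ∃ i i', g.a e i ≠ g.a e i' ∧ Submodule.span F
  {ζ | vecMulVec (Pi.single e 1) ζ ∈ g.H ∧ vecMulVec g.uo ((g.a e i - g.a e i') • ζ) ∈ g.H} = ⊤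

/-- One of the four cases of the end game. -/
def Case : Prop :=
  (Fintype.card ι ≤ Fintype.card J + 1 ∧ (5 ≤ p ∨ Fintype.card ι = 2)) ∨
  (g.NS ∧ g.NR ∧ (Fintype.card ι ≤ Fintype.card J + 2 ∨ p = 3)) ∨
  (5 ≤ p ∧ (∀ e, Rat p (g.a e)) ∧ Fintype.card ι ≤ Fintype.card J + 2 ∧ g.Onto) ∨
  (p = 3 ∧ (∀ e, Rat p (g.a e)) ∧ g.L3)

end Geo

/-- The end game: the geometric data cannot reach the level `(k - 1) (p - 1) + 2`. -/
def FIN (p : ℕ) [Fact p.Prime] (F : Type) [Field F] [Fintype F] [Algebra (ZMod p) F] : Prop :=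
  p ≠ 2 → ∀ (k : ℕ) (ι E J : Type) [Fintype ι] [DecidableEq ι] [Fintype E] [DecidableEq E]
  [Fintype J] (g : Geo p F ι E J), finrank (ZMod p) F = k → g.Ax → g.Case → 2 ≤ Fintype.card ι →
  1 ≤ Fintype.card J → Fintype.card J < k →
  Fintype.card E + Fintype.card J ≤ (k - 1) * (p - 1) + 1

end Pool.Agent.MP_d99b12_co.H57
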