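import Pool.Agent.MP_d99b12_co.H57.Basic

/-! # Free item, three indices, characteristic three (MP_d99b12_co) -/

namespace Pool.Agent.MP_d99b12_co.H57

open Matrix Module

namespace UH3

section Gen

variable {𝕜 V E : Type} [Field 𝕜] [AddCommGroup V] [Module 𝕜 V] [FiniteDimensional 𝕜 V]

omit [FiniteDimensional 𝕜 V] in
/-- Below a violator the covering condition holds. -/
lemma viol [DecidableEq E] {S : Finset E} {Yh : E → Submodule 𝕜 V} {X G Y1 : Submodule 𝕜 V}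
    (hd : ∀ Y, X ≤ Y → Y ≤ G → finrank 𝕜 G ≤ finrank 𝕜 Y + (DD S Yh Y).card + 1) (h1 : Y1 ≤ G)
    (hv : finrank 𝕜 Y1 + (DD S Yh Y1).card < finrank 𝕜 G) : RC (S \ DD S Yh Y1) Yh X Y1 := by
  intro Y hX hY
  have h2 := hd Y hX (hY.trans h1)
  have h3 : DD S Yh Y ⊆ DD (S \ DD S Yh Y1) Yh Y ∪ DD S Yh Y1 := fun e he => by
    by_cases k : e ∈ DD S Yh Y1
    · exact Finset.mem_union_right _ k
    · exact Finset.mem_union_left _
        (mem_DD.2 ⟨Finset.mem_sdiff.2 ⟨(mem_DD.1 he).1, k⟩, (mem_DD.1 he).2⟩)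
  have h4 := (Finset.card_le_card h3).trans (Finset.card_union_le _ _)
  omega

/-- A hyperplane is cut out by a functional. -/
lemma func {Y Y1 : Submodule 𝕜 V} (h : Y1 ≤ Y) (hr : finrank 𝕜 Y = finrank 𝕜 Y1 + 1) :
    ∃ l : V →ₗ[𝕜] 𝕜, ∀ y ∈ Y, l y = 0 ↔ y ∈ Y1 := by
  obtain ⟨x, hx, hx'⟩ := SetLike.exists_of_lt (lt_of_le_of_ne h fun e => by subst e; omega)
  obtain ⟨l, h1, h2⟩ := Submodule.exists_le_ker_of_notMem hx'
  have h3 : Y ⊓ LinearMap.ker l < Y := lt_of_le_of_ne inf_le_left fun e =>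
    h1 (e.ge hx).2
  have h4 := Submodule.finrank_lt_finrank_of_lt h3
  have h5 : Y1 = Y ⊓ LinearMap.ker l := Submodule.eq_of_le_of_finrank_le (le_inf h h2) (by omega)
  exact ⟨l, fun y hy => ⟨fun k => h5.ge ⟨hy, k⟩, fun k => h2 k⟩⟩

end Gen

set_option synthInstance.maxSize 2000 in
lemma signs : ∀ u0 u1 u2 u y : ZMod 3, (∃ e0 e1 e2 e3 e4 : ZMod 3, e0 ≠ 0 ∧ e1 ≠ 0 ∧ e2 ≠ 0 ∧
    e3 ≠ 0 ∧ e4 ≠ 0 ∧ e0 * (u0 + (u + u0)) + (e1 * (u1 + (u + u0)) + e2 * (u2 + (u + u0))) +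
      e3 * (u + u0) + e4 * y = 0) ∨ (u0 = 0 ∧ u1 = 0 ∧ u2 = 0) ∨ (y = 0 ∧ ((u0 = 0 ∧ u1 = 0) ∨
      (u0 = 0 ∧ u2 = 0) ∨ (u1 = 0 ∧ u2 = 0) ∨ (u - u0 = 0 ∧ u - u1 = 0 ∧ u - u2 = 0 ∧ u ≠ 0))) := by
  decide +kernel

lemma three_diff : ∀ c0 c1 c2 : ZMod 3, c0 ≠ c1 → c0 ≠ c2 → c1 ≠ c2 →
    c0 - c1 = c1 - c2 ∧ c0 - c2 = -(c1 - c2) := by
  decide

variable {p : ℕ} [Fact p.Prime] {F : Type} [Field F] [Fintype F] [Algebra (ZMod p) F] {ι E : Type}
  [Fintype ι] [DecidableEq ι] [DecidableEq E]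

/-- A nonzero element of the prime field. -/
def Sg (p : ℕ) [Fact p.Prime] [Algebra (ZMod p) F] (x : F) : Prop := x ∈ Fp (F := F) p ∧ x ≠ 0

omit [Fintype F] in
lemma Sg.pm (hp : p = 3) {x : F} (h : Sg p x) : x = 1 ∨ x = -1 :=
  (Fp.three hp h.1).resolve_left h.2

omit [Fintype F] in
lemma sg_one : Sg p (1 : F) := ⟨Fp.one, one_ne_zero⟩

omit [Fintype F] [Fintype ι] [DecidableEq ι] in
lemma fp_sum {T : Finset ι} {g : ι → F} (h : ∀ i ∈ T, g i ∈ Fp (F := F) p) :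
    ∑ i ∈ T, g i ∈ Fp (F := F) p :=
  Finset.sum_induction g (· ∈ Fp (F := F) p) (fun _ _ => Fp.add) Fp.zero h

omit [Fintype F] [DecidableEq E] in
/-- It suffices to solve modulo all the shifts. -/
lemma sol_sup {S : Finset E} {z v : E → F} {X : E → Submodule (ZMod p) F}
    (h : ∑ e ∈ S, v e * z e ∈ S.sup fun e => mulX (v e) (X e)) : Sol S z X v := by
  rw [Finset.sup_eq_iSup, Submodule.mem_iSup_finset_iff_exists_sum] at h
  obtain ⟨μ, hμ⟩ := h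
  choose x hx hx' using fun e => mem_mulX.1 (μ e).2
  refine ⟨fun e => -x e, fun e _ => neg_mem (hx e), ?_⟩
  simp only [mul_add, mul_neg, Finset.sum_add_distrib, Finset.sum_neg_distrib, hx', hμ,
    add_neg_cancel]

omit [Fintype F] [DecidableEq E] in
lemma le_sup {S : Finset E} {v : E → F} (X : E → Submodule (ZMod p) F) {e : E} (he : e ∈ S)
    (h : Sg p (v e)) : X e ≤ S.sup fun e => mulX (v e) (X e) := fun x hx =>
  Finset.le_sup (f := fun e => mulX (v e) (X e)) he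
    ⟨(v e)⁻¹ * x, Fp.mul_mem (Fp.inv h.1) hx, mul_inv_cancel_left₀ h.2 x⟩

/-- The items outside the frame. -/
def S2 (O : Finset ι) (S : Finset E) (o : E) (f : ι → E) : Finset E := S.erase o \ O.image f

/-- The signed sum of the four vectors. -/
def WW (O : Finset ι) (i0 : ι) (o : E) (z : E → F) (f : ι → E) (s ε : ι → F) (ε' : F) : F :=
  ∑ i ∈ O, ε i * (s i * z (f i) + (z o + s i0 * z (f i0))) + ε' * (z o + s i0 * z (f i0))

/-- The hypotheses, with a frame `f`. -/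
structure Ctx (O : Finset ι) (i0 i1 i2 : ι) (S : Finset E) (o : E) (a : E → ι → F) (z : E → F)
    (X : E → Submodule (ZMod p) F) (r : ℕ) (Y : Submodule (ZMod p) F) (f : ι → E) (s : ι → F) :
    Prop where
  hp : p = 3
  hO : O = {i0, i1, i2}
  n1 : i0 ≠ i1
  n2 : i0 ≠ i2
  n3 : i1 ≠ i2
  free : Free O i0 S o a X
  items : Items O S a z X r Y
  nom : NoM O i0 S o a z X r Y
  tri : ∀ i ∈ O, f i ∈ S.erase o ∧ Jump O i (a (f i)) (s i)

/-- The frame fails at the hyperplane `Y1`. -/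
def Fail (O : Finset ι) (S : Finset E) (o : E) (z : E → F) (X : E → Submodule (ZMod p) F)
    (Y : Submodule (ZMod p) F) (f : ι → E) (s : ι → F) (Y1 : Submodule (ZMod p) F) : Prop :=
  Y1 ≤ Y ∧ finrank (ZMod p) Y = finrank (ZMod p) Y1 + 1 ∧ (∀ i ∈ O, X (f i) ≤ Y1) ∧
    (∀ e ∈ S2 O S o f, z e ∈ Y1 ∧ X e ≤ Y1) ∧ (∀ i ∈ O, z o - s i * z (f i) ∈ Y1) ∧ z o ∉ Y1

variable {O : Finset ι} {i0 i1 i2 : ι} {S : Finset E} {o : E} {a : E → ι → F} {z : E → F}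
  {X : E → Submodule (ZMod p) F} {r : ℕ} {Y Y1 : Submodule (ZMod p) F} {f : ι → E} {s : ι → F}

omit [Fintype ι] [DecidableEq ι] in
lemma mem_S2 {e : E} : e ∈ S2 O S o f ↔ e ∈ S ∧ e ≠ o ∧ ∀ i ∈ O, f i ≠ e := by
  simp only [S2, Finset.mem_sdiff, Finset.mem_erase, Finset.mem_image, not_exists, not_and]
  tauto

namespace Ctx

variable (h : Ctx O i0 i1 i2 S o a z X r Y f s)
include h
set_option linter.unusedSectionVars false

lemma mem {i : ι} : i ∈ O ↔ i = i0 ∨ i = i1 ∨ i = i2 := by simp [h.hO]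
lemma m0 : i0 ∈ O := h.mem.2 (Or.inl rfl)
lemma m1 : i1 ∈ O := h.mem.2 (Or.inr (Or.inl rfl))
lemma m2 : i2 ∈ O := h.mem.2 (Or.inr (Or.inr rfl))
lemma oS : o ∈ S := h.free.2.1
lemma fS {i : ι} (hi : i ∈ O) : f i ∈ S := (Finset.mem_erase.1 (h.tri i hi).1).2
lemma fo {i : ι} (hi : i ∈ O) : f i ≠ o := (Finset.mem_erase.1 (h.tri i hi).1).1
lemma Xo {e : E} (he : e ∈ S) : X e ≤ X o := (h.free.2.2.2 e he).1
lemma rat {e : E} (he : e ∈ S) (i : ι) : a e i ∈ Fp (F := F) p := (h.free.2.2.2 e he).2 i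

lemma sumO (g : ι → F) : ∑ i ∈ O, g i = g i0 + (g i1 + g i2) := by
  rw [h.hO, Finset.sum_insert (by simp [h.n1, h.n2]), Finset.sum_pair h.n3]

lemma card : O.card = 3 := h.hO ▸ Finset.card_eq_three.2 ⟨_, _, _, h.n1, h.n2, h.n3, rfl⟩

lemma third (i j : ι) : ∃ l ∈ O, l ≠ i ∧ l ≠ j := by
  by_contra! k
  have : O ⊆ {i, j} := fun l hl => by
    by_cases e : l = i
    · simp [e]
    · simp [k l hl e]
  have := (Finset.card_le_card this).trans Finset.card_le_two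
  rw [h.card] at this
  omega

lemma live {e : E} (he : e ∈ S) : Yh O (a e) (z e) (X e) ≤ Y1 ↔ z e ∈ Y1 ∧ X e ≤ Y1 :=
  Yh_le_rat (h.items e he).1 (h.rat he)

lemma zY {e : E} (he : e ∈ S) : z e ∈ Y := ((h.live he).1 (h.items e he).2.2).1
lemma XY {e : E} (he : e ∈ S) : X e ≤ Y := ((h.live he).1 (h.items e he).2.2).2

lemma sg {i : ι} (hi : i ∈ O) : Sg p (s i) := by
  obtain ⟨l, hl, e, -⟩ := h.third i i
  exact ⟨(h.tri i hi).2.2 l hl e ▸ Fp.sub (h.rat (h.fS hi) i) (h.rat (h.fS hi) l), (h.tri i hi).2.1⟩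

lemma wY {i : ι} (hi : i ∈ O) : s i * z (f i) ∈ Y := Fp.mul_mem (h.sg hi).1 (h.zY (h.fS hi))

lemma inj {i j : ι} (hi : i ∈ O) (hj : j ∈ O) (e : f i = f j) : i = j := by
  obtain ⟨l, hl, e1, e2⟩ := h.third i j
  exact Cls.unique ⟨_, (h.tri i hi).2⟩ ⟨_, e ▸ (h.tri j hj).2⟩ hj hl e1 e2

lemma cases {e : E} (he : e ∈ S) : e = o ∨ (∃ i ∈ O, f i = e) ∨ e ∈ S2 O S o f := by
  by_contra! k
  exact k.2.2 (mem_S2.2 ⟨he, k.1, k.2.1⟩)

lemma sumS {M : Type} [AddCommMonoid M] (g : E → M) :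
    ∑ e ∈ S, g e = g o + (∑ i ∈ O, g (f i) + ∑ e ∈ S2 O S o f, g e) := by
  rw [← Finset.add_sum_erase S g h.oS, S2, add_comm (∑ i ∈ O, g (f i)),
    ← Finset.sum_image (f := g) (g := f) fun i hi j hj => h.inj hi hj,
    Finset.sum_sdiff (Finset.image_subset_iff.2 fun i hi => (h.tri i hi).1)]

lemma val (ν : F) (τ : ι → F) (v : E → F) :
    ∃ V : E → F, V o = ν ∧ (∀ i ∈ O, V (f i) = τ i) ∧ ∀ e ∈ S2 O S o f, V e = v e := by
  refine ⟨fun e => if e = o then ν else if e ∈ S2 O S o f then v e else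
    ∑ i ∈ O with f i = e, τ i, if_pos rfl, fun i hi => ?_, fun e he => ?_⟩
  · exact (if_neg (h.fo hi)).trans ((if_neg fun k => (mem_S2.1 k).2.2 i hi rfl).trans
      (Finset.sum_eq_single_of_mem i (Finset.mem_filter.2 ⟨hi, rfl⟩) fun j hj k =>
        absurd (h.inj (Finset.mem_filter.1 hj).1 hi (Finset.mem_filter.1 hj).2) k))
  · exact (if_neg (mem_S2.1 he).2.1).trans (if_pos he)

lemma rk {e : E} (he : e ∈ S) (k : X e ≤ Y1) : r ≤ finrank (ZMod p) ↥(X o ⊓ Y1) :=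
  (h.items e he).2.1.trans (Submodule.finrank_mono (le_inf (h.Xo he) k))

/-- One item cannot be dropped. -/
lemma nom1 (h1 : Y1 ≤ Y) (hr : finrank (ZMod p) Y = finrank (ZMod p) Y1 + 1) (k : X (f i0) ≤ Y1)
    (g : E) (hl : ∀ e ∈ S, e ≠ o → e ≠ g → z e ∈ Y1 ∧ X e ≤ Y1) : False := by
  have := (h.nom Y1 (lt_of_le_of_ne h1 fun e => by subst e; omega) (h.rk (h.fS h.m0) k)
    (S.erase o ∩ {g}) Finset.inter_subset_left fun e he k => Finset.mem_inter.2 ⟨he, by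
      by_contra k'
      obtain ⟨e1, e2⟩ := Finset.mem_erase.1 he
      exact k ((h.live e2).2 (hl e e2 e1 (by simpa using k')))⟩).1
  have h2 := Finset.card_le_card (Finset.inter_subset_right (s₁ := S.erase o) (s₂ := {g}))
  rw [Finset.card_singleton] at h2
  omega

lemma bound (h1 : Y1 ≤ Y) (k : X (f i0) ≤ Y1) : 2 * (finrank (ZMod p) Y - finrank (ZMod p) Y1) ≤
    (DD (S2 O S o f) (fun e => Yh O (a e) (z e) (X e)) Y1).card + 3 := by
  rcases h1.eq_or_lt with rfl | h1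
  · simp
  refine (h.nom Y1 h1 (h.rk (h.fS h.m0) k)
    (DD (S2 O S o f) (fun e => Yh O (a e) (z e) (X e)) Y1 ∪ O.image f) (Finset.union_subset
      (fun e he => Finset.sdiff_subset (mem_DD.1 he).1)
      (Finset.image_subset_iff.2 fun i hi => (h.tri i hi).1)) fun e he k => ?_).1.trans
    ((Finset.card_union_le _ _).trans (Nat.add_le_add_left (h.card ▸ Finset.card_image_le) _))
  by_cases k' : e ∈ O.image f
  · exact Finset.mem_union_right _ k'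
  · exact Finset.mem_union_left _ (mem_DD.2 ⟨Finset.mem_sdiff.2 ⟨he, k'⟩, k⟩)

lemma WY {ε : ι → F} {ε' : F} (hε : ∀ i ∈ O, Sg p (ε i)) (hε' : Sg p ε') :
    WW O i0 o z f s ε ε' ∈ Y :=
  have k := add_mem (h.zY h.oS) (h.wY h.m0)
  add_mem (sum_mem fun i hi => Fp.mul_mem (hε i hi).1 (add_mem (h.wY hi) k)) (Fp.mul_mem hε'.1 k)

/-- Assembly of a pinned solution. -/
lemma asm (hP : UPIN p F) {ε : ι → F} {ε' : F} (hε : ∀ i ∈ O, Sg p (ε i)) (hε' : Sg p ε')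
    (v ξ : E → F) (hv : ∀ e ∈ S2 O S o f, v e ∈ Fp (F := F) p ∧ ξ e ∈ X e)
    (hs : WW O i0 o z f s ε ε' + ∑ e ∈ S2 O S o f, v e * (z e + ξ e) ∈ O.sup fun i => X (f i)) :
    Good O (O.erase i0) S a z X := by
  obtain ⟨ν, hν⟩ : ∃ ν, ν = ∑ i ∈ O, ε i + ε' := ⟨_, rfl⟩
  have ν1 : ν ∈ Fp (F := F) p := hν ▸ Fp.add (fp_sum fun i hi => (hε i hi).1) hε'.1
  obtain ⟨V, V0, V1, V2⟩ := h.val ν (fun i => ((if i = i0 then ν else 0) + ε i) * s i) v
  have t1 : ∀ i ∈ O, V (f i) ∈ Fp (F := F) p := fun i hi => by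
    rw [V1 i hi]
    refine Fp.mul (Fp.add ?_ (hε i hi).1) (h.sg hi).1
    split_ifs
    exacts [ν1, Fp.zero]
  have t2 : ∀ i ∈ O, i ≠ i0 ∨ ν = 0 → V (f i) ≠ 0 := fun i hi k => by
    have : (if i = i0 then ν else 0) = 0 := by
      split_ifs with k'
      exacts [k.resolve_left (not_not.2 k'), rfl]
    rw [V1 i hi, this, zero_add]
    exact mul_ne_zero (hε i hi).2 (h.sg hi).2
  refine ⟨V, ⟨_, h.fS h.m1, t2 _ h.m1 (Or.inl h.n1.symm)⟩, hP h.hp ι E O O i0 S o a V ε subset_rfl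
    h.m0 h.oS h.free.2.2.1 (fun e he => ⟨(h.items e he).1, ?_, h.rat he⟩)
    (fun i hi => ⟨(hε i hi).pm h.hp, _, h.fS hi, _, (h.tri i hi).2, by rw [V1 i hi, V0]⟩)
    (Or.inr ⟨rfl, h.card, by rw [V0, hν]; simpa using hε'.2⟩), sol_sup ?_⟩
  · rcases h.cases he with rfl | ⟨i, hi, rfl⟩ | k
    exacts [V0 ▸ ν1, t1 i hi, V2 e k ▸ (hv e k).1]
  have h1 : (O.sup fun i => X (f i)) ≤ S.sup fun e => mulX (V e) (X e) :=
    Finset.sup_le fun i hi => by
      by_cases k : ν = 0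
      · exact le_sup X (h.fS hi) ⟨t1 i hi, t2 i hi (Or.inr k)⟩
      · exact (h.Xo (h.fS hi)).trans (le_sup X h.oS (V0 ▸ ⟨ν1, k⟩))
  have h2 : ∑ e ∈ S2 O S o f, v e * ξ e ∈ S.sup fun e => mulX (V e) (X e) :=
    sum_mem fun e he => Finset.le_sup (f := fun e => mulX (V e) (X e)) (mem_S2.1 he).1
      ⟨ξ e, (hv e he).2, by rw [V2 e he]; rfl⟩
  have h3 := sub_mem (h1 hs) h2
  have h4 : ∑ e ∈ S, V e * z e = WW O i0 o z f s ε ε' + ∑ e ∈ S2 O S o f, v e * (z e + ξ e) -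
      ∑ e ∈ S2 O S o f, v e * ξ e := by
    rw [h.sumS, Finset.sum_congr rfl fun e (he : e ∈ S2 O S o f) => congrArg (· * z e) (V2 e he),
      WW, h.sumO, h.sumO, V0, V1 _ h.m0, V1 _ h.m1, V1 _ h.m2, if_pos rfl, if_neg h.n1.symm,
      if_neg h.n2.symm, hν, h.sumO]
    simp only [mul_add, Finset.sum_add_distrib]
    ring
  exact h4 ▸ h3

/-- Covering inside `Y1`. -/
lemma cover (hC : COV) (hP : UPIN p F) {ε : ι → F} {ε' : F} (hε : ∀ i ∈ O, Sg p (ε i))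
    (hε' : Sg p ε') (D : Finset E) (hD : D ⊆ S2 O S o f) (v ξ : E → F)
    (hv : ∀ e ∈ D, v e ∈ Fp (F := F) p ∧ ξ e ∈ X e) (hX : (O.sup fun i => X (f i)) ≤ Y1)
    (hl : ∀ e ∈ S2 O S o f \ D, Yh O (a e) (z e) (X e) ≤ Y1)
    (hR : RC (S2 O S o f \ D) (fun e => Yh O (a e) (z e) (X e)) (O.sup fun i => X (f i)) Y1)
    (hs : WW O i0 o z f s ε ε' + ∑ e ∈ D, v e * (z e + ξ e) ∈ Y1) :
    Good O (O.erase i0) S a z X := by
  have hS : ∀ e ∈ S2 O S o f \ D, e ∈ S := fun e he => (mem_S2.1 (Finset.mem_sdiff.1 he).1).1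
  obtain ⟨w, h1, h2⟩ := hC (ZMod p) F E _
    (fun e => {m | m = (0, z e) ∨ (m.1 = z e ∧ m.2 ∈ X e)}) _ _ _ hX hl
    (fun e he => (h.live (hS e he)).2 ⟨Submodule.subset_span ⟨_, Or.inl rfl, rfl⟩, fun x hx =>
      Submodule.subset_span ⟨(z e, x), Or.inr ⟨rfl, hx⟩, rfl⟩⟩)
    (fun e he m hm => by
      obtain ⟨k1, k2⟩ := (h.live (hS e he)).1 le_rfl
      rcases hm with rfl | ⟨k3, k4⟩
      exacts [⟨zero_mem _, k1⟩, ⟨k3 ▸ k1, k2 k4⟩]) hR _ (neg_mem hs)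
  have h3 : ∀ e, ∃ c x : F, e ∈ S2 O S o f \ D → (c ∈ Fp (F := F) p ∧ x ∈ X e) ∧
      w e = c * (z e + x) := fun e => by
    by_cases he : e ∈ S2 O S o f \ D
    · rcases h1 e he with k | ⟨m, rfl | ⟨k3, k4⟩, t, k⟩
      · exact ⟨0, 0, fun _ => ⟨⟨Fp.zero, zero_mem _⟩, by rw [k, zero_mul]⟩⟩
      · exact ⟨_, 0, fun _ => ⟨⟨⟨t, rfl⟩, zero_mem _⟩, by rw [k, zero_add, add_zero, Algebra.smul_def]⟩⟩
      · exact ⟨1, t • m.2, fun _ => ⟨⟨Fp.one, (X e).smul_mem t k4⟩, by rw [k, k3, one_mul]⟩⟩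
    · exact ⟨0, 0, fun k => absurd k he⟩
  choose c x h3 using h3
  refine h.asm hP hε hε' (fun e => if e ∈ D then v e else c e) (fun e => if e ∈ D then ξ e else x e)
    (fun e he => ?_) ?_
  · split_ifs with k
    exacts [hv e k, (h3 e (Finset.mem_sdiff.2 ⟨he, k⟩)).1]
  · have k1 : ∑ e ∈ D, (if e ∈ D then v e else c e) * (z e + if e ∈ D then ξ e else x e) =
        ∑ e ∈ D, v e * (z e + ξ e) := Finset.sum_congr rfl fun e he => by rw [if_pos he, if_pos he]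
    have k2 : ∑ e ∈ S2 O S o f \ D, (if e ∈ D then v e else c e) *
        (z e + if e ∈ D then ξ e else x e) = ∑ e ∈ S2 O S o f \ D, w e :=
      Finset.sum_congr rfl fun e he => by
        rw [if_neg (Finset.mem_sdiff.1 he).2, if_neg (Finset.mem_sdiff.1 he).2, (h3 e he).2]
    rw [← Finset.sum_sdiff hD, k1, k2]
    have := neg_mem h2
    rwa [neg_sub, sub_neg_eq_add, add_left_comm] at this

/-- The choice of the signs modulo a hyperplane. -/
lemma choice (h1 : Y1 ≤ Y) (hr : finrank (ZMod p) Y = finrank (ZMod p) Y1 + 1) {y : F}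
    (hy : y ∈ Y) : (∃ (ε : ι → F) (ε' ε'' : F), (∀ i ∈ O, Sg p (ε i)) ∧ Sg p ε' ∧ Sg p ε'' ∧
      WW O i0 o z f s ε ε' + ε'' * y ∈ Y1) ∨ (∀ i ∈ O, z (f i) ∈ Y1) ∨
      (y ∈ Y1 ∧ ((∃ k, ∀ i ∈ O, i ≠ k → z (f i) ∈ Y1) ∨
        ((∀ i ∈ O, z o - s i * z (f i) ∈ Y1) ∧ z o ∉ Y1))) := by
  obtain ⟨l, hl⟩ := func h1 hr
  obtain rfl := h.hp
  have k : ∀ i ∈ O, l (s i * z (f i)) = 0 → z (f i) ∈ Y1 := fun i hi e =>
    Fp.mem_of_mul (h.sg hi).1 (h.sg hi).2 ((hl _ (h.wY hi)).1 e)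
  have k' : ∀ i ∈ O, l (z o) - l (s i * z (f i)) = 0 → z o - s i * z (f i) ∈ Y1 := fun i hi e =>
    (hl _ (sub_mem (h.zY h.oS) (h.wY hi))).1 (by rw [map_sub, e])
  have g : ∀ e : ZMod 3, e ≠ 0 → Sg 3 (algebraMap (ZMod 3) F e) := fun e he =>
    ⟨⟨e, rfl⟩, (map_ne_zero _).2 he⟩
  rcases signs (l (s i0 * z (f i0))) (l (s i1 * z (f i1))) (l (s i2 * z (f i2))) (l (z o)) (l y) with
    ⟨e0, e1, e2, e3, e4, a0, a1, a2, a3, a4, e⟩ | ⟨a0, a1, a2⟩ | ⟨a, b⟩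
  · have hε : ∀ i ∈ O, Sg 3 (algebraMap (ZMod 3) F
        (if i = i0 then e0 else if i = i1 then e1 else e2)) := fun i _ => g _ (by
      split_ifs
      exacts [a0, a1, a2])
    refine Or.inl ⟨_, _, _, hε, g _ a3, g _ a4, (hl _ (add_mem (h.WY hε (g _ a3))
      (Fp.mul_mem (g _ a4).1 hy))).1 ?_⟩
    rw [WW, h.sumO, if_pos rfl, if_neg h.n1.symm, if_pos rfl, if_neg h.n2.symm, if_neg h.n3.symm]
    simpa only [← Algebra.smul_def, map_add, map_smul, smul_eq_mul] using e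
  · refine Or.inr (Or.inl fun i hi => ?_)
    rcases h.mem.1 hi with rfl | rfl | rfl
    exacts [k _ hi a0, k _ hi a1, k _ hi a2]
  · refine Or.inr (Or.inr ⟨(hl y hy).1 a, ?_⟩)
    rcases b with ⟨a0, a1⟩ | ⟨a0, a1⟩ | ⟨a0, a1⟩ | ⟨a0, a1, a2, a3⟩
    · refine Or.inl ⟨i2, fun i hi e => ?_⟩
      rcases h.mem.1 hi with rfl | rfl | rfl
      exacts [k _ hi a0, k _ hi a1, absurd rfl e]
    · refine Or.inl ⟨i1, fun i hi e => ?_⟩
      rcases h.mem.1 hi with rfl | rfl | rfl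
      exacts [k _ hi a0, absurd rfl e, k _ hi a1]
    · refine Or.inl ⟨i0, fun i hi e => ?_⟩
      rcases h.mem.1 hi with rfl | rfl | rfl
      exacts [absurd rfl e, k _ hi a0, k _ hi a1]
    · refine Or.inr ⟨fun i hi => ?_, fun e => a3 ((hl _ (h.zY h.oS)).2 e)⟩
      rcases h.mem.1 hi with rfl | rfl | rfl
      exacts [k' _ hi a0, k' _ hi a1, k' _ hi a2]

lemma defic (Y' : Submodule (ZMod p) F) (hX : (O.sup fun i => X (f i)) ≤ Y') (h1 : Y' ≤ Y) :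
    finrank (ZMod p) Y ≤ finrank (ZMod p) Y' +
      (DD (S2 O S o f) (fun e => Yh O (a e) (z e) (X e)) Y').card + 1 := by
  have := h.bound h1 ((Finset.le_sup (f := fun i => X (f i)) h.m0).trans hX)
  omega

/-- A hyperplane in which all the other items live. -/
lemma hyper (hC : COV) (hP : UPIN p F) (hX : (O.sup fun i => X (f i)) ≤ Y1) (h1 : Y1 ≤ Y)
    (hr : finrank (ZMod p) Y = finrank (ZMod p) Y1 + 1)
    (hl : ∀ e ∈ S2 O S o f, z e ∈ Y1 ∧ X e ≤ Y1) :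
    Good O (O.erase i0) S a z X ∨ Fail O S o z X Y f s Y1 := by
  have hX' : ∀ i ∈ O, X (f i) ≤ Y1 := Finset.sup_le_iff.1 hX
  have hD : DD (S2 O S o f) (fun e => Yh O (a e) (z e) (X e)) Y1 = ∅ :=
    Finset.eq_empty_of_forall_notMem fun e he =>
      (mem_DD.1 he).2 ((h.live (mem_S2.1 (mem_DD.1 he).1).1).2 (hl e (mem_DD.1 he).1))
  have key : ¬∃ k, ∀ i ∈ O, i ≠ k → z (f i) ∈ Y1 := fun ⟨k, hk⟩ =>
    h.nom1 h1 hr (hX' _ h.m0) (f k) fun e he e1 e2 => by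
      rcases h.cases he with k' | ⟨i, hi, rfl⟩ | k'
      exacts [absurd k' e1, ⟨hk i hi fun k' => e2 (k' ▸ rfl), hX' i hi⟩, hl e k']
  rcases h.choice h1 hr (zero_mem Y) with ⟨ε, ε', ε'', a1, a2, -, a3⟩ | a1 | ⟨-, a1 | a1⟩
  · have hR := viol h.defic h1 (by rw [hD, Finset.card_empty]; omega)
    rw [hD] at hR
    exact Or.inl (h.cover hC hP a1 a2 ∅ (Finset.empty_subset _) 0 0 (by simp) hX (fun e he =>
      (h.live (mem_S2.1 (Finset.mem_sdiff.1 he).1).1).2 (hl e (Finset.mem_sdiff.1 he).1)) hR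
      (by simpa using a3))
  · exact absurd ⟨i0, fun i hi _ => a1 i hi⟩ key
  · exact absurd a1 key
  · exact Or.inr ⟨h1, hr, hX', hl, a1⟩

/-- Every frame gives a solution or fails at a hyperplane. -/
lemma frame (hC : COV) (hP : UPIN p F) :
    Good O (O.erase i0) S a z X ∨ ∃ Y1, Fail O S o z X Y f s Y1 := by
  have hXY : (O.sup fun i => X (f i)) ≤ Y := Finset.sup_le fun i hi => h.XY (h.fS hi)
  by_cases hR : RC (S2 O S o f) (fun e => Yh O (a e) (z e) (X e)) (O.sup fun i => X (f i)) Y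
  · exact Or.inl (h.cover hC hP (ε := fun _ => 1) (fun _ _ => sg_one) sg_one ∅
      (Finset.empty_subset _) 0 0 (by simp) hXY
      (fun e he => (h.items e (mem_S2.1 (Finset.mem_sdiff.1 he).1).1).2.2)
      (by rwa [Finset.sdiff_empty]) (by simpa using h.WY (fun _ _ => sg_one) sg_one))
  simp only [RC, not_forall, not_le] at hR
  obtain ⟨Y', hX, h1, hv⟩ := hR
  have hX' : ∀ i ∈ O, X (f i) ≤ Y' := Finset.sup_le_iff.1 hX
  have hb := h.bound h1 (hX' _ h.m0)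
  have hR := viol h.defic h1 hv
  have hl : ∀ e ∈ S2 O S o f, e ∉ DD (S2 O S o f) (fun e => Yh O (a e) (z e) (X e)) Y' →
      Yh O (a e) (z e) (X e) ≤ Y' := fun e he k => not_not.1 fun k' => k (mem_DD.2 ⟨he, k'⟩)
  by_cases hr : finrank (ZMod p) Y = finrank (ZMod p) Y' + 1
  · refine (h.hyper hC hP hX h1 hr fun e he => (h.live (mem_S2.1 he).1).1 (hl e he ?_)).imp_right
      fun k => ⟨_, k⟩
    rw [Finset.card_eq_zero.1 (by omega :
      (DD (S2 O S o f) (fun e => Yh O (a e) (z e) (X e)) Y').card = 0)]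
    exact Finset.notMem_empty e
  obtain ⟨g, hg⟩ := Finset.card_eq_one.1 (by omega :
    (DD (S2 O S o f) (fun e => Yh O (a e) (z e) (X e)) Y').card = 1)
  have hr2 : finrank (ZMod p) Y = finrank (ZMod p) Y' + 2 := by omega
  obtain ⟨g1, g2⟩ := mem_DD.1 (hg.ge (Finset.mem_singleton_self g))
  have gS := (mem_S2.1 g1).1
  rw [hg] at hR hl
  have fin : ∀ (ε : ι → F) (ε' ε'' : F), (∀ i ∈ O, Sg p (ε i)) → Sg p ε' → Sg p ε'' →
      WW O i0 o z f s ε ε' + ε'' * z g ∈ Y' ⊔ X g → Good O (O.erase i0) S a z X :=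
    fun ε ε' ε'' a1 a2 a3 a4 => by
      obtain ⟨y, hy, x, hx, e⟩ := Submodule.mem_sup.1 a4
      refine h.cover hC hP a1 a2 {g} (Finset.singleton_subset_iff.2 g1) (fun _ => ε'')
        (fun _ => -(ε''⁻¹ * x)) (fun e he => ⟨a3.1, ?_⟩) hX
        (fun e he => hl e (Finset.mem_sdiff.1 he).1 (Finset.mem_sdiff.1 he).2) hR ?_
      · rw [Finset.mem_singleton.1 he]
        exact neg_mem (Fp.mul_mem (Fp.inv a3.1) hx)
      · rwa [Finset.sum_singleton, mul_add, mul_neg, mul_inv_cancel_left₀ a3.2, ← add_assoc, ← e,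
          add_neg_cancel_right]
  have hl' : ∀ Y3, Y' ≤ Y3 → ∀ e ∈ S2 O S o f, e ≠ g → z e ∈ Y3 ∧ X e ≤ Y3 := fun Y3 k e he k' =>
    (h.live (mem_S2.1 he).1).1 ((hl e he (by simpa using k')).trans k)
  have hyp : ∀ Y3, Y' ≤ Y3 → Y3 ≤ Y → finrank (ZMod p) Y = finrank (ZMod p) Y3 + 1 → z g ∈ Y3 →
      X g ≤ Y3 → Good O (O.erase i0) S a z X ∨ ∃ Y1, Fail O S o z X Y f s Y1 :=
    fun Y3 a1 a2 a3 a4 a5 => (h.hyper hC hP (hX.trans a1) a2 a3 fun e he => by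
      by_cases k : e = g
      exacts [k ▸ ⟨a4, a5⟩, hl' Y3 a1 e he k]).imp_right fun k => ⟨_, k⟩
  have h3 : Y' ⊔ X g ≤ Y := sup_le h1 (h.XY gS)
  by_cases c1 : X g ≤ Y'
  · have c2 : z g ∉ Y' := fun k => g2 ((h.live gS).2 ⟨k, c1⟩)
    have c3 : z g ∈ Y' ⊔ Submodule.span (ZMod p) {z g} :=
      Submodule.mem_sup_right (Submodule.mem_span_singleton_self _)
    have c4 := Submodule.finrank_add_le_finrank_add_finrank Y' (Submodule.span (ZMod p) {z g})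
    rw [finrank_span_singleton fun k : z g = 0 => c2 (k ▸ zero_mem _)] at c4
    have c5 := Submodule.finrank_lt_finrank_of_lt
      (lt_of_le_of_ne (le_sup_left (a := Y') (b := Submodule.span (ZMod p) {z g}))
        fun k => c2 (k ▸ c3))
    exact hyp _ le_sup_left (sup_le h1 ((Submodule.span_singleton_le_iff_mem _ _).2 (h.zY gS)))
      (by omega) c3 (c1.trans le_sup_left)
  have c5 := Submodule.finrank_lt_finrank_of_lt
    (lt_of_le_of_ne (le_sup_left (a := Y') (b := X g)) fun k => c1 (k ▸ le_sup_right))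
  by_cases c2 : finrank (ZMod p) Y ≤ finrank (ZMod p) ↥(Y' ⊔ X g)
  · refine Or.inl (fin (fun _ => 1) 1 1 (fun _ _ => sg_one) sg_one sg_one ?_)
    rw [Submodule.eq_of_le_of_finrank_le h3 c2, one_mul]
    exact add_mem (h.WY (fun _ _ => sg_one) sg_one) (h.zY gS)
  have c3 : finrank (ZMod p) Y = finrank (ZMod p) ↥(Y' ⊔ X g) + 1 := by omega
  rcases h.choice h3 c3 (h.zY gS) with ⟨ε, ε', ε'', a1, a2, a3, a4⟩ | a1 | ⟨a1, -⟩
  · exact Or.inl (fin ε ε' ε'' a1 a2 a3 a4)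
  · refine (h.nom1 h3 c3 ((hX' _ h.m0).trans le_sup_left) g fun e he e1 e2 => ?_).elim
    rcases h.cases he with k' | ⟨i, hi, rfl⟩ | k'
    exacts [absurd k' e1, ⟨a1 i hi, (hX' i hi).trans le_sup_left⟩, hl' _ le_sup_left e k' e2]
  · exact hyp _ le_sup_left h3 c3 a1 le_sup_right

/-- After a failure the classes have one item only. -/
lemma single (hC : COV) (hP : UPIN p F) (hF : Fail O S o z X Y f s Y1) :
    Good O (O.erase i0) S a z X ∨ ∀ e ∈ S2 O S o f, ∀ i ∈ O, ¬Cls O i (a e) := by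
  by_contra! hn
  obtain ⟨hg, e, he, k, hk, t, ht⟩ := hn
  obtain ⟨e1, e2, -⟩ := mem_S2.1 he
  have h' : Ctx O i0 i1 i2 S o a z X r Y (Function.update f k e) (Function.update s k t) :=
    { h with
      tri := fun i hi => by
        by_cases c : i = k
        · subst c
          rw [Function.update_self, Function.update_self]
          exact ⟨Finset.mem_erase.2 ⟨e2, e1⟩, ht⟩
        · rw [Function.update_of_ne c, Function.update_of_ne c]
          exact h.tri i hi }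
  obtain ⟨Y2, b1, -, b3, b4, b5, b6⟩ := (h'.frame hC hP).resolve_left hg
  obtain ⟨a1, a2, a3, a4, a5, -⟩ := hF
  have c1 : z e ∉ Y2 := fun c => by
    have c2 := b5 k hk
    have c3 := (h'.sg hk).1
    rw [Function.update_self] at c3
    rw [Function.update_self, Function.update_self] at c2
    exact b6 (by simpa using add_mem c2 (Fp.mul_mem c3 c))
  have c2 := Submodule.finrank_lt_finrank_of_lt
    (lt_of_le_of_ne (inf_le_left (a := Y1) (b := Y2)) fun c => c1 (c.ge (a4 e he).1).2)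
  obtain ⟨l, hl, l1, l2⟩ := h.third i0 k
  have c3 := b3 l hl
  have c4 := b5 l hl
  rw [Function.update_of_ne l2] at c3
  rw [Function.update_of_ne l2, Function.update_of_ne l2] at c4
  obtain ⟨d1, d2⟩ := h.nom (Y1 ⊓ Y2) (lt_of_le_of_ne (inf_le_left.trans a1) fun c => by
      rw [c] at c2; omega) (h.rk (h.fS hl) (le_inf (a3 l hl) c3)) (insert e (O.image f))
    (Finset.insert_subset (Finset.mem_erase.2 ⟨e2, e1⟩)
      (Finset.image_subset_iff.2 fun i hi => (h.tri i hi).1)) fun g hg c => by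
    by_contra c'
    obtain ⟨g1, g2⟩ := Finset.mem_erase.1 hg
    simp only [Finset.mem_insert, Finset.mem_image, not_or, not_exists, not_and] at c'
    have x1 := a4 g (mem_S2.2 ⟨g2, g1, c'.2⟩)
    have x2 := b4 g (mem_S2.2 ⟨g2, g1, fun i hi => by
      by_cases c : i = k
      · rw [c, Function.update_self]
        exact Ne.symm c'.1
      · rw [Function.update_of_ne c]
        exact c'.2 i hi⟩)
    exact c ((h.live g2).2 ⟨⟨x1.1, x2.1⟩, le_inf x1.2 x2.2⟩)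
  have d3 := (Finset.card_insert_le e (O.image f)).trans
    (Nat.add_le_add_right (h.card ▸ Finset.card_image_le) 1)
  refine d2 (by omega) (fun g => if g = f l then l else i0) (fun g => ?_) ?_
  · split_ifs
    exacts [hl, h.m0]
  · rw [Finset.sum_eq_single_of_mem (f l)
      (Finset.mem_insert_of_mem (Finset.mem_image_of_mem f hl)) fun g _ c => by
        rw [if_neg c, sub_self, zero_mul], if_pos rfl, ← neg_sub, (h.tri l hl).2.2 i0 h.m0 l1.symm,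
      neg_mul, ← sub_eq_add_neg]
    exact ⟨a5 l hl, c4⟩

/-- An item without class has three different values. -/
lemma free_val {e : E} (he : e ∈ S) (hn : ∀ i ∈ O, ¬Cls O i (a e)) : Sg p (a e i1 - a e i2) ∧
    a e i0 - a e i1 = a e i1 - a e i2 ∧ a e i0 - a e i2 = -(a e i1 - a e i2) := by
  have k : ∀ l ∈ O, ∀ i j, (∀ m ∈ O, m ≠ l → m = i ∨ m = j) → a e i ≠ a e j := fun l hl i j c c' => by
    obtain ⟨x, hx, y, hy, c''⟩ := (h.items e he).1.erase (hn l hl)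
    obtain ⟨x1, x2⟩ := Finset.mem_erase.1 hx
    obtain ⟨y1, y2⟩ := Finset.mem_erase.1 hy
    rcases c x x2 x1 with rfl | rfl <;> rcases c y y2 y1 with rfl | rfl
    exacts [c'' rfl, c'' c', c'' c'.symm, c'' rfl]
  have k0 := k i0 h.m0 i1 i2 fun m hm c => (h.mem.1 hm).resolve_left c
  have k1 := k i1 h.m1 i0 i2 fun m hm c => (h.mem.1 hm).imp_right fun c' => c'.resolve_left c
  have k2 := k i2 h.m2 i0 i1 fun m hm c => (h.mem.1 hm).imp_right fun c' => c'.resolve_right c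
  refine ⟨⟨Fp.sub (h.rat he _) (h.rat he _), sub_ne_zero.2 k0⟩, ?_⟩
  obtain ⟨c0, e0⟩ := h.rat he i0
  obtain ⟨c1, e1⟩ := h.rat he i1
  obtain ⟨c2, e2⟩ := h.rat he i2
  obtain rfl := h.hp
  obtain ⟨x, y⟩ := three_diff c0 c1 c2 (fun c => k2 (by rw [← e0, ← e1, c]))
    (fun c => k1 (by rw [← e0, ← e2, c])) fun c => k0 (by rw [← e1, ← e2, c])
  rw [← e0, ← e1, ← e2]
  exact ⟨by rw [← map_sub, ← map_sub, x], by rw [← map_sub, ← map_sub, y, map_neg]⟩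

/-- The last pattern is pinned. -/
lemma pin (hn : ∀ e ∈ S2 O S o f, ∀ i ∈ O, ¬Cls O i (a e)) (hne : (S2 O S o f).Nonempty)
    {V : E → F} (V0 : V o = 1) (V1 : V (f i0) = -s i0)
    (V2 : V (f i1) = 0 ∧ V (f i2) = 0 ∨ V (f i1) = s i1 ∧ V (f i2) = -s i2)
    (V3 : ∀ e ∈ S2 O S o f, V e = a e i1 - a e i2 ∨ V e = -(a e i1 - a e i2)) :
    PIN O (O.erase i0) S a V := fun u hu => by
  have hA : ∀ i', ∀ l ∈ O, l ≠ i0 → l ≠ i' → l ∈ O.erase i0 := fun _ _ hl k _ =>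
    Finset.mem_erase.2 ⟨k, hl⟩
  obtain ⟨α, hα⟩ := hu.edge h.m0 h.m1 h.n1 (hA _) 1
  obtain ⟨α', hα'⟩ := hu.edge h.m0 h.m2 h.n2 (hA _) 1
  obtain ⟨β, hβ⟩ := hu.edge h.m0 h.m1 h.n1 (hA _) (-1)
  obtain ⟨β', hβ'⟩ := hu.edge h.m0 h.m2 h.n2 (hA _) (-1)
  have o1 := h.free.2.2.1.2 i1 h.m1 h.n1.symm
  have o2 := h.free.2.2.1.2 i2 h.m2 h.n2.symm
  have f1 := (h.tri i0 h.m0).2.2 i1 h.m1 h.n1.symm
  have f2 := (h.tri i0 h.m0).2.2 i2 h.m2 h.n2.symm
  have f3 := (h.tri i1 h.m1).2.2 i0 h.m0 h.n1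
  have f4 := (h.tri i2 h.m2).2.2 i0 h.m0 h.n2
  have a1 := hα o h.oS (by rw [V0, o1, one_mul])
  have a2 := hα' o h.oS (by rw [V0, o2, one_mul])
  have b1 := hβ _ (h.fS h.m0) (by rw [V1, f1, neg_one_mul])
  have b2 := hβ' _ (h.fS h.m0) (by rw [V1, f2, neg_one_mul])
  rw [o1, mul_one] at a1
  rw [o2, mul_one, a1] at a2
  rw [f1] at b1
  rw [f2, b1] at b2
  obtain rfl := mul_right_cancel₀ (h.sg h.m0).2 b2
  subst a2
  have key : ∀ e ∈ S2 O S o f, u e = α * V e ∧ β = -α := fun e he => by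
    have eS := (mem_S2.1 he).1
    obtain ⟨x, y, w⟩ := h.free_val eS (hn e he)
    rcases V3 e he with k | k
    · have c1 := hα e eS (by rw [k, y, one_mul])
      have c2 := hβ' e eS (by rw [k, w, neg_one_mul, neg_neg])
      rw [y] at c1
      rw [w, c1] at c2
      exact ⟨by rw [c1, k], mul_right_cancel₀ x.2 (by linear_combination c2)⟩
    · have c1 := hα' e eS (by rw [k, w, one_mul])
      have c2 := hβ e eS (by rw [k, y, neg_one_mul])
      rw [w] at c1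
      rw [y, c1] at c2
      exact ⟨by rw [c1, k], mul_right_cancel₀ x.2 (by linear_combination -c2)⟩
  obtain ⟨e0, he0⟩ := hne
  obtain rfl := (key e0 he0).2
  refine ⟨α, fun e he => ?_⟩
  rcases h.cases he with rfl | ⟨i, hi, rfl⟩ | k
  · rw [a1, V0, mul_one]
  · rcases h.mem.1 hi with rfl | rfl | rfl
    · rw [b1, V1]; ring
    · rcases V2 with ⟨k, -⟩ | ⟨k, -⟩
      · rw [hu.zero (al_erase _ _) he k, k, mul_zero]
      · rw [hβ _ he (by rw [k, ← f3]; ring), k, ← f3]; ring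
    · rcases V2 with ⟨-, k⟩ | ⟨-, k⟩
      · rw [hu.zero (al_erase _ _) he k, k, mul_zero]
      · rw [hα' _ he (by rw [k, ← f4]; ring), k, ← f4]; ring
  · exact (key e k).1

/-- The case of a failure with singleton classes. -/
lemma final (hG : GO p) (hF : Fail O S o z X Y f s Y1)
    (hn : ∀ e ∈ S2 O S o f, ∀ i ∈ O, ¬Cls O i (a e))
    (hc : 2 * (finrank (ZMod p) Y - r) < S.card) : Good O (O.erase i0) S a z X := by
  obtain ⟨-, a2, a3, a4, a5, -⟩ := hF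
  have hfv := fun e he => h.free_val (mem_S2.1 he).1 (hn e he)
  have c0 : S.card = 1 + (3 + (S2 O S o f).card) := by
    have := h.sumS fun _ => (1 : ℕ)
    simpa only [← Finset.card_eq_sum_ones, h.card] using this
  have c1 : r ≤ finrank (ZMod p) Y1 :=
    (h.items _ (h.fS h.m0)).2.1.trans (Submodule.finrank_mono (a3 _ h.m0))
  have n1 : ∀ i ∈ O, f i ∉ S2 O S o f := fun i hi k => (mem_S2.1 k).2.2 i hi rfl
  obtain ⟨S', s1, s2⟩ : ∃ S' : Finset E,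
      (∀ e ∈ S', e = f i1 ∨ e ∈ S2 O S o f ∨ (e = o ∧ (S2 O S o f).Nonempty)) ∧
      (finrank (ZMod p) Y1 - r) * (p - 1) < S'.card := by
    have hp := h.hp
    rcases (S2 O S o f).eq_empty_or_nonempty with k | k
    · rw [k, Finset.card_empty] at c0
      refine ⟨{f i1}, fun e he => Or.inl (Finset.mem_singleton.1 he), ?_⟩
      rw [Finset.card_singleton, (by omega : finrank (ZMod p) Y1 - r = 0)]
      omega
    · refine ⟨insert (f i1) (insert o (S2 O S o f)), fun e he => ?_, ?_⟩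
      · simp only [Finset.mem_insert] at he
        exact he.imp_right fun k' => k'.symm.imp_right fun k'' => ⟨k'', k⟩
      · rw [Finset.card_insert_of_notMem (by simp [h.fo h.m1, n1 _ h.m1]),
          Finset.card_insert_of_notMem fun k' => (mem_S2.1 k').2.1 rfl, (by omega : p - 1 = 2)]
        omega
  have s3 : S' ⊆ S := fun e he => by
    rcases s1 e he with rfl | k | ⟨rfl, -⟩
    exacts [h.fS h.m1, (mem_S2.1 k).1, h.oS]
  obtain ⟨z', z0, z1, z2⟩ := h.val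
    (z o - s i0 * z (f i0) + ∑ e ∈ S2 O S o f, (a e i1 - a e i2) * z e)
    (fun _ => s i1 * z (f i1) - s i2 * z (f i2)) fun e => (a e i1 - a e i2) * z e
  obtain ⟨I, hI, ⟨e0, he0⟩, ξ, hξ, hs⟩ := hG F E S' z' (fun e => if e = o then X (f i0) else X e)
    Y1 r (fun e he => by
      rcases s1 e he with rfl | k | ⟨rfl, -⟩
      · rw [if_neg (h.fo h.m1), z1 _ h.m1]
        refine ⟨?_, a3 _ h.m1, (h.items _ (h.fS h.m1)).2.1⟩
        simpa using sub_mem (a5 _ h.m2) (a5 _ h.m1)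
      · rw [if_neg (mem_S2.1 k).2.1, z2 _ k]
        exact ⟨Fp.mul_mem (hfv e k).1.1 (a4 e k).1, (a4 e k).2, (h.items _ (mem_S2.1 k).1).2.1⟩
      · rw [if_pos rfl, z0]
        exact ⟨add_mem (a5 _ h.m0) (sum_mem fun e k => Fp.mul_mem (hfv e k).1.1 (a4 e k).1),
          a3 _ h.m0, (h.items _ (h.fS h.m0)).2.1⟩) s2
  obtain ⟨χ, hχ⟩ : ∃ χ : E → F, ∀ e, χ e = if e ∈ I then 1 else 0 := ⟨_, fun _ => rfl⟩
  have χ1 : ∀ e ∈ I, χ e = 1 := fun e he => (hχ e).trans (if_pos he)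
  have χ0 : ∀ e ∉ I, χ e = 0 := fun e he => (hχ e).trans (if_neg he)
  have χ2 : ∀ i ∈ O, i ≠ i1 → χ (f i) = 0 := fun i hi k => χ0 _ fun k' => by
    rcases s1 _ (hI k') with c | c | ⟨c, -⟩
    exacts [k (h.inj hi h.m1 c), n1 i hi c, h.fo hi c]
  obtain ⟨V, V0, V1, V2⟩ := h.val (χ o) (fun i => if i = i0 then -(χ o * s i0) else
    if i = i1 then χ (f i1) * s i1 else -(χ (f i1) * s i2)) fun e => (χ o + χ e) * (a e i1 - a e i2)
  have W0 : V (f i0) = -(χ o * s i0) := (V1 _ h.m0).trans (if_pos rfl)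
  have W1 : V (f i1) = χ (f i1) * s i1 := (V1 _ h.m1).trans ((if_neg h.n1.symm).trans (if_pos rfl))
  have W2 : V (f i2) = -(χ (f i1) * s i2) :=
    (V1 _ h.m2).trans ((if_neg h.n2.symm).trans (if_neg h.n3.symm))
  have W3 : V (f i1) = 0 ∧ V (f i2) = 0 ∨ V (f i1) = s i1 ∧ V (f i2) = -s i2 := by
    rw [W1, W2]
    by_cases k : f i1 ∈ I
    · simp [χ1 _ k]
    · simp [χ0 _ k]
  have t1 : ∑ e ∈ S, V e * z e = -∑ e ∈ I, ξ e := by
    have k1 : ∑ e ∈ S, χ e * z' e = ∑ e ∈ I, z' e := by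
      rw [← Finset.sum_subset (hI.trans s3) fun e _ k => by rw [χ0 e k, zero_mul]]
      exact Finset.sum_congr rfl fun e he => by rw [χ1 e he, one_mul]
    rw [Finset.sum_add_distrib, ← k1, h.sumS, h.sumO, χ2 _ h.m0 h.n1, χ2 _ h.m2 h.n3.symm, z0,
      z1 _ h.m1,
      Finset.sum_congr rfl fun e (he : e ∈ S2 O S o f) => congrArg (χ e * ·) (z2 e he)] at hs
    rw [h.sumS, h.sumO, V0, W0, W1, W2,
      Finset.sum_congr rfl fun e (he : e ∈ S2 O S o f) => congrArg (· * z e) (V2 e he)]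
    simp only [add_mul, mul_assoc, Finset.sum_add_distrib, ← Finset.mul_sum]
    linear_combination hs
  have t2 : (∀ e ∈ I, (if e = o then X (f i0) else X e) ≤ S.sup fun e => mulX (V e) (X e)) →
      Sol S z X V := fun k => sol_sup (t1 ▸ neg_mem (sum_mem fun e he => k e he (hξ e he)))
  by_cases ho : o ∈ I
  · rw [χ1 o ho] at V0 V2 W0
    refine ⟨V, ⟨o, h.oS, V0 ▸ one_ne_zero⟩, h.pin hn ?_ V0 (by rw [W0, one_mul]) W3 fun e he => ?_,
      t2 fun e he => le_trans ?_ (le_sup X h.oS (V0 ▸ sg_one))⟩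
    · rcases s1 o (hI ho) with c | c | c
      exacts [absurd c.symm (h.fo h.m1), ⟨o, c⟩, c.2]
    · rw [V2 e he]
      by_cases k : e ∈ I
      · exact Or.inr (by rw [χ1 e k]; linear_combination (a e i1 - a e i2) * three_eq (F := F) h.hp)
      · exact Or.inl (by rw [χ0 e k, add_zero, one_mul])
    · split_ifs
      exacts [h.Xo (h.fS h.m0), h.Xo (s3 (hI he))]
  · rw [χ0 o ho] at V0 V2 W0
    have t3 : ∀ e ∈ I, Sg p (V e) := fun e he => by
      rcases s1 e (hI he) with rfl | k | ⟨rfl, -⟩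
      · rw [W1, χ1 _ he, one_mul]
        exact h.sg h.m1
      · rw [V2 e k, χ1 _ he, zero_add, one_mul]
        exact (hfv e k).1
      · exact absurd he ho
    refine ⟨V, ⟨e0, s3 (hI he0), (t3 e0 he0).2⟩, PIN.anchor (al_erase _ _)
      (PIN.star (al_self ⟨_, h.m0⟩) h.m1 h.m2 h.n3 (fun l hl _ _ => hl) fun e he => ?_) h.m0 h.oS
      ⟨1, h.free.2.2.1⟩ V0 fun l hl k => Finset.mem_erase.2 ⟨k, hl⟩, t2 fun e he => ?_⟩
    · rcases h.cases he with rfl | ⟨i, hi, rfl⟩ | k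
      · exact Or.inl V0
      · rcases h.mem.1 hi with rfl | rfl | rfl
        · exact Or.inl (by rw [W0, zero_mul, neg_zero])
        · exact W3.imp (·.1) fun k => k.1.trans ((h.tri _ hi).2.2 _ h.m2 h.n3.symm).symm
        · exact W3.imp (·.2) fun k => by rw [k.2, ← (h.tri _ hi).2.2 _ h.m1 h.n3, neg_sub]
      · rw [V2 e k, zero_add]
        by_cases k' : e ∈ I
        · exact Or.inr (by rw [χ1 e k', one_mul])
        · exact Or.inl (by rw [χ0 e k', zero_mul])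
    · rw [if_neg fun k : e = o => ho (k ▸ he)]
      exact le_sup X (s3 (hI he)) (t3 e he)

end Ctx

end UH3

variable {p : ℕ} [Fact p.Prime] {F : Type} [Field F] [Fintype F] [Algebra (ZMod p) F]

theorem uh3 (hC : COV) (hP : UPIN p F) (hG : GO p) : UH3 p F := by
  intro hp ι E _ _ _ O i0 S o a z X r Y hO hf hI hN hc hr
  obtain ⟨i1, i2, n3, e⟩ := Finset.card_eq_two.1 (by rw [Finset.card_erase_of_mem hf.1, hO] :
    (O.erase i0).card = 2)
  have n1 : i1 ≠ i0 := Finset.ne_of_mem_erase (e.ge (by simp))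
  have n2 : i2 ≠ i0 := Finset.ne_of_mem_erase (e.ge (by simp))
  have : Nonempty E := ⟨o⟩
  choose! f h1 s h2 using hc
  have h : UH3.Ctx O i0 i1 i2 S o a z X r Y f s := ⟨hp, by rw [← e, Finset.insert_erase hf.1],
    n1.symm, n2.symm, n3, hf, hI, hN, fun i hi => ⟨h1 i hi, h2 i hi⟩⟩
  rcases h.frame hC hP with k | ⟨Y1, hF⟩
  · exact k
  · exact (h.single hC hP hF).elim id fun hn => h.final hG hF hn hr

end Pool.Agent.MP_d99b12_co.H57
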